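import Pool.Agent.EXL.CoReach
import Pool.Agent.EXL.Reach

/-!
# UNIV, M3: single column moves for general weights with `v, u1, u2 > 0`, `w1, w2 ≥ 0`
-/

set_option autoImplicit false

namespace Pool.Agent.UNI.Mv

open Pool.Agent.EXL Pat

/-- weights with `v, u1, u2 > 0` and `w1, w2 ≥ 0`. -/
structure WP (w : Wt ℝ) : Prop where
  v : 0 < w.v
  u1 : 0 < w.u1
  u2 : 0 < w.u2
  w1 : 0 ≤ w.w1
  w2 : 0 ≤ w.w2

section general

variable {α : Type*} [DecidableEq α] {w : Wt ℝ} {c j b t : α} {p : Pat α}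

omit [DecidableEq α] in
theorem WP.nn (hw : WP w) : w.Nn := ⟨hw.v.le, hw.u1.le, hw.u2.le, hw.w1, hw.w2⟩

theorem pos_R (hw : WP w) : Pos (R w c j) := fun _ hF s => R_nn hw.nn _ _ hF s

theorem leads_R_stay (hw : WP w) (h : p c = c ∨ p j = j) : Leads (R w c j) p p := by
  by_cases h1 : p c = c
  · by_cases h3 : p j = j
    · refine ⟨1, one_pos, fun F hF => ?_⟩
      rw [R_e h1 h3 rfl]
      have := mul_nonneg hw.u2.le (hF (cup c j p))
      linarith
    · refine ⟨w.v, hw.v, fun F hF => ?_⟩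
      rw [R_r h1 h3 rfl]
      have := mul_nonneg hw.u1.le (hF (swap c j p))
      linarith
  · have h3 : p j = j := h.resolve_left h1
    refine ⟨w.v, hw.v, fun F hF => ?_⟩
    rw [R_l h1 h3 rfl]
    have := mul_nonneg hw.u1.le (hF (swap c j p))
    linarith

theorem leads_R_cup (hw : WP w) (h1 : p c = c) (h3 : p j = j) :
    Leads (R w c j) p (cup c j p) := by
  refine ⟨w.u2, hw.u2, fun F hF => ?_⟩
  rw [R_e h1 h3 rfl]
  have := hF p
  linarith

theorem leads_R_swap (hw : WP w) (h : (p c = c ∧ p j ≠ j) ∨ (p c ≠ c ∧ p j = j)) :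
    Leads (R w c j) p (swap c j p) := by
  refine ⟨w.u1, hw.u1, fun F hF => ?_⟩
  have h2 : 0 ≤ w.v * F p := mul_nonneg hw.v.le (hF p)
  rcases h with ⟨h1, h3⟩ | ⟨h1, h3⟩
  · rw [R_r h1 h3 rfl]
    linarith
  · rw [R_l h1 h3 rfl]
    linarith

theorem leads_R_cut (hw : WP w) (h1 : p c ≠ c) (h3 : p j ≠ j) (h4 : p c ≠ j) :
    Leads (R w c j) p (cut c j p) := by
  refine ⟨w.u2, hw.u2, fun F hF => ?_⟩
  rw [R_d h1 h3 h4 rfl rfl rfl]
  have := mul_nonneg hw.w1 (hF (swap c j p))
  have := mul_nonneg hw.w2 (hF (cup c j (cut c j p)))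
  linarith

end general

/-! ### The column -/

section column

variable {N : ℕ}

open Site

theorem colW_eq_MF (w : Fin N → Wt ℝ) (F : Pat (Site N) → ℝ) :
    colW w F = bc (ax 0) fl (MF w (List.finRange N) (tc (ax 0) tp F)) := rfl

variable {w : Fin N → Wt ℝ} {p q s : Pat (Site N)} {L L' : List (Fin N)}

theorem pos_MF (hw : ∀ i, WP (w i)) : ∀ L : List (Fin N), Pos (MF w L)
  | [] => fun _ h => h
  | i :: L => by
    have h := (pos_R (c := ax 0) (j := row i) (hw i)).comp (pos_MF hw L)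
    exact h

theorem leads_MF_stay (hw : ∀ i, WP (w i)) : ∀ {L : List (Fin N)},
    (∀ i ∈ L, p (ax 0) = ax 0 ∨ p (row i) = row i) → Leads (MF w L) p p
  | [], _ => Leads.id p
  | i :: L, h => by
    have h1 := leads_R_stay (c := ax 0) (j := row i) (hw i) (h i (by simp))
    exact h1.comp (leads_MF_stay hw (L := L) (fun j hj => h j (by simp [hj]))) (pos_MF hw L)

theorem pos_colW (hw : ∀ i, WP (w i)) : Pos (colW w) := by
  have h : Pos (fun F : Pat (Site N) → ℝ =>
      bc (ax 0) fl (MF w (List.finRange N) (tc (ax 0) tp F))) :=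
    Pos.comp (X := bc (ax 0) fl) pos_bc
      (Pos.comp (X := MF w (List.finRange N)) (pos_MF hw _) pos_tc)
  exact h

/-- General two event move between two rows. -/
theorem leads_rows (hw : ∀ i, WP (w i)) {i j : Fin N} (hij : i < j) (hc : p (ax 0) = ax 0)
    (h1 : Leads (R (w i) (ax 0) (row i)) p q)
    (hq : ∀ k, i < k → k < j → q (row k) = row k)
    (h2 : Leads (R (w j) (ax 0) (row j)) q s)
    (hs : s (ax 0) = ax 0) : Leads (colW w) p s := by
  obtain ⟨L1, L2, L3, hL, m1, m2, m3⟩ := split_finRange2 hij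
  have a1 : Leads (bc (K := ℝ) (ax 0) fl) p p := leads_bc_stay hc
  have a2 : Leads (MF w L1) p p :=
    leads_MF_stay hw (fun _ _ => Or.inl hc)
  have a3 : Leads (MF w L2) q q :=
    leads_MF_stay hw (fun k hk => Or.inr (hq k ((m2 k).1 hk).1 ((m2 k).1 hk).2))
  have a4 : Leads (MF w L3) s s :=
    leads_MF_stay hw (fun _ _ => Or.inl hs)
  have a5 : Leads (tc (K := ℝ) (ax 0) tp) s s := leads_tc_stay hs
  have P5 : Pos (tc (K := ℝ) (ax 0 : Site N) tp) := pos_tc
  have P4 := (pos_MF hw L3).comp P5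
  have P3 := (pos_R (c := ax 0) (j := row j) (hw j)).comp P4
  have P2 := (pos_MF hw L2).comp P3
  have P1 := (pos_R (c := ax 0) (j := row i) (hw i)).comp P2
  have P0 := (pos_MF hw L1).comp P1
  have b := a1.comp (a2.comp (h1.comp (a3.comp (h2.comp (a4.comp a5 P5) P4) P3) P2) P1) P0
  have e : colW w = fun F => bc (ax 0) fl (MF w L1
      (R (w i) (ax 0) (row i) (MF w L2
      (R (w j) (ax 0) (row j) (MF w L3
      (tc (ax 0) tp F)))))) := by
    funext F
    rw [colW_eq_MF, hL, MF_append]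
    congr 2
    show R _ _ _ (MF _ (L2 ++ j :: L3) _) = _
    rw [MF_append]
    rfl
  rw [e]
  exact b

/-- General move from the floor to a row. -/
theorem leads_floor (hw : ∀ i, WP (w i)) {i : Fin N}
    (h1 : Leads (bc (K := ℝ) (ax 0) fl) p q)
    (hq : ∀ k, k < i → q (row k) = row k)
    (h2 : Leads (R (w i) (ax 0) (row i)) q s)
    (hs : s (ax 0) = ax 0) : Leads (colW w) p s := by
  obtain ⟨L1, L2, hL, m1, m2, -⟩ := split_finRange i
  have a2 : Leads (MF w L1) q q :=
    leads_MF_stay hw (fun k hk => Or.inr (hq k ((m1 k).1 hk)))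
  have a4 : Leads (MF w L2) s s :=
    leads_MF_stay hw (fun _ _ => Or.inl hs)
  have a5 : Leads (tc (K := ℝ) (ax 0) tp) s s := leads_tc_stay hs
  have P5 : Pos (tc (K := ℝ) (ax 0 : Site N) tp) := pos_tc
  have P4 := (pos_MF hw L2).comp P5
  have P3 := (pos_R (c := ax 0) (j := row i) (hw i)).comp P4
  have P2 := (pos_MF hw L1).comp P3
  have b := h1.comp (a2.comp (h2.comp (a4.comp a5 P5) P4) P3) P2
  have e : colW w = fun F => bc (ax 0) fl (MF w L1
      (R (w i) (ax 0) (row i) (MF w L2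
      (tc (ax 0) tp F)))) := by
    funext F
    rw [colW_eq_MF, hL, MF_append]
    rfl
  rw [e]
  exact b

/-- General move from a row to the top. -/
theorem leads_top (hw : ∀ i, WP (w i)) {i : Fin N} (hc : p (ax 0) = ax 0)
    (h1 : Leads (R (w i) (ax 0) (row i)) p q)
    (hq : ∀ k, i < k → q (row k) = row k)
    (h2 : Leads (tc (K := ℝ) (ax 0) tp) q s) : Leads (colW w) p s := by
  obtain ⟨L1, L2, hL, m1, m2, -⟩ := split_finRange i
  have a1 : Leads (bc (K := ℝ) (ax 0) fl) p p := leads_bc_stay hc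
  have a2 : Leads (MF w L1) p p :=
    leads_MF_stay hw (fun k hk => Or.inl hc)
  have a4 : Leads (MF w L2) q q :=
    leads_MF_stay hw (fun k hk => Or.inr (hq k ((m2 k).1 hk)))
  have P5 : Pos (tc (K := ℝ) (ax 0 : Site N) tp) := pos_tc
  have P4 := (pos_MF hw L2).comp P5
  have P3 := (pos_R (c := ax 0) (j := row i) (hw i)).comp P4
  have P2 := (pos_MF hw L1).comp P3
  have b := a1.comp (a2.comp (h1.comp (a4.comp h2 P5) P4) P3) P2
  have e : colW w = fun F => bc (ax 0) fl (MF w L1
      (R (w i) (ax 0) (row i) (MF w L2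
      (tc (ax 0) tp F)))) := by
    funext F
    rw [colW_eq_MF, hL, MF_append]
    rfl
  rw [e]
  exact b

/-- General move from the floor to the top. -/
theorem leads_floor_top (hw : ∀ i, WP (w i))
    (h1 : Leads (bc (K := ℝ) (ax 0) fl) p q) (hq : ∀ k, q (row k) = row k)
    (h2 : Leads (tc (K := ℝ) (ax 0) tp) q s) : Leads (colW w) p s := by
  have a2 : Leads (MF w (List.finRange N)) q q :=
    leads_MF_stay hw (fun k _ => Or.inr (hq k))
  have P5 : Pos (tc (K := ℝ) (ax 0 : Site N) tp) := pos_tc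
  have P4 := (pos_MF hw (List.finRange N)).comp P5
  exact h1.comp (a2.comp h2 P5) P4

end column

/-! ### The moves -/

section moves

variable {N : ℕ} {w : Fin N → Wt ℝ} {p : Pat (Site N)} {i j : Fin N}

open Site

/-- The strands at two consecutive occupied rows are joined. -/
theorem move_join (hw : ∀ i, WP (w i)) (hij : i < j) (hc : p (ax 0) = ax 0) (hi : p (row i) ≠ row i)
    (hj : p (row j) ≠ row j) (h : p (row i) ≠ row j)
    (hb : ∀ k, i < k → k < j → p (row k) = row k) :
    Leads (colW w) p (cut (row i) (row j) p) := by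
  have n1 := ax_ne_row (N := N) 0 i
  have n2 := ax_ne_row (N := N) 0 j
  have n3 := row_ne_row hij.ne
  have e := cut_swap' hc hi hj h n1 n2 n3
  have hpc : p (row i) ≠ ax 0 := fun e => n1 (by rw [← p.inv (row i), e, hc])
  have hpcj : p (row j) ≠ ax 0 := fun e => n2 (by rw [← p.inv (row j), e, hc])
  have e1 : swap (ax 0) (row i) p (ax 0) = p (row i) := by
    rw [pswap_apply, Equiv.swap_apply_left, Equiv.swap_apply_of_ne_of_ne hpc hi]
  have e2 : swap (ax 0) (row i) p (row j) = p (row j) :=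
    swap_out n2.symm n3.symm hpcj (fun e => h (by rw [← e, p.inv]))
  rw [← e]
  refine leads_rows hw hij hc (leads_R_swap (hw _) (Or.inl ⟨hc, hi⟩)) ?_
    (leads_R_cut (hw _) (by rw [e1]; exact hpc) (by rw [e2]; exact hj) (by rw [e1]; exact h)) ?_
  · intro k hk1 hk2
    have hk := hb k hk1 hk2
    have m1 := ax_ne_row (N := N) 0 k
    have m2 := row_ne_row hk1.ne'
    rw [swap_out m1.symm m2 (by rw [hk]; exact m1.symm) (by rw [hk]; exact m2), hk]
  · exact cut_left n2 (by rw [e1]; exact hpc) (by rw [e2]; exact hj) (by rw [e1]; exact h)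

/-- An arc between two empty rows is created. -/
theorem move_create (hw : ∀ i, WP (w i)) (hij : i < j) (hc : p (ax 0) = ax 0) (hi : p (row i) = row i)
    (hj : p (row j) = row j) (hb : ∀ k, i < k → k < j → p (row k) = row k) :
    Leads (colW w) p (cup (row i) (row j) p) := by
  have n1 := ax_ne_row (N := N) 0 i
  have n2 := ax_ne_row (N := N) 0 j
  have n3 := row_ne_row hij.ne
  have e := swap_cup' hc hi hj n1 n2 n3
  have e1 : cup (ax 0) (row i) p (ax 0) = row i := by
    rw [pcup_apply hc hi, if_pos rfl]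
  have e2 : cup (ax 0) (row i) p (row j) = row j := by
    rw [pcup_apply hc hi, if_neg n2.symm, if_neg n3.symm, hj]
  rw [← e]
  refine leads_rows hw hij hc (leads_R_cup (hw _) hc hi) ?_
    (leads_R_swap (hw _) (Or.inr ⟨by rw [e1]; exact n1.symm, e2⟩)) ?_
  · intro k hk1 hk2
    have m1 := ax_ne_row (N := N) 0 k
    have m2 := row_ne_row hk1.ne'
    rw [pcup_apply hc hi, if_neg m1.symm, if_neg m2, hb k hk1 hk2]
  · rw [pswap_apply, Equiv.swap_apply_left, e2, Equiv.swap_apply_right]

/-- The lowest strand goes to the floor. -/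
theorem move_floor (hw : ∀ i, WP (w i)) (hc : p (ax 0) = ax 0) (hf : p fl = fl) (hi : p (row i) ≠ row i)
    (hb : ∀ k, k < i → p (row k) = row k) :
    Leads (colW w) p (swap (row i) fl p) := by
  have n1 := ax_ne_row (N := N) 0 i
  have n2 := ax_ne_fl (N := N) 0
  have n3 := row_ne_fl i
  have e := cut_cup' hc hf hi n1 n2 n3
  have e1 : cup (ax 0) fl p (ax 0) = fl := by rw [pcup_apply hc hf, if_pos rfl]
  have e2 : cup (ax 0) fl p (row i) = p (row i) := by
    rw [pcup_apply hc hf, if_neg n1.symm, if_neg n3]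
  rw [← e]
  refine leads_floor hw (leads_bc_cup hc hf) ?_
    (leads_R_cut (hw _) (by rw [e1]; exact n2.symm) (by rw [e2]; exact hi)
      (by rw [e1]; exact n3.symm)) ?_
  · intro k hk
    have m1 := ax_ne_row (N := N) 0 k
    have m2 := row_ne_fl k
    rw [pcup_apply hc hf, if_neg m1.symm, if_neg m2, hb k hk]
  · exact cut_left n1 (by rw [e1]; exact n2.symm) (by rw [e2]; exact hi) (by rw [e1]; exact n3.symm)

/-- A strand from the floor to an empty row is created. -/
theorem move_floor_create (hw : ∀ i, WP (w i)) (hc : p (ax 0) = ax 0) (hf : p fl = fl) (hi : p (row i) = row i)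
    (hb : ∀ k, k < i → p (row k) = row k) :
    Leads (colW w) p (cup fl (row i) p) := by
  have n1 := ax_ne_row (N := N) 0 i
  have n2 := ax_ne_fl (N := N) 0
  have n3 := row_ne_fl i
  have e := swap_cup' hc hf hi n2 n1 n3.symm
  have e1 : cup (ax 0) fl p (ax 0) = fl := by rw [pcup_apply hc hf, if_pos rfl]
  have e2 : cup (ax 0) fl p (row i) = row i := by
    rw [pcup_apply hc hf, if_neg n1.symm, if_neg n3, hi]
  rw [← e]
  refine leads_floor hw (leads_bc_cup hc hf) ?_
    (leads_R_swap (hw _) (Or.inr ⟨by rw [e1]; exact n2.symm, e2⟩)) ?_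
  · intro k hk
    have m1 := ax_ne_row (N := N) 0 k
    have m2 := row_ne_fl k
    rw [pcup_apply hc hf, if_neg m1.symm, if_neg m2, hb k hk]
  · rw [pswap_apply, Equiv.swap_apply_left, e2, Equiv.swap_apply_right]

/-- The highest strand goes to the top. -/
theorem move_top (hw : ∀ i, WP (w i)) (hc : p (ax 0) = ax 0) (ht : p tp = tp) (hi : p (row i) ≠ row i)
    (hb : ∀ k, i < k → p (row k) = row k) :
    Leads (colW w) p (swap (row i) tp p) := by
  have n1 := ax_ne_row (N := N) 0 i
  have n2 := ax_ne_tp (N := N) 0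
  have n3 := row_ne_tp i
  have e := swap_swap' hc ht n1 n2 n3
  have hpc : p (row i) ≠ ax 0 := fun e => n1 (by rw [← p.inv (row i), e, hc])
  have e1 : swap (ax 0) (row i) p (ax 0) = p (row i) := by
    rw [pswap_apply, Equiv.swap_apply_left, Equiv.swap_apply_of_ne_of_ne hpc hi]
  have e2 : swap (ax 0) (row i) p tp = tp := by
    rw [swap_out n2.symm n3.symm (by rw [ht]; exact n2.symm) (by rw [ht]; exact n3.symm), ht]
  rw [← e]
  refine leads_top hw hc (leads_R_swap (hw _) (Or.inl ⟨hc, hi⟩)) ?_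
    (leads_tc_swap (by rw [e1]; exact hpc) e2)
  intro k hk
  have m1 := ax_ne_row (N := N) 0 k
  have m2 := row_ne_row hk.ne'
  have hk' := hb k hk
  rw [swap_out m1.symm m2 (by rw [hk']; exact m1.symm) (by rw [hk']; exact m2), hk']

/-- A strand from an empty row to the top is created. -/
theorem move_top_create (hw : ∀ i, WP (w i)) (hc : p (ax 0) = ax 0) (ht : p tp = tp) (hi : p (row i) = row i)
    (hb : ∀ k, i < k → p (row k) = row k) :
    Leads (colW w) p (cup (row i) tp p) := by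
  have n1 := ax_ne_row (N := N) 0 i
  have n2 := ax_ne_tp (N := N) 0
  have n3 := row_ne_tp i
  have e := swap_cup' hc hi ht n1 n2 n3
  have e1 : cup (ax 0) (row i) p (ax 0) = row i := by rw [pcup_apply hc hi, if_pos rfl]
  have e2 : cup (ax 0) (row i) p tp = tp := by
    rw [pcup_apply hc hi, if_neg n2.symm, if_neg n3.symm, ht]
  rw [← e]
  refine leads_top hw hc (leads_R_cup (hw _) hc hi) ?_
    (leads_tc_swap (by rw [e1]; exact n1.symm) e2)
  intro k hk
  have m1 := ax_ne_row (N := N) 0 k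
  have m2 := row_ne_row hk.ne'
  rw [pcup_apply hc hi, if_neg m1.symm, if_neg m2, hb k hk]

/-- A strand from the floor to the top. -/
theorem move_full (hw : ∀ i, WP (w i)) (hc : p (ax 0) = ax 0) (hf : p fl = fl) (ht : p tp = tp)
    (hb : ∀ k, p (row k) = row k) : Leads (colW w) p (cup fl tp p) := by
  have n1 := ax_ne_fl (N := N) 0
  have n2 := ax_ne_tp (N := N) 0
  have n3 := fl_ne_tp (N := N)
  have e := swap_cup' hc hf ht n1 n2 n3
  have e1 : cup (ax 0) fl p (ax 0) = fl := by rw [pcup_apply hc hf, if_pos rfl]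
  have e2 : cup (ax 0) fl p tp = tp := by
    rw [pcup_apply hc hf, if_neg n2.symm, if_neg n3.symm, ht]
  rw [← e]
  refine leads_floor_top hw (leads_bc_cup hc hf) ?_
    (leads_tc_swap (by rw [e1]; exact n1.symm) e2)
  intro k
  have m1 := ax_ne_row (N := N) 0 k
  have m2 := row_ne_fl k
  rw [pcup_apply hc hf, if_neg m1.symm, if_neg m2, hb k]

/-- Nothing happens. -/
theorem move_stay (hw : ∀ i, WP (w i)) (hc : p (ax 0) = ax 0) : Leads (colW w) p p := by
  have a2 : Leads (MF w (List.finRange N)) p p :=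
    leads_MF_stay hw (fun k _ => Or.inl hc)
  have P5 : Pos (tc (K := ℝ) (ax 0 : Site N) tp) := pos_tc
  have P4 := (pos_MF hw (List.finRange N)).comp P5
  exact (leads_bc_stay hc).comp (a2.comp (leads_tc_stay hc) P5) P4

end moves

end Pool.Agent.UNI.Mv
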