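import Pool.Agent.EXL.HexCol
import Pool.Agent.EXL.FormInst
import Pool.Agent.EXL.SetN
import Pool.Agent.EXL.GreenHS

/-!
# UNIV: the real weights of a rhombus and the column with the rows `x`

`wR u`, `u ∈ [π/8, π/4]`: the Yang–Baxter weights (Glazman–Manolescu form), `wR (π/8)` is the honeycomb
rhombus.  `colX x` is the column with the rows `u = 3π/16 - x k`.
-/

set_option autoImplicit false

namespace Pool.Agent.UNI

open Filter Topology Pool.Agent.EXL

/-- the denominator. -/
noncomputable def DR (u : ℝ) : ℝ := Real.sin (u + Real.pi / 4) * Real.sin (u + 3 * Real.pi / 8)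

/-- **the weights of the rhombus with the parameter `u`**. -/
noncomputable def wR (u : ℝ) : Wt ℝ where
  v := Real.sin u * Real.sin (3 * Real.pi / 8 - u) / DR u
  u1 := Real.sin (Real.pi / 4) * Real.sin (3 * Real.pi / 8 - u) / DR u
  u2 := Real.sin (Real.pi / 4) * Real.sin u / DR u
  w1 := Real.sin (Real.pi / 4 - u) * Real.sin (3 * Real.pi / 8 - u) / DR u
  w2 := Real.sin u * Real.sin (u - Real.pi / 8) / DR u

theorem DR_pos {u : ℝ} (h1 : -(Real.pi / 4) < u) (h2 : u < 5 * Real.pi / 8) : 0 < DR u := by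
  have hp := Real.pi_pos
  exact mul_pos (Real.sin_pos_of_pos_of_lt_pi (by linarith) (by linarith))
    (Real.sin_pos_of_pos_of_lt_pi (by linarith) (by linarith))

theorem wR_v_pos {u : ℝ} (h1 : 0 < u) (h2 : u < 3 * Real.pi / 8) : 0 < (wR u).v := by
  have hp := Real.pi_pos
  exact div_pos (mul_pos (Real.sin_pos_of_pos_of_lt_pi h1 (by linarith))
    (Real.sin_pos_of_pos_of_lt_pi (by linarith) (by linarith))) (DR_pos (by linarith) (by linarith))

theorem wR_u1_pos {u : ℝ} (h1 : 0 < u) (h2 : u < 3 * Real.pi / 8) : 0 < (wR u).u1 := by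
  have hp := Real.pi_pos
  exact div_pos (mul_pos (Real.sin_pos_of_pos_of_lt_pi (by linarith) (by linarith))
    (Real.sin_pos_of_pos_of_lt_pi (by linarith) (by linarith))) (DR_pos (by linarith) (by linarith))

theorem wR_u2_pos {u : ℝ} (h1 : 0 < u) (h2 : u < 3 * Real.pi / 8) : 0 < (wR u).u2 := by
  have hp := Real.pi_pos
  exact div_pos (mul_pos (Real.sin_pos_of_pos_of_lt_pi (by linarith) (by linarith))
    (Real.sin_pos_of_pos_of_lt_pi h1 (by linarith))) (DR_pos (by linarith) (by linarith))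

theorem wR_w1_nonneg {u : ℝ} (h1 : 0 < u) (h2 : u ≤ Real.pi / 4) : 0 ≤ (wR u).w1 := by
  have hp := Real.pi_pos
  exact div_nonneg (mul_nonneg (Real.sin_nonneg_of_nonneg_of_le_pi (by linarith) (by linarith))
    (Real.sin_pos_of_pos_of_lt_pi (by linarith) (by linarith)).le) (DR_pos (by linarith) (by linarith)).le

theorem wR_w2_nonneg {u : ℝ} (h1 : Real.pi / 8 ≤ u) (h2 : u ≤ Real.pi / 4) : 0 ≤ (wR u).w2 := by
  have hp := Real.pi_pos
  exact div_nonneg (mul_nonneg (Real.sin_pos_of_pos_of_lt_pi (by linarith) (by linarith)).le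
    (Real.sin_nonneg_of_nonneg_of_le_pi (by linarith) (by linarith))) (DR_pos (by linarith) (by linarith)).le

theorem wR_nn {u : ℝ} (h1 : Real.pi / 8 ≤ u) (h2 : u ≤ Real.pi / 4) : (wR u).Nn := by
  have hp := Real.pi_pos
  exact ⟨(wR_v_pos (by linarith) (by linarith)).le, (wR_u1_pos (by linarith) (by linarith)).le,
    (wR_u2_pos (by linarith) (by linarith)).le, wR_w1_nonneg (by linarith) h2, wR_w2_nonneg h1 h2⟩

/-- the real weights are the complex weights of the lattice operators. -/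
theorem wR_map (u : ℝ) : (wR u).map Complex.ofRealHom = rwt (u : ℂ) := by
  rw [Fm.rwt_eq]
  have e1 : (DR u : ℂ) = Fm.Dn (u : ℂ) := by
    unfold DR Fm.Dn Fm.lam
    push_cast
    rw [show 2 * ((Real.pi : ℂ) / 8) + u = u + Real.pi / 4 by ring,
      show 3 * ((Real.pi : ℂ) / 8) + u = u + 3 * Real.pi / 8 by ring]
  have e2 : (2 : ℂ) * ((Real.pi : ℂ) / 8) = Real.pi / 4 := by ring
  have e3 : (3 : ℂ) * ((Real.pi : ℂ) / 8) = 3 * Real.pi / 8 := by ring
  simp only [Wt.map, wR, Fm.Wc, Fm.Wn, Wt.sc, Fm.lam, e2, e3, ← e1, Complex.ofRealHom_eq_coe,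
    Wt.mk.injEq]
  push_cast
  refine ⟨?_, ?_, ?_, ?_, ?_⟩ <;> rw [div_eq_inv_mul]

theorem wR_hex : wR (Real.pi / 8) = hexW HexObs.xc := by
  have h := wR_map (Real.pi / 8)
  push_cast at h
  rw [rwt_hex] at h
  simp only [Wt.map, hexW, Complex.ofRealHom_eq_coe, Wt.mk.injEq] at h
  obtain ⟨h1, h2, h3, h4, h5⟩ := h
  have e : wR (Real.pi / 8) = ⟨(wR (Real.pi / 8)).v, (wR (Real.pi / 8)).u1, (wR (Real.pi / 8)).u2,
    (wR (Real.pi / 8)).w1, (wR (Real.pi / 8)).w2⟩ := rfl
  rw [e]
  simp only [hexW, Wt.mk.injEq]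
  exact ⟨by exact_mod_cast h1, by exact_mod_cast h2, by exact_mod_cast h3, by exact_mod_cast h4,
    by exact_mod_cast h5⟩

theorem cont_wR {Z : Type*} [TopologicalSpace Z] {u : Z → ℝ} {z0 : Z} (hu : ContinuousAt u z0)
    (h : DR (u z0) ≠ 0) : HS.WtCont (fun z => wR (u z)) z0 := by
  have hD : ContinuousAt (fun z => DR (u z)) z0 := by
    have : Continuous DR := by
      unfold DR
      fun_prop
    exact this.continuousAt.comp hu
  have hs : ∀ c : ℝ, ContinuousAt (fun z => Real.sin (c - u z)) z0 := fun c =>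
    Real.continuous_sin.continuousAt.comp (continuousAt_const.sub hu)
  have hs' : ∀ c : ℝ, ContinuousAt (fun z => Real.sin (u z - c)) z0 := fun c =>
    Real.continuous_sin.continuousAt.comp (hu.sub continuousAt_const)
  have hs0 : ContinuousAt (fun z => Real.sin (u z)) z0 := Real.continuous_sin.continuousAt.comp hu
  constructor
  · exact (hs0.mul (hs _)).div hD h
  · exact (continuousAt_const.mul (hs _)).div hD h
  · exact (continuousAt_const.mul hs0).div hD h
  · exact ((hs _).mul (hs _)).div hD h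
  · exact (hs0.mul (hs' _)).div hD h

/-! ### The column with general rows -/

section col

variable {K : Type*} [CommRing K] {N : ℕ}

/-- the weights of the rows as a function of the site. -/
def sW (w : Fin N → Wt K) (d : Wt K) : Site N → Wt K
  | Site.row i => w i
  | _ => d

/-- the empty weights. -/
def w0 : Wt K := ⟨0, 0, 0, 0, 0⟩

theorem M_rowsL (W : Site N → Wt K) (a : Site N) (l : List (Fin N)) (F : Pat (Site N) → K) :
    M W a (l.map Site.row) F = l.foldr (fun i G => R (W (Site.row i)) a (Site.row i) G) F := by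
  induction l with
  | nil => rfl
  | cons i l ih => rw [List.map_cons, M_cons, List.foldr_cons, ih]

theorem colW_CC (w : Fin N → Wt K) (d : Wt K) (F : Pat (Site N) → K) :
    colW w F = HS.CC (sW w d) (Site.ax 0) Site.fl Site.tp (LsN N) F := by
  unfold colW HS.CC LsN
  rw [M_rowsL]
  rfl

theorem CC_colW (W : Site N → Wt K) (F : Pat (Site N) → K) :
    HS.CC W (Site.ax 0) Site.fl Site.tp (LsN N) F = colW (fun i => W (Site.row i)) F := by
  unfold colW HS.CC LsN
  rw [M_rowsL]

theorem good_colW (w : Fin N → Wt K) : HS.Good Site.fl Site.tp (colW w) := by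
  have e : colW w = HS.CC (sW w w0) (Site.ax 0) Site.fl Site.tp (LsN N) := funext (colW_CC w w0)
  rw [e]
  apply HS.good_CC
  · simp
  · simp
  · simp
  · intro j hj
    obtain ⟨i, -, rfl⟩ := List.mem_map.1 hj
    simp

theorem pres_colW (w : Fin N → Wt K) : HS.Pres (AN N) (AN N) (colW w) := by
  have e : colW w = HS.CC (sW w w0) (Site.ax 0) Site.fl Site.tp (LsN N) := funext (colW_CC w w0)
  rw [e]
  exact presC_N N _ 0

theorem posOp_colW {w : Fin N → Wt ℝ} (hw : ∀ i, (w i).Nn) : HS.PosOp (colW w) := by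
  intro F hF p
  rw [colW_CC w ⟨0, 0, 0, 0, 0⟩]
  refine CC_nn (fun j => ?_) _ _ _ _ hF p
  cases j with
  | row i => exact hw i
  | fl => exact ⟨le_rfl, le_rfl, le_rfl, le_rfl, le_rfl⟩
  | tp => exact ⟨le_rfl, le_rfl, le_rfl, le_rfl, le_rfl⟩
  | ax k => exact ⟨le_rfl, le_rfl, le_rfl, le_rfl, le_rfl⟩

theorem cont_colW [TopologicalSpace K] [IsTopologicalRing K] {Z : Type*} [TopologicalSpace Z] {z0 : Z}
    {w : Z → Fin N → Wt K} (hw : ∀ i, HS.WtCont (fun z => w z i) z0) {F : Z → Pat (Site N) → K}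
    (hF : ∀ p, ContinuousAt (fun z => F z p) z0) (p : Pat (Site N)) :
    ContinuousAt (fun z => colW (w z) (F z) p) z0 := by
  have e : (fun z => colW (w z) (F z) p) = fun z =>
      HS.CC (sW (w z) w0) (Site.ax 0) Site.fl Site.tp (LsN N) (F z) p := by
    funext z
    rw [colW_CC (w z) w0]
  rw [e]
  apply HS.cont_CC (w := fun z => sW (w z) w0) _ _ _ _ hF
  intro s hs
  obtain ⟨i, -, rfl⟩ := List.mem_map.1 hs
  exact hw i

theorem colW_map {K' : Type*} [CommRing K'] (f : K →+* K') (w : Fin N → Wt K) (F : Pat (Site N) → K) :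
    colW (fun i => (w i).map f) (fun p => f (F p)) = fun p => f (colW w F p) := by
  have h := CC_map f (sW w w0) (Site.ax 0 : Site N) Site.fl Site.tp (LsN N) F
  rw [CC_colW, CC_colW] at h
  exact h

end col

/-! ### The column with the rows `x` -/

/-- the column with the rows `x`. -/
noncomputable def colX {N : ℕ} (x : Fin N → ℝ) : (Pat (Site N) → ℝ) → (Pat (Site N) → ℝ) :=
  colW fun i => wR (3 * Real.pi / 16 - x i)

/-- the rapidities. -/
noncomputable def zx {N : ℕ} (x : Fin N → ℝ) : LbN N → ℂ := Sum.elim (fun i => (x i : ℂ)) 0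

theorem colX_hex (N : ℕ) : colX (fun _ : Fin N => Real.pi / 16) = colH N := by
  unfold colX colH
  simp only
  rw [show 3 * Real.pi / 16 - Real.pi / 16 = Real.pi / 8 by ring, wR_hex]

/-- the complex column is the complexification of the real one. -/
theorem opsC_colX {N : ℕ} (x : Fin N → ℝ) (F : Pat (Site N) → ℝ) :
    (ops (LN N)).C (zx x) (Sum.inr 0) (rowsN N) (fun p => (F p : ℂ)) =
      fun p => (colX x F p : ℂ) := by
  have h := colW_map Complex.ofRealHom (fun i => wR (3 * Real.pi / 16 - x i)) F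
  unfold colX
  simp only [Complex.ofRealHom_eq_coe] at h
  rw [← h, HS.ops_C_apply (zx x) (row_notMem N _ ⟨0, rfl⟩), rowsN_map]
  rw [show (LN N).lab (Sum.inr 0) = Site.ax 0 from rfl, show (LN N).flo = Site.fl from rfl,
    show (LN N).cei = Site.tp from rfl, CC_colW]
  congr 1
  funext i
  rw [show Site.row i = (LN N).lab (Sum.inl i) from rfl, HS.zs_lab]
  have e := wR_map (3 * Real.pi / 16 - x i)
  push_cast at e
  rw [e]
  rfl

end Pool.Agent.UNI
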