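import Pool.Agent.EXL.BFactsC

/-!
# The facts about `b` at the special points: rows with both signs of the rapidity

Signed version of `bpts`: `z (row k) = x k` or `z (row k) = -(x k)`.
-/

open Filter Topology

namespace Pool.Agent.EXL

open Glob Cl

section
variable {ι V : Type*} [AddCommGroup V] [Module ℂ V] {S : Ops (Module.End ℂ V) ι ℂ}
  {z : ι → ℂ} {rows : List ι}

variable (hh : S.h = 3 * Real.pi / 16)
  (hz : ∀ r ∈ rows, ∃ y : ℝ, z r = (y : ℂ) ∧ -(Real.pi / 16) < y ∧ y < Real.pi / 16)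
include hh hz

/-- The interval `(-l/2, 7l/2)` is admissible. -/
theorem adm_mid_s {v : ℝ} (h1 : -(Real.pi / 16) < v) (h2 : v < 7 * Real.pi / 16) :
    Adm S okR okC z rows (v : ℂ) where
  m := by
    have := okR_main (u := v - 3 * Real.pi / 16) (by linarith) (by linarith)
    rw [hh]; push_cast at this; exact this
  m' := by
    have := okR_main (u := 3 * Real.pi / 16 - v) (by linarith) (by linarith)
    rw [hh]; push_cast at this; exact this
  k := okC_real (by linarith [Real.pi_pos]) (by linarith [Real.pi_pos])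
  k' := by
    have := okC_real (u := 3 * Real.pi / 16 + 3 * Real.pi / 16 - v) (by linarith [Real.pi_pos])
      (by linarith [Real.pi_pos])
    rw [hh]; push_cast at this; exact this
  r := by
    intro r hr
    obtain ⟨y, e, y1, y2⟩ := hz r hr
    have := okR_main (u := v - y) (by linarith [Real.pi_pos]) (by linarith [Real.pi_pos])
    rw [e]; push_cast at this; exact this
  r' := by
    intro r hr
    obtain ⟨y, e, y1, y2⟩ := hz r hr
    have := okR_main (u := 3 * Real.pi / 16 + 3 * Real.pi / 16 - v - y)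
      (by linarith [Real.pi_pos]) (by linarith [Real.pi_pos])
    rw [e, hh]; push_cast at this; exact this

/-- The interval `(7l/2, 9l/2)` is admissible. -/
theorem adm_q_s {v : ℝ} (h1 : 7 * Real.pi / 16 < v) (h2 : v < 9 * Real.pi / 16) :
    Adm S okR okC z rows (v : ℂ) where
  m := by
    have := okR_main (u := v - 3 * Real.pi / 16) (by linarith [Real.pi_pos]) (by linarith)
    rw [hh]; push_cast at this; exact this
  m' := by
    have := okR_low (u := 3 * Real.pi / 16 - v) (by linarith) (by linarith)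
    rw [hh]; push_cast at this; exact this
  k := okC_real (by linarith [Real.pi_pos]) (by linarith [Real.pi_pos])
  k' := by
    have := okC_real (u := 3 * Real.pi / 16 + 3 * Real.pi / 16 - v) (by linarith [Real.pi_pos])
      (by linarith [Real.pi_pos])
    rw [hh]; push_cast at this; exact this
  r := by
    intro r hr
    obtain ⟨y, e, y1, y2⟩ := hz r hr
    have := okR_main (u := v - y) (by linarith [Real.pi_pos]) (by linarith [Real.pi_pos])
    rw [e]; push_cast at this; exact this
  r' := by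
    intro r hr
    obtain ⟨y, e, y1, y2⟩ := hz r hr
    have := okR_main (u := 3 * Real.pi / 16 + 3 * Real.pi / 16 - v - y)
      (by linarith [Real.pi_pos]) (by linarith [Real.pi_pos])
    rw [e, hh]; push_cast at this; exact this

end

section
variable {ι V : Type*} [AddCommGroup V] [Module ℂ V] {S : Ops (Module.End ℂ V) ι ℂ}
  {z : ι → ℂ} {rows : List ι} {a : Set ι} {N : Submodule ℂ V} {F e : V} {b : ℂ → ℂ} {B : ℂ}

theorem bpts_s {n : ℕ} {x : Fin n → ℝ} (hx : Nd x) (L : Laws S okR okC)
    (hl : S.l = Real.pi / 8) (hh : S.h = 3 * Real.pi / 16) (hq : S.q = Real.pi / 2)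
    {row : Fin n → ι} (hrow : Function.Injective row) (hrows : rows = (List.finRange n).map row)
    (hz : ∀ k, z (row k) = (x k : ℂ) ∨ z (row k) = -(x k : ℂ)) {i j i' j' : ι} (ha : Aux4 a rows i j i' j')
    (H : Half S okR okC z rows a N F e b B) {f : ℂ → ℂ}
    (hf : ∀ v : ℝ, Adm S okR okC z rows (v : ℂ) → f (Complex.exp (2 * Complex.I * v)) = b v)
    (c0 : ContinuousAt f 1) (c3 : ContinuousAt f (ze ^ 3)) (c4 : ContinuousAt f (ze ^ 4))
    (c7 : ContinuousAt f (ze ^ 7)) : BPts x f B := by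
  have hpi := Real.pi_pos
  have hn : rows.Nodup := by
    rw [hrows]; exact (List.nodup_finRange n).map hrow
  have hz' : ∀ r ∈ rows, ∃ y : ℝ, z r = (y : ℂ) ∧ -(Real.pi / 16) < y ∧ y < Real.pi / 16 := by
    intro r hr
    rw [hrows, List.mem_map] at hr
    obtain ⟨k, -, rfl⟩ := hr
    have h1 := hx.pos k
    have h2 := hx.lt k
    rcases hz k with h | h
    · exact ⟨x k, h, by linarith, by linarith⟩
    · exact ⟨-x k, by rw [h]; push_cast; ring, by linarith, by linarith⟩
  have mid : ∀ {v : ℝ}, -(Real.pi / 16) < v → v < 7 * Real.pi / 16 →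
      Adm S okR okC z rows (v : ℂ) := fun h1 h2 => adm_mid_s hh hz' h1 h2
  have hmem : ∀ k, row k ∈ rows := fun k => by rw [hrows]; exact List.mem_map_of_mem (List.mem_finRange k)
  -- crossing for real parameters
  have cross : ∀ v : ℝ, Adm S okR okC z rows (v : ℂ) →
      okR ((2 * v - 3 * Real.pi / 8 : ℝ) : ℂ) →
      f (Complex.exp (2 * Complex.I * ((3 * Real.pi / 8 - v : ℝ) : ℂ))) =
        f (Complex.exp (2 * Complex.I * v)) := by
    intro v hv h2
    have e1 : ((3 * Real.pi / 8 - v : ℝ) : ℂ) = S.h + S.h - v := by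
      rw [hh]; push_cast; ring
    have h3 := hv.symm
    rw [hf v hv, hf (3 * Real.pi / 8 - v) (by rw [e1]; exact h3), e1]
    refine H.b_cross L hn ha.mi ha.mj ha.ij ha.ri ha.rj hv h3 ?_
    have e2 : (v : ℂ) + v - (S.h + S.h) = ((2 * v - 3 * Real.pi / 8 : ℝ) : ℂ) := by
      rw [hh]; push_cast; ring
    rw [e2]; exact h2
  have h0 : f 1 = 0 := by
    have h1 := hf 0 (mid (by linarith) (by linarith))
    rw [Complex.ofReal_zero, mul_zero, Complex.exp_zero] at h1
    rw [h1]
    refine H.b_zero L hn ha.mi ha.mj ha.ij ha.ri ha.rj ?_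
    have := mid (v := 0) (by linarith) (by linarith)
    rwa [Complex.ofReal_zero] at this
  have h4 : f (ze ^ 4) = 0 := by
    have e1 : ((Real.pi / 2 : ℝ) : ℂ) = S.q := by rw [hq]; push_cast; ring
    have a1 : Adm S okR okC z rows ((Real.pi / 2 : ℝ) : ℂ) :=
      adm_q_s hh hz' (by linarith) (by linarith)
    have h1 := hf (Real.pi / 2) a1
    rw [ze_pow, show (((4 : ℕ) : ℝ) * (Real.pi / 8)) = Real.pi / 2 by push_cast; ring, h1, e1]
    refine H.b_q L hn ha.mi ha.mj ha.ij ha.ri ha.rj (by rw [← e1]; exact a1) ?_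
    intro r hr
    obtain ⟨y, e, y1, y2⟩ := hz' r hr
    have := okR_high (u := 3 * Real.pi / 16 + 3 * Real.pi / 16 + (Real.pi / 2 - y))
      (by linarith) (by linarith)
    rw [e, hh, hq]; push_cast at this; exact this
  have hcont : ∀ v0 : ℝ, Tendsto (fun v : ℝ => Complex.exp (2 * Complex.I * v)) (𝓝 v0)
      (𝓝 (Complex.exp (2 * Complex.I * v0))) := by
    intro v0
    have : Continuous (fun v : ℝ => Complex.exp (2 * Complex.I * v)) := by fun_prop
    exact this.tendsto v0
  have hcont' : ∀ v0 : ℝ, Tendsto (fun v : ℝ => Complex.exp (2 * Complex.I *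
      ((3 * Real.pi / 8 - v : ℝ) : ℂ))) (𝓝 v0)
      (𝓝 (Complex.exp (2 * Complex.I * ((3 * Real.pi / 8 - v0 : ℝ) : ℂ)))) := by
    intro v0
    have : Continuous (fun v : ℝ => Complex.exp (2 * Complex.I *
      ((3 * Real.pi / 8 - v : ℝ) : ℂ))) := by fun_prop
    exact this.tendsto v0
  have h3 : f (ze ^ 3) = 0 := by
    have e3 : Complex.exp (2 * Complex.I * ((3 * Real.pi / 8 - 0 : ℝ) : ℂ)) = ze ^ 3 := by
      rw [ze_pow]; congr 2; push_cast; ring
    have t1 := (c3.tendsto.comp (by rw [← e3]; exact (hcont' 0).mono_left nhdsWithin_le_nhds) :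
      Tendsto (fun v : ℝ => f (Complex.exp (2 * Complex.I * ((3 * Real.pi / 8 - v : ℝ) : ℂ))))
        (𝓝[>] 0) (𝓝 (f (ze ^ 3))))
    have e0 : Complex.exp (2 * Complex.I * ((0 : ℝ) : ℂ)) = 1 := by simp
    have t2 := (c0.tendsto.comp (by rw [← e0]; exact (hcont 0).mono_left nhdsWithin_le_nhds) :
      Tendsto (fun v : ℝ => f (Complex.exp (2 * Complex.I * v)))
        (𝓝[>] 0) (𝓝 (f 1)))
    have ev : (fun v : ℝ => f (Complex.exp (2 * Complex.I * ((3 * Real.pi / 8 - v : ℝ) : ℂ))))
        =ᶠ[𝓝[>] 0] (fun v : ℝ => f (Complex.exp (2 * Complex.I * v))) := by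
      filter_upwards [Ioo_mem_nhdsGT (show (0 : ℝ) < Real.pi / 16 by positivity)] with v hv
      exact cross v (mid (by linarith [hv.1]) (by linarith [hv.2]))
        (okR_low (by linarith [hv.1]) (by linarith [hv.2]))
    rw [← h0]
    exact tendsto_nhds_unique (t1.congr' ev) t2
  have h7 : f (ze ^ 7) = 0 := by
    have e7 : Complex.exp (2 * Complex.I * ((3 * Real.pi / 8 - Real.pi / 2 : ℝ) : ℂ)) =
        ze ^ 7 := by
      rw [ze_pow, show (2 * Complex.I * (((7 : ℕ) : ℝ) * (Real.pi / 8) : ℝ) : ℂ) =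
        2 * Complex.I * ((3 * Real.pi / 8 - Real.pi / 2 : ℝ) : ℂ) + 2 * Real.pi * Complex.I by
        push_cast; ring, Complex.exp_periodic]
    have t1 := (c7.tendsto.comp (by
        rw [← e7]; exact (hcont' (Real.pi / 2)).mono_left nhdsWithin_le_nhds) :
      Tendsto (fun v : ℝ => f (Complex.exp (2 * Complex.I * ((3 * Real.pi / 8 - v : ℝ) : ℂ))))
        (𝓝[<] (Real.pi / 2)) (𝓝 (f (ze ^ 7))))
    have e4 : Complex.exp (2 * Complex.I * ((Real.pi / 2 : ℝ) : ℂ)) = ze ^ 4 := by
      rw [ze_pow]; congr 2; push_cast; ring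
    have t2 := (c4.tendsto.comp (by
        rw [← e4]; exact (hcont (Real.pi / 2)).mono_left nhdsWithin_le_nhds) :
      Tendsto (fun v : ℝ => f (Complex.exp (2 * Complex.I * v)))
        (𝓝[<] (Real.pi / 2)) (𝓝 (f (ze ^ 4))))
    have ev : (fun v : ℝ => f (Complex.exp (2 * Complex.I * ((3 * Real.pi / 8 - v : ℝ) : ℂ))))
        =ᶠ[𝓝[<] (Real.pi / 2)] (fun v : ℝ => f (Complex.exp (2 * Complex.I * v))) := by
      filter_upwards [Ioo_mem_nhdsLT (show 7 * Real.pi / 16 < Real.pi / 2 by linarith)]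
        with v hv
      exact cross v (adm_q_s hh hz' hv.1 (by linarith [hv.2]))
        (okR_main (by linarith [hv.1]) (by linarith [hv.2]))
    rw [← h4]
    exact tendsto_nhds_unique (t1.congr' ev) t2
  -- the function at the real points
  set g : ℝ → ℂ := fun v => f (Complex.exp (2 * Complex.I * (v : ℂ))) with hg
  have crossg : ∀ v : ℝ, -(Real.pi / 16) < v → v < 7 * Real.pi / 16 →
      okR ((2 * v - 3 * Real.pi / 8 : ℝ) : ℂ) → g (3 * Real.pi / 8 - v) = g v :=
    fun v h1 h2 h3 => cross v (mid h1 h2) h3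
  have hkk : ∀ k, ∀ r ∈ rows, okR (z r - z (row k)) := by
    intro k r hr
    obtain ⟨y, e, y1, y2⟩ := hz' r hr
    obtain ⟨y', e', y1', y2'⟩ := hz' (row k) (hmem k)
    have := okR_main (u := y - y') (by linarith) (by linarith)
    rw [e, e']; push_cast at this; exact this
  -- the two relations at `v = z (row k)`
  have inv1 : ∀ k, ∀ y : ℝ, z (row k) = (y : ℂ) → -(Real.pi / 16) < y → y < Real.pi / 16 →
      g (y + 3 * Real.pi / 8) = - g y := by
    intro k y hy h1 h2
    have a0 := mid (v := y) (by linarith) (by linarith)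
    have a3 := mid (v := y + 3 * Real.pi / 8) (by linarith) (by linarith)
    have e3 : ((y + 3 * Real.pi / 8 : ℝ) : ℂ) = S.h + S.h + z (row k) := by
      rw [hh, hy]; push_cast; ring
    simp only [hg]
    rw [hf _ a3, hf _ a0, e3, ← hy]
    rw [eq_neg_iff_add_eq_zero]
    refine H.b_inv L hn (hmem k) ha.mi ha.mj ha.mi' ha.mj' ha.ij ha.ii ha.ij' ha.ji' ha.jj' ha.ij2
      ha.ri ha.rj ha.ri' ha.rj' (by rw [hy]; exact a0) (by rw [← e3]; exact a3) ?_ (hkk k)
    have := okC_real (u := -y) (by linarith) (by linarith)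
    rw [hy]; push_cast at this; exact this
  have fus1 : ∀ k, ∀ y : ℝ, z (row k) = (y : ℂ) → -(Real.pi / 16) < y → y < Real.pi / 16 →
      g y + g (y + 2 * Real.pi / 8) = g (y + Real.pi / 8) := by
    intro k y hy h1 h2
    have a0 := mid (v := y) (by linarith) (by linarith)
    have a1 := mid (v := y + Real.pi / 8) (by linarith) (by linarith)
    have a2 := mid (v := y + 2 * Real.pi / 8) (by linarith) (by linarith)
    have e1 : ((y + Real.pi / 8 : ℝ) : ℂ) = z (row k) + S.l := by
      rw [hl, hy]; push_cast; ring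
    have e2 : ((y + 2 * Real.pi / 8 : ℝ) : ℂ) = z (row k) + S.l + S.l := by
      rw [hl, hy]; push_cast; ring
    simp only [hg]
    rw [hf _ a2, hf _ a0, hf _ a1, e1, e2, ← hy]
    exact H.b_fus L hn (hmem k) ha.mi ha.mj ha.mi' ha.mj' ha.ij ha.ii ha.ij' ha.ji' ha.jj' ha.ij2
      ha.ri ha.rj ha.ri' ha.rj' (by rw [hy]; exact a0) (by rw [← e1]; exact a1)
      (by rw [← e2]; exact a2) (hkk k)
  -- crossed points
  have x3 : ∀ k, g (-x k) = g (x k + 3 * Real.pi / 8) := by
    intro k
    have h1 := hx.pos k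
    have h2 := hx.lt k
    rw [← crossg (x k + 3 * Real.pi / 8) (by linarith) (by linarith)
      (okR_main (by linarith) (by linarith))]
    congr 1; ring
  have x2 : ∀ k, g (-x k + Real.pi / 8) = g (x k + 2 * Real.pi / 8) := by
    intro k
    have h1 := hx.pos k
    have h2 := hx.lt k
    rw [← crossg (x k + 2 * Real.pi / 8) (by linarith) (by linarith)
      (okR_main (by linarith) (by linarith))]
    congr 1; ring
  have x1 : ∀ k, g (-x k + 2 * Real.pi / 8) = g (x k + Real.pi / 8) := by
    intro k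
    have h1 := hx.pos k
    have h2 := hx.lt k
    rw [← crossg (x k + Real.pi / 8) (by linarith) (by linarith)
      (okR_main (by linarith) (by linarith))]
    congr 1; ring
  have x0 : ∀ k, g (-x k + 3 * Real.pi / 8) = g (x k) := by
    intro k
    have h1 := hx.pos k
    have h2 := hx.lt k
    rw [← crossg (x k) (by linarith) (by linarith)
      (okR_low (by linarith) (by linarith))]
    congr 1; ring
  have hinv : ∀ k, g (x k + 3 * Real.pi / 8) = - g (x k) := by
    intro k
    have h1 := hx.pos k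
    have h2 := hx.lt k
    rcases hz k with h | h
    · exact inv1 k (x k) h (by linarith) h2
    · have h3 := inv1 k (-x k) (by rw [h]; push_cast; ring) (by linarith) (by linarith)
      rw [x0, x3] at h3
      rw [h3, neg_neg]
  have hfus : ∀ k, g (x k) + g (x k + 2 * Real.pi / 8) = g (x k + Real.pi / 8) := by
    intro k
    have h1 := hx.pos k
    have h2 := hx.lt k
    rcases hz k with h | h
    · exact fus1 k (x k) h (by linarith) h2
    · have h3 := fus1 k (-x k) (by rw [h]; push_cast; ring) (by linarith) (by linarith)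
      rw [x1, x2, x3, hinv] at h3
      rw [← h3]; ring
  have hyt : ∀ (k : Fin n) (m : ℕ), f (yy x (k, true) * ze ^ m) = g (x k + m * (Real.pi / 8)) :=
    fun k m => by rw [yy_ze_true]
  have hyf : ∀ (k : Fin n) (m : ℕ), f (yy x (k, false) * ze ^ m) = g (-x k + m * (Real.pi / 8)) :=
    fun k m => by rw [yy_ze_false]
  refine ⟨h0, h3, h4, h7, ?_, ?_, ?_⟩
  · rintro ⟨k, _ | _⟩
    · have y0 := hyf k 0
      have y1 := hyf k 1
      have y2 := hyf k 2
      rw [pow_zero, mul_one] at y0
      rw [pow_one] at y1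
      rw [y0, y1, y2]
      have e0 : -x k + ((0 : ℕ) : ℝ) * (Real.pi / 8) = -x k := by simp
      have e1 : -x k + ((1 : ℕ) : ℝ) * (Real.pi / 8) = -x k + Real.pi / 8 := by simp
      have e2 : -x k + ((2 : ℕ) : ℝ) * (Real.pi / 8) = -x k + 2 * Real.pi / 8 := by
        push_cast; ring
      rw [e0, e1, e2, x3, x2, x1, hinv, ← hfus]
      ring
    · have y0 := hyt k 0
      have y1 := hyt k 1
      have y2 := hyt k 2
      rw [pow_zero, mul_one] at y0
      rw [pow_one] at y1
      rw [y0, y1, y2]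
      have e0 : x k + ((0 : ℕ) : ℝ) * (Real.pi / 8) = x k := by simp
      have e1 : x k + ((1 : ℕ) : ℝ) * (Real.pi / 8) = x k + Real.pi / 8 := by simp
      have e2 : x k + ((2 : ℕ) : ℝ) * (Real.pi / 8) = x k + 2 * Real.pi / 8 := by
        push_cast; ring
      rw [e0, e1, e2, ← hfus]
      ring
  · rintro ⟨k, _ | _⟩
    · have y0 := hyf k 0
      have y3 := hyf k 3
      rw [pow_zero, mul_one] at y0
      rw [y0, y3]
      have e0 : -x k + ((0 : ℕ) : ℝ) * (Real.pi / 8) = -x k := by simp
      have e3 : -x k + ((3 : ℕ) : ℝ) * (Real.pi / 8) = -x k + 3 * Real.pi / 8 := by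
        push_cast; ring
      rw [e0, e3, x3, x0, hinv, neg_neg]
    · have y0 := hyt k 0
      have y3 := hyt k 3
      rw [pow_zero, mul_one] at y0
      rw [y0, y3]
      have e0 : x k + ((0 : ℕ) : ℝ) * (Real.pi / 8) = x k := by simp
      have e3 : x k + ((3 : ℕ) : ℝ) * (Real.pi / 8) = x k + 3 * Real.pi / 8 := by
        push_cast; ring
      rw [e0, e3, hinv]
  · have a1 := mid (v := 3 * Real.pi / 16) (by linarith) (by linarith)
    have e1 : ((3 * Real.pi / 16 : ℝ) : ℂ) = S.h := by rw [hh]; push_cast; ring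
    have h1 := hf _ a1
    rw [th_pow, show (((3 : ℕ) : ℝ) * (Real.pi / 16)) = 3 * Real.pi / 16 by push_cast; ring, h1, e1,
      H.b_h L ha.mi ha.mj ha.ij ha.ri ha.rj (by rw [← e1]; exact a1), two_mul]

end

end Pool.Agent.EXL
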