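import Pool.Agent.EXL.BFAll
import Pool.Agent.UNI.BFactsS

/-!
# All facts about `b` needed for the closing: rows with both signs of the rapidity
-/

open Filter Topology Polynomial Complex

namespace Pool.Agent.EXL.Fm

open Cl

variable {ι α : Type*} [DecidableEq ι] [DecidableEq α] {n : ℕ}

theorem fz_neg (x : ℝ) (w : ℂ) : fz (-(x : ℂ)) w = fz (x : ℂ) w := by
  have h : ep (-x) = (ep x)⁻¹ := by
    rw [ep, ep, ← exp_neg]; congr 1; push_cast; ring
  have h1 := fz_ep (-x) w
  rw [h, inv_inv, ofReal_neg] at h1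
  rw [h1, fz_ep]; ring

theorem dz_dx_s {x : Fin n → ℝ} {z : ι → ℂ} {rows : List ι} {row : Fin n → ι}
    (hrows : rows = (List.finRange n).map row)
    (hz : ∀ k, z (row k) = (x k : ℂ) ∨ z (row k) = -(x k : ℂ)) (w : ℂ) :
    dz z rows w = dx x w := by
  rw [dz, dx, exp_neg_3lam, exp_9lam, hrows, List.map_map, Fintype.prod_prod_type]
  congr 1
  rw [← Fin.prod_univ_def]
  refine Finset.prod_congr rfl fun k _ => ?_
  have h : fz (z (row k)) w = fz (x k : ℂ) w := by
    rcases hz k with h | h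
    · rw [h]
    · rw [h, fz_neg]
  rw [Function.comp_apply, h, fz_ep, Fintype.prod_bool]
  simp only [yy, if_true]
  rw [if_neg (by simp)]

theorem bf_all_s {x : Fin n → ℝ} (hx : Cl.Nd x) {L : LabMap ι α}
    (W : Glob.Laws (ops L) okR okC) {z : ι → ℂ} {rows : List ι} {a : Set ι}
    {row : Fin n → ι} (hrow : Function.Injective row) (hrows : rows = (List.finRange n).map row)
    (hz : ∀ k, z (row k) = (x k : ℂ) ∨ z (row k) = -(x k : ℂ)) {i j i' j' : ι} (ha : Aux4 a rows i j i' j')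
    {N : Submodule ℂ (Pat α → ℂ)} {F e : Pat α → ℂ} {b : ℂ → ℂ} {B : ℂ}
    (H : Glob.Half (ops L) okR okC z rows a N F e b B)
    (hF : F (Pat.cup L.flo L.cei Pat.empty) = 1)
    (hb : ∀ v, Glob.Adm (ops L) okR okC z rows v → b v = (ops L).T z i j v rows F Pat.empty) :
    ∃ (f : ℂ → ℂ) (ρ : ℂ), Cl.BF x f B ρ := by
  obtain ⟨P, h1, h2, h3, h4⟩ := form_ops (L := L) (z := z) ha.ij ha.ri ha.rj hF
  have hlen : rows.length = n := by rw [hrows]; simp
  rw [hlen] at h1 h2 h3
  rw [exp_neg_3lam] at h2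
  have hf : ∀ v : ℂ, Glob.Adm (ops L) okR okC z rows v → fr P x (exp (2 * I * v)) = b v := by
    intro v hv
    have h5 := dz_ne_of_adm hv
    have h6 := h4 v h5
    rw [← hb v hv, dz_dx_s hrows hz] at h6
    rw [dz_dx_s hrows hz] at h5
    rw [fr, ← h6]
    exact mul_div_cancel_right₀ _ (mul_ne_zero (exp_ne_zero _) h5)
  have cont : ∀ p, p ≠ (.inr true, 4) → p ≠ (.inr true, 6) → (∀ u, p ≠ (.inl u, 5)) →
      (∀ u, p ≠ (.inl u, 6)) → ContinuousAt (fr P x) (nd x p) := fun p q1 q2 q3 q4 =>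
    (fr_diff_nd hx P q1 q2 q3 q4).continuousAt
  have c0 : ContinuousAt (fr P x) 1 := by
    have := cont (.inr false, 0) (by simp) (by simp) (by simp) (by simp)
    simpa [nd, bs] using this
  have c3 : ContinuousAt (fr P x) (ze ^ 3) := by
    have := cont (.inr false, 3) (by simp) (by simp) (by simp) (by simp)
    simpa [nd, bs] using this
  have c4 : ContinuousAt (fr P x) (ze ^ 4) := by
    have := cont (.inr false, 4) (by simp) (by simp) (by simp) (by simp)
    simpa [nd, bs] using this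
  have c7 : ContinuousAt (fr P x) (ze ^ 7) := by
    have := cont (.inr false, 7) (by simp) (by simp) (by simp) (by simp)
    simpa [nd, bs] using this
  have pts := bpts_s hx W (ops_l) (ops_h) (ops_q) hrow hrows hz ha H
    (f := fr P x) (fun v hv => hf v hv) c0 c3 c4 c7
  -- crossing
  have hn : rows.Nodup := by
    rw [hrows]; exact (List.nodup_finRange n).map hrow
  have hh : (ops L).h = 3 * lam / 2 := by rw [ops_h, lam]; ring
  have ze3 : exp (2 * I * (3 * lam)) = ze ^ 3 := by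
    have := exp_lam 6
    push_cast at this
    rw [ze, ← pow_mul, ← this]; congr 1; ring
  have cross : ∀ᶠ w in 𝓝[≠] (th ^ 9), fr P x (ze ^ 3 / w) = fr P x w := by
    filter_upwards [ev_adm (L := L) (z := z) rows (th ^ 9) (pow_ne_zero _ th_ne_zero),
      ev_ne (th ^ 9) 0] with w hw hw0
    obtain ⟨y, hy⟩ : ∃ y, exp y = w := ⟨Complex.log w, exp_log hw0⟩
    have hv : exp (2 * I * (y / (2 * I))) = w := by
      rw [mul_div_cancel₀ _ (mul_ne_zero two_ne_zero I_ne_zero), hy]
    obtain ⟨A1, A2, A3⟩ := hw _ hv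
    have e1 := hf _ A1
    have e2 := hf _ A2
    rw [H.b_cross W hn ha.mi ha.mj ha.ij ha.ri ha.rj A1 A2 A3, ← e1, hv] at e2
    rw [← e2]
    congr 1
    rw [hh, ← ze3, ← hv, ← exp_sub]; congr 1; ring
  obtain ⟨ρ, h9⟩ := fr_r9 hx P
  have t9 : (th ^ 9 : ℂ) ≠ 0 := pow_ne_zero _ th_ne_zero
  have t13 : (th ^ 13 : ℂ) ≠ 0 := pow_ne_zero _ th_ne_zero
  have z3 : (ze ^ 3 : ℂ) ≠ 0 := pow_ne_zero _ ze_ne_zero
  have z1 : (ze : ℂ) ≠ 0 := ze_ne_zero
  have t1 : (th : ℂ) ≠ 0 := th_ne_zero
  have ht : ze ^ 3 / th ^ 13 = th ^ 9 := by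
    rw [div_eq_iff t13, ze]
    linear_combination (-th ^ 6) * th_16
  have h13 : HR (fr P x) (th ^ 13) (-ρ) := by
    -- the map `y ↦ ze^3 / y`
    have hm : Tendsto (fun y : ℂ => ze ^ 3 / y) (𝓝[≠] (th ^ 13)) (𝓝[≠] (th ^ 9)) := by
      refine tendsto_nhdsWithin_iff.mpr ⟨?_, ?_⟩
      · have hc : ContinuousAt (fun y : ℂ => ze ^ 3 / y) (th ^ 13) :=
          ContinuousAt.div (by fun_prop) (by fun_prop) t13
        have := hc.tendsto
        rw [ht] at this
        exact this.mono_left nhdsWithin_le_nhds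
      · filter_upwards [self_mem_nhdsWithin, ev_ne (th ^ 13) 0] with y hy hy0 he
        apply hy
        have he' : ze ^ 3 / y = th ^ 9 := he
        rw [← ht, div_eq_div_iff hy0 t13] at he'
        exact (mul_left_cancel₀ z3 he').symm
    have k1 := (Tendsto.comp h9 hm)
    have k2 : Tendsto (fun y : ℂ => -(y / th ^ 13)) (𝓝[≠] (th ^ 13)) (𝓝 (-1)) := by
      have hc : ContinuousAt (fun y : ℂ => -(y / th ^ 13)) (th ^ 13) := by fun_prop
      have := hc.tendsto
      rw [div_self t13] at this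
      exact this.mono_left nhdsWithin_le_nhds
    have k3 := k2.mul k1
    rw [neg_one_mul] at k3
    refine k3.congr' ?_
    filter_upwards [hm.eventually cross, ev_ne (th ^ 13) 0] with y hy hy0
    simp only [Function.comp]
    have e3 : ze ^ 3 / (ze ^ 3 / y) = y := by field_simp
    rw [e3] at hy
    rw [← hy]
    have e4 : ze ^ 3 / y / th ^ 9 = th ^ 13 / y := by
      rw [← ht]; field_simp
    rw [e4]
    have : -(y / th ^ 13) * (th ^ 13 / y - 1) = y / th ^ 13 - 1 := by
      field_simp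
      ring
    rw [← mul_assoc, this]
  -- constant coefficient
  have d0 : dx x 0 = exp (I * (6 * lam)) * exp (I * (12 * lam)) ^ n := by
    have e5 : ∀ y : ℂ, fz y 0 = exp (I * (12 * lam)) := by
      intro y
      have : exp (2 * I * (y - 2 * lam)) * exp (2 * I * (y - 3 * lam)) *
          exp (2 * I * (5 * lam - y)) * exp (2 * I * (6 * lam - y)) = exp (I * (12 * lam)) := by
        rw [← exp_add, ← exp_add, ← exp_add]; congr 1; ring
      rw [fz, ← this]; ring
    have e6 : exp (-(I * (3 * lam))) * exp (I * (9 * lam)) = exp (I * (6 * lam)) := by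
      rw [← exp_add]; congr 1; ring
    rw [← dz_dx_s (rows := rows) (row := row) hrows hz, dz, ← hlen, ← e6]
    simp only [e5, List.map_const', List.prod_replicate]
    ring
  have d0' : dx x 0 ≠ 0 := by
    rw [d0]; exact mul_ne_zero (exp_ne_zero _) (pow_ne_zero _ (exp_ne_zero _))
  have lz := fr_zero (x := x) P d0'
  have hval : P.coeff 0 / dx x 0 = 2 * th ^ 3 := by
    have e7 : exp (I * (9 * lam)) = th ^ 3 * exp (I * (6 * lam)) := by
      rw [← exp_lam 3, ← exp_add]; congr 1; push_cast; ring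
    rw [div_eq_iff d0', h3, d0, e7]; ring
  have hinf : (2 : ℂ) * th ^ 13 = 2 * (th ^ 3)⁻¹ := by
    have : th ^ 13 * th ^ 3 = 1 := by rw [← pow_add]; exact th_16
    rw [eq_inv_of_mul_eq_one_left this]
  have li := fr_inf (x := x) P h1
  rw [h2, hinf] at li
  rw [hval] at lz
  exact ⟨fr P x, ρ, {
    diff := fun w w0 w5 w6 w9 w13 => fr_diff P w0 w13 w9 w5 w6
    p5 := fr_p5 hx P
    p6 := fr_p6 hx P
    r9 := h9
    r13 := h13
    z0 := pts.z0
    z3 := pts.z3
    z4 := pts.z4
    z7 := pts.z7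
    inf := li
    zero := lz
    fus := pts.fus
    opp := pts.opp
    bt := pts.bt }⟩

end Pool.Agent.EXL.Fm
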