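import Pool.Agent.EXL.Net0
import Pool.Agent.EXL.Site

/-!
# UNIV: the network of faces with four sides (common definitions)

A face is a point `v` of `ℤ × ℤ`; its sides are `0 = E`, `1 = N`, `2 = W`, `3 = S`, the half edge at
the side `a` is `(v, vec a)`.  Labels, contractions, ends: as in `EXL/Net0.lean`.
-/

set_option autoImplicit false

namespace Pool.Agent.UNI

open Pool.Agent.EXL Pool.Agent.EXL.Net HexObs HexObs.LP Pat

variable {K : Type*} [CommRing K]

/-- the unit vectors E, N, W, S. -/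
def vec : Fin 4 → Pt := ![(1, 0), (0, 1), (-1, 0), (0, -1)]

/-- the half edge of the face `v` at the side `a`. -/
abbrev hs (v : Pt) (a : Fin 4) : Lab := hf (v, vec a)

/-- Local weights of a face: no arc, one arc, two arcs (`d1`: `{E,N}, {W,S}`; `d2`: `{N,W}, {S,E}`). -/
structure Cell (K : Type*) where
  e : K
  s01 : K
  s02 : K
  s03 : K
  s12 : K
  s13 : K
  s23 : K
  d1 : K
  d2 : K

/-- the operator of the face `v`. -/
def Cel (c : Cell K) (v : Pt) : Op Lab K :=
  c.e • 1 + (c.s01 • cupO (hs v 0) (hs v 1) + c.s02 • cupO (hs v 0) (hs v 2) +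
    c.s03 • cupO (hs v 0) (hs v 3) + c.s12 • cupO (hs v 1) (hs v 2) +
    c.s13 • cupO (hs v 1) (hs v 3) + c.s23 • cupO (hs v 2) (hs v 3)) +
    (c.d1 • (cupO (hs v 0) (hs v 1) * cupO (hs v 2) (hs v 3)) +
     c.d2 • (cupO (hs v 1) (hs v 2) * cupO (hs v 3) (hs v 0)))

/-- the face with the rhombus weights `w` (row = horizontal line, column = vertical line). -/
def ofWt (w : Wt K) : Cell K := ⟨1, w.u1, w.v, w.u2, w.u2, w.v, w.u1, w.w1, w.w2⟩

/-- the edges of the faces in `Ω`. -/
noncomputable def edg4 (Ω : Finset Pt) : Finset (Sym2 Lab) := by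
  classical
  exact (Ω ×ˢ (Finset.univ : Finset (Fin 4))).image (fun h => ed (h.1, vec h.2))

theorem mem_edg4 {Ω : Finset Pt} {e : Sym2 Lab} :
    e ∈ edg4 Ω ↔ ∃ v ∈ Ω, ∃ a : Fin 4, ed (v, vec a) = e := by
  classical
  unfold edg4
  simp only [Finset.mem_image, Finset.mem_product, Finset.mem_univ, and_true]
  constructor
  · rintro ⟨h, h1, h2⟩
    exact ⟨h.1, h1, h.2, h2⟩
  · rintro ⟨v, h1, a, h2⟩
    exact ⟨(v, a), h1, h2⟩

theorem edg4_ed {Ω : Finset Pt} : ∀ e ∈ edg4 Ω, ∃ h, e = ed h := by
  intro e he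
  obtain ⟨v, -, a, h⟩ := mem_edg4.1 he
  exact ⟨(v, vec a), h.symm⟩

theorem vec_inj {a b : Fin 4} : vec a = vec b ↔ a = b := by
  revert a b
  decide

theorem hs_ne {v w : Pt} (h : v ≠ w) (a b : Fin 4) : hs v a ≠ hs w b := by
  intro e
  exact h (congrArg Prod.fst (Sum.inl_injective e))

/-- operators of different faces commute. -/
theorem Cel_comm {c d : Cell K} {v w : Pt} (h : v ≠ w) :
    Commute (Cel c v : Op Lab K) (Cel d w) := by
  have k1 : ∀ a b i j : Fin 4, Commute (cupO (hs v a) (hs v b) : Op Lab K)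
      (cupO (hs w i) (hs w j)) := fun a b i j =>
    cupO_comm (hs_ne h _ _) (hs_ne h _ _) (hs_ne h _ _) (hs_ne h _ _)
  have k2 : ∀ (X : Op Lab K), (∀ a b : Fin 4, Commute X (cupO (hs w a) (hs w b) : Op Lab K)) →
      Commute X (Cel d w) := by
    intro X hX
    unfold Cel
    refine ((Commute.one_right _).smul_right _).add_right ?_ |>.add_right ?_
    · exact (((((((hX _ _).smul_right _).add_right ((hX _ _).smul_right _)).add_right
        ((hX _ _).smul_right _)).add_right ((hX _ _).smul_right _)).add_right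
        ((hX _ _).smul_right _)).add_right ((hX _ _).smul_right _))
    · exact ((((hX _ _).mul_right (hX _ _)).smul_right _).add_right
        (((hX _ _).mul_right (hX _ _)).smul_right _))
  refine (k2 _ fun a b => ?_)
  unfold Cel
  have hX : ∀ i j : Fin 4, Commute (cupO (hs v i) (hs v j) : Op Lab K) (cupO (hs w a) (hs w b)) :=
    fun i j => k1 i j a b
  refine ((Commute.one_left _).smul_left _).add_left ?_ |>.add_left ?_
  · exact (((((((hX _ _).smul_left _).add_left ((hX _ _).smul_left _)).add_left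
      ((hX _ _).smul_left _)).add_left ((hX _ _).smul_left _)).add_left
      ((hX _ _).smul_left _)).add_left ((hX _ _).smul_left _))
  · exact ((((hX _ _).mul_left (hX _ _)).smul_left _).add_left
      (((hX _ _).mul_left (hX _ _)).smul_left _))

/-- all faces of `Ω`. -/
noncomputable def CEL (σ : Pt → Cell K) (Ω : Finset Pt) : Op Lab K :=
  Ω.noncommProd (fun v => Cel (σ v) v) (fun _ _ _ _ h => Cel_comm h)

/-- the network: faces in `Ω`, floor end at the outside half edges `Bt`, top end at the outside half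
edges `Tp`, all edges of `Ω` contracted. -/
noncomputable def Net4 (σ : Pt → Cell K) (Ω : Finset Pt) (Bt Tp : Finset (Pt × Pt)) : Op Lab K :=
  CEL σ Ω * EN K false Bt * EN K true Tp * CO K (edg4 Ω) edg4_ed

/-- the grid with `m` columns and `N` rows. -/
def grid (N m : ℕ) : Finset Pt :=
  ((Finset.range m) ×ˢ (Finset.range N)).image (fun h => ((h.1 : ℤ), (h.2 : ℤ)))

/-- the outside half edges at the floor. -/
def feet4 (m : ℕ) : Finset (Pt × Pt) :=
  (Finset.range m).image (fun j : ℕ => (((j : ℤ), -1), ((0, 1) : Pt)))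

/-- the outside half edges at the top. -/
def tops4 (N m : ℕ) : Finset (Pt × Pt) :=
  (Finset.range m).image (fun j : ℕ => (((j : ℤ), (N : ℤ)), ((0, -1) : Pt)))

end Pool.Agent.UNI
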