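import Pool.Agent.EXL.Rhomb
import Pool.Agent.UNI.Net4

/-!
# One face with four sides = one rhombus, renamed (local identity)
-/

set_option autoImplicit false

namespace Pool.Agent.UNI

open Pool.Agent.EXL Pool.Agent.EXL.Net HexObs HexObs.LP Pat

variable {α β K : Type*} [DecidableEq α] [DecidableEq β] [CommRing K]

/-- The face with the sides `a` (E), `b` (N), `c` (W), `d` (S). -/
def CelF (w : Wt K) (a b c d : α) (F : Pat α → K) : Pat α → K := fun p =>
  F p + (w.u1 * cuF a b F p + w.v * cuF a c F p + w.u2 * cuF a d F p + w.u2 * cuF b c F p +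
    w.v * cuF b d F p + w.u1 * cuF c d F p) +
    (w.w1 * cuF a b (cuF c d F) p + w.w2 * cuF b c (cuF d a F) p)

theorem Cel_eq (w : Wt K) (v : Pt) (F : Pat Lab → K) :
    Cel (ofWt w) v F = CelF w (hs v 0) (hs v 1) (hs v 2) (hs v 3) F := by
  funext p
  have h : ∀ (i j : Lab) (G : Pat Lab → K), (cupO i j : Op Lab K) G = cuF i j G := by
    intro i j G
    funext p
    rw [cupO_apply]
    rfl
  simp only [Cel, ofWt, CelF, LinearMap.add_apply, Module.End.one_apply, LinearMap.smul_apply,
    Pi.add_apply, Pi.smul_apply, Module.End.mul_apply, h, smul_eq_mul, one_mul]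

theorem CelF_st (E : Pat.Emb β α) (F : Pat α → K) (q : Pat β) (w : Wt K) (a b c d : β) :
    CelF w (E.φ a) (E.φ b) (E.φ c) (E.φ d) F (E.st q) = CelF w a b c d (fun q => F (E.st q)) q := by
  simp only [CelF, cuF_st]

/-! ### Formal sums with six coefficients -/

/-- the six coefficients. -/
def cf (w : Wt K) : Fin 6 → K := ![1, w.v, w.u1, w.u2, w.w1, w.w2]

/-- evaluation of a formal sum. -/
def fe (w : Wt K) (F : Pat β → K) (l : List (Fin 6 × Pat β)) : K :=
  (l.map (fun a => cf w a.1 * F a.2)).sum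

/-- `b` describes the operator `B` without coefficients. -/
def Rq (b : Pat β → Option (Pat β)) (B : (Pat β → K) → (Pat β → K)) : Prop :=
  ∀ F p, B F p = ((b p).map F).getD 0

/-- composition. -/
def fc (l : List (Fin 6 × Pat β)) (b : Pat β → Option (Pat β)) : List (Fin 6 × Pat β) :=
  l.filterMap (fun u => (b u.2).map (fun q => (u.1, q)))

omit [DecidableEq β] in
theorem fe_fc (w : Wt K) {b : Pat β → Option (Pat β)} {B : (Pat β → K) → (Pat β → K)}
    (hb : Rq b B) (F : Pat β → K) (l : List (Fin 6 × Pat β)) : fe w (B F) l = fe w F (fc l b) := by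
  induction l with
  | nil => rfl
  | cons u l ih =>
    unfold fe at ih ⊢
    rw [List.map_cons, List.sum_cons, ih, hb F u.2]
    unfold fc
    cases h : b u.2 with
    | none =>
      rw [List.filterMap_cons_none (by rw [h]; rfl)]
      simp
    | some q =>
      rw [List.filterMap_cons_some (b := (u.1, q)) (by rw [h]; rfl)]
      simp

omit [DecidableEq β] in
theorem fe_perm (w : Wt K) (F : Pat β → K) {l l' : List (Fin 6 × Pat β)} (h : l.Perm l') :
    fe w F l = fe w F l' := (h.map _).sum_eq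

/-- creation of one arc. -/
def c1 (k : Fin 6) (i j : β) (p : Pat β) : List (Fin 6 × Pat β) :=
  if p i = i ∧ p j = j then [(k, cup i j p)] else []

/-- creation of two arcs. -/
def c2 (k : Fin 6) (i j r s : β) (p : Pat β) : List (Fin 6 × Pat β) :=
  if p i = i ∧ p j = j then c1 k r s (cup i j p) else []

def fCel (a b c d : β) (p : Pat β) : List (Fin 6 × Pat β) :=
  (0, p) :: (c1 2 a b p ++ (c1 1 a c p ++ (c1 3 a d p ++ (c1 3 b c p ++ (c1 1 b d p ++
    (c1 2 c d p ++ (c2 4 a b c d p ++ c2 5 b c d a p)))))))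

def gGl (i j : β) (p : Pat β) : Option (Pat β) :=
  if p i = i then (if p j = j then some p else none)
  else if p j = j then none
  else if p i = j then none
  else some (cut i j p)

def gRen (r n : β) (p : Pat β) : Option (Pat β) := if p n = n then some (swap r n p) else none

def fR (i j : β) (p : Pat β) : List (Fin 6 × Pat β) :=
  if p i = i then
    if p j = j then [(0, p), (3, cup i j p)] else [(1, p), (2, swap i j p)]
  else if p j = j then [(1, p), (2, swap i j p)]
  else if p i = j then [(4, p)]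
  else [(4, swap i j p), (3, cut i j p), (5, cup i j (cut i j p))]

theorem rep_c1 (w : Wt K) (k : Fin 6) (i j : β) (F : Pat β → K) (p : Pat β) :
    fe w F (c1 k i j p) = cf w k * cuF i j F p := by
  unfold fe c1 cuF
  split_ifs <;> simp

theorem rep_c2 (w : Wt K) (k : Fin 6) (i j r s : β) (F : Pat β → K) (p : Pat β) :
    fe w F (c2 k i j r s p) = cf w k * cuF i j (cuF r s F) p := by
  unfold c2
  by_cases c : p i = i ∧ p j = j
  · rw [if_pos c, rep_c1]
    simp only [cuF, if_pos c]
  · rw [if_neg c]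
    simp only [cuF, if_neg c, mul_zero]
    rfl

omit [DecidableEq β] in
theorem fe_append (w : Wt K) (F : Pat β → K) (l l' : List (Fin 6 × Pat β)) :
    fe w F (l ++ l') = fe w F l + fe w F l' := by
  unfold fe
  rw [List.map_append, List.sum_append]

omit [DecidableEq β] in
theorem fe_cons (w : Wt K) (F : Pat β → K) (u : Fin 6 × Pat β) (l : List (Fin 6 × Pat β)) :
    fe w F (u :: l) = cf w u.1 * F u.2 + fe w F l := by
  unfold fe
  rw [List.map_cons, List.sum_cons]

theorem rep_Cel (w : Wt K) (a b c d : β) (F : Pat β → K) (p : Pat β) :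
    CelF w a b c d F p = fe w F (fCel a b c d p) := by
  unfold fCel CelF
  rw [fe_cons]
  simp only [fe_append, rep_c1, rep_c2]
  simp only [cf, Matrix.cons_val]
  ring

theorem rep_Gl6 (i j : β) : Rq (K := K) (gGl i j) (glue i j) := by
  intro F p
  simp only [glue, gGl]
  split_ifs <;> simp

theorem rep_Ren6 (r n : β) : Rq (K := K) (gRen r n) (ren r n) := by
  intro F p
  simp only [ren, gRen]
  split_ifs <;> simp

theorem rep_R6 (w : Wt K) (i j : β) (F : Pat β → K) (p : Pat β) :
    R w i j F p = fe w F (fR i j p) := by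
  simp only [R, fR, fe]
  split_ifs <;> simp [cf] <;> ring

/-! ### Test states: sites p, r, E, N, W, S (+ partners) -/

def q6 : Pat (Fin 6) := Pat.empty
def q6j : Pat (Fin 6) := ⟨![1, 0, 2, 3, 4, 5], by decide⟩
def q7p : Pat (Fin 7) := ⟨![6, 1, 2, 3, 4, 5, 0], by decide⟩
def q7r : Pat (Fin 7) := ⟨![0, 6, 2, 3, 4, 5, 1], by decide⟩
def q8 : Pat (Fin 8) := ⟨![6, 7, 2, 3, 4, 5, 0, 1], by decide⟩

theorem cel_6 (w : Wt K) (F : Pat (Fin 6) → K) :
    CelF w 2 3 4 5 (glue 0 5 (glue 1 2 F)) q6 = R w 0 1 (ren 1 4 (ren 0 3 F)) q6 := by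
  rw [rep_Cel, rep_R6, fe_fc w (rep_Gl6 0 5), fe_fc w (rep_Gl6 1 2), fe_fc w (rep_Ren6 1 4),
    fe_fc w (rep_Ren6 0 3)]
  exact fe_perm w F (by decide +kernel)

theorem cel_6j (w : Wt K) (F : Pat (Fin 6) → K) :
    CelF w 2 3 4 5 (glue 0 5 (glue 1 2 F)) q6j = R w 0 1 (ren 1 4 (ren 0 3 F)) q6j := by
  rw [rep_Cel, rep_R6, fe_fc w (rep_Gl6 0 5), fe_fc w (rep_Gl6 1 2), fe_fc w (rep_Ren6 1 4),
    fe_fc w (rep_Ren6 0 3)]
  exact fe_perm w F (by decide +kernel)

theorem cel_7p (w : Wt K) (F : Pat (Fin 7) → K) :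
    CelF w 2 3 4 5 (glue 0 5 (glue 1 2 F)) q7p = R w 0 1 (ren 1 4 (ren 0 3 F)) q7p := by
  rw [rep_Cel, rep_R6, fe_fc w (rep_Gl6 0 5), fe_fc w (rep_Gl6 1 2), fe_fc w (rep_Ren6 1 4),
    fe_fc w (rep_Ren6 0 3)]
  exact fe_perm w F (by decide +kernel)

theorem cel_7r (w : Wt K) (F : Pat (Fin 7) → K) :
    CelF w 2 3 4 5 (glue 0 5 (glue 1 2 F)) q7r = R w 0 1 (ren 1 4 (ren 0 3 F)) q7r := by
  rw [rep_Cel, rep_R6, fe_fc w (rep_Gl6 0 5), fe_fc w (rep_Gl6 1 2), fe_fc w (rep_Ren6 1 4),
    fe_fc w (rep_Ren6 0 3)]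
  exact fe_perm w F (by decide +kernel)

theorem cel_8 (w : Wt K) (F : Pat (Fin 8) → K) :
    CelF w 2 3 4 5 (glue 0 5 (glue 1 2 F)) q8 = R w 0 1 (ren 1 4 (ren 0 3 F)) q8 := by
  rw [rep_Cel, rep_R6, fe_fc w (rep_Gl6 0 5), fe_fc w (rep_Gl6 1 2), fe_fc w (rep_Ren6 1 4),
    fe_fc w (rep_Ren6 0 3)]
  exact fe_perm w F (by decide +kernel)

theorem cel_gen (w : Wt K) {p r a b c d : α}
    (h01 : p ≠ r) (h02 : p ≠ a) (h03 : p ≠ b) (h04 : p ≠ c) (h05 : p ≠ d) (h12 : r ≠ a)
    (h13 : r ≠ b) (h14 : r ≠ c) (h15 : r ≠ d) (h23 : a ≠ b) (h24 : a ≠ c) (h25 : a ≠ d)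
    (h34 : b ≠ c) (h35 : b ≠ d) (h45 : c ≠ d)
    (F : Pat α → K) {q : Pat α} (qa : q a = a) (qb : q b = b) (qc : q c = c) (qd : q d = d) :
    CelF w a b c d (glue p d (glue r a F)) q = R w p r (ren r c (ren p b F)) q := by
  have i0 : q (q p) = p := q.inv p
  have i1 : q (q r) = r := q.inv r
  by_cases c0 : q p = p
  · by_cases c1 : q r = r
    · have hφ : Function.Injective ![p, r, a, b, c, d] := by
        intro i j; fin_cases i <;> fin_cases j <;> simp <;> grind
      have hc : ∀ z, q (![p, r, a, b, c, d] z) = ![p, r, a, b, c, d] (q6 z) := by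
        intro z; fin_cases z
        · exact c0
        · exact c1
        · exact qa
        · exact qb
        · exact qc
        · exact qd
      have key := cel_6 w (fun q1 => F ((temb _ hφ q q6 hc).st q1))
      have hst := temb_st _ hφ q q6 hc
      set M := temb _ hφ q q6 hc
      have k1 : CelF w (M.φ 2) (M.φ 3) (M.φ 4) (M.φ 5) (glue (M.φ 0) (M.φ 5) (glue (M.φ 1) (M.φ 2) F)) (M.st q6) =
          R w (M.φ 0) (M.φ 1) (ren (M.φ 1) (M.φ 4) (ren (M.φ 0) (M.φ 3) F)) (M.st q6) := by
        rw [CelF_st, R_st]; simp only [glue_st, ren_st]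
        exact key
      rw [hst] at k1
      exact k1
    · have hφ : Function.Injective ![p, r, a, b, c, d, q r] := by
        intro i j; fin_cases i <;> fin_cases j <;> simp <;> grind
      have hc : ∀ z, q (![p, r, a, b, c, d, q r] z) = ![p, r, a, b, c, d, q r] (q7r z) := by
        intro z; fin_cases z
        · exact c0
        · exact rfl
        · exact qa
        · exact qb
        · exact qc
        · exact qd
        · exact i1
      have key := cel_7r w (fun q1 => F ((temb _ hφ q q7r hc).st q1))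
      have hst := temb_st _ hφ q q7r hc
      set M := temb _ hφ q q7r hc
      have k1 : CelF w (M.φ 2) (M.φ 3) (M.φ 4) (M.φ 5) (glue (M.φ 0) (M.φ 5) (glue (M.φ 1) (M.φ 2) F)) (M.st q7r) =
          R w (M.φ 0) (M.φ 1) (ren (M.φ 1) (M.φ 4) (ren (M.φ 0) (M.φ 3) F)) (M.st q7r) := by
        rw [CelF_st, R_st]; simp only [glue_st, ren_st]
        exact key
      rw [hst] at k1
      exact k1
  · by_cases c1 : q r = r
    · have hφ : Function.Injective ![p, r, a, b, c, d, q p] := by
        intro i j; fin_cases i <;> fin_cases j <;> simp <;> grind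
      have hc : ∀ z, q (![p, r, a, b, c, d, q p] z) = ![p, r, a, b, c, d, q p] (q7p z) := by
        intro z; fin_cases z
        · exact rfl
        · exact c1
        · exact qa
        · exact qb
        · exact qc
        · exact qd
        · exact i0
      have key := cel_7p w (fun q1 => F ((temb _ hφ q q7p hc).st q1))
      have hst := temb_st _ hφ q q7p hc
      set M := temb _ hφ q q7p hc
      have k1 : CelF w (M.φ 2) (M.φ 3) (M.φ 4) (M.φ 5) (glue (M.φ 0) (M.φ 5) (glue (M.φ 1) (M.φ 2) F)) (M.st q7p) =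
          R w (M.φ 0) (M.φ 1) (ren (M.φ 1) (M.φ 4) (ren (M.φ 0) (M.φ 3) F)) (M.st q7p) := by
        rw [CelF_st, R_st]; simp only [glue_st, ren_st]
        exact key
      rw [hst] at k1
      exact k1
    · by_cases c2 : q p = r
      · have hφ : Function.Injective ![p, r, a, b, c, d] := by
          intro i j; fin_cases i <;> fin_cases j <;> simp <;> grind
        have hc : ∀ z, q (![p, r, a, b, c, d] z) = ![p, r, a, b, c, d] (q6j z) := by
          intro z; fin_cases z
          · exact c2
          · exact (by rw [← c2]; exact i0)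
          · exact qa
          · exact qb
          · exact qc
          · exact qd
        have key := cel_6j w (fun q1 => F ((temb _ hφ q q6j hc).st q1))
        have hst := temb_st _ hφ q q6j hc
        set M := temb _ hφ q q6j hc
        have k1 : CelF w (M.φ 2) (M.φ 3) (M.φ 4) (M.φ 5) (glue (M.φ 0) (M.φ 5) (glue (M.φ 1) (M.φ 2) F)) (M.st q6j) =
            R w (M.φ 0) (M.φ 1) (ren (M.φ 1) (M.φ 4) (ren (M.φ 0) (M.φ 3) F)) (M.st q6j) := by
          rw [CelF_st, R_st]; simp only [glue_st, ren_st]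
          exact key
        rw [hst] at k1
        exact k1
      · have hφ : Function.Injective ![p, r, a, b, c, d, q p, q r] := by
          intro i j; fin_cases i <;> fin_cases j <;> simp <;> grind
        have hc : ∀ z, q (![p, r, a, b, c, d, q p, q r] z) = ![p, r, a, b, c, d, q p, q r] (q8 z) := by
          intro z; fin_cases z
          · exact rfl
          · exact rfl
          · exact qa
          · exact qb
          · exact qc
          · exact qd
          · exact i0
          · exact i1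
        have key := cel_8 w (fun q1 => F ((temb _ hφ q q8 hc).st q1))
        have hst := temb_st _ hφ q q8 hc
        set M := temb _ hφ q q8 hc
        have k1 : CelF w (M.φ 2) (M.φ 3) (M.φ 4) (M.φ 5) (glue (M.φ 0) (M.φ 5) (glue (M.φ 1) (M.φ 2) F)) (M.st q8) =
            R w (M.φ 0) (M.φ 1) (ren (M.φ 1) (M.φ 4) (ren (M.φ 0) (M.φ 3) F)) (M.st q8) := by
          rw [CelF_st, R_st]; simp only [glue_st, ren_st]
          exact key
        rw [hst] at k1
        exact k1

end Pool.Agent.UNI
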