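import Pool.Agent.UNI.Net4
import Pool.Agent.EXL.Net1

/-!
# UNIV, M1: residual cells, one step of the exploration
-/

set_option autoImplicit false

namespace Pool.Agent.UNI

open Pool.Agent.EXL Pool.Agent.EXL.Net HexObs HexObs.LP Pat

variable {K : Type*} [CommRing K]

attribute [ext] Cell

theorem fin4 (a : Fin 4) : a = 0 ∨ a = 1 ∨ a = 2 ∨ a = 3 := by
  revert a; decide

instance : Zero (Cell K) := ⟨⟨0, 0, 0, 0, 0, 0, 0, 0, 0⟩⟩

namespace Cell

theorem zero_def : (0 : Cell K) = ⟨0, 0, 0, 0, 0, 0, 0, 0, 0⟩ := rfl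

/-- weight of the single arc `a b`. -/
def s (c : Cell K) (a b : Fin 4) : K :=
  match a, b with
  | 0, 1 => c.s01
  | 1, 0 => c.s01
  | 0, 2 => c.s02
  | 2, 0 => c.s02
  | 0, 3 => c.s03
  | 3, 0 => c.s03
  | 1, 2 => c.s12
  | 2, 1 => c.s12
  | 1, 3 => c.s13
  | 3, 1 => c.s13
  | 2, 3 => c.s23
  | 3, 2 => c.s23
  | _, _ => 0

/-- the face after a first passage from `a` to `b`. -/
def res (c : Cell K) (a b : Fin 4) : Cell K :=
  match a, b with
  | 0, 1 => ⟨c.s01, 0, 0, 0, 0, 0, c.d1, 0, 0⟩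
  | 1, 0 => ⟨c.s01, 0, 0, 0, 0, 0, c.d1, 0, 0⟩
  | 2, 3 => ⟨c.s23, c.d1, 0, 0, 0, 0, 0, 0, 0⟩
  | 3, 2 => ⟨c.s23, c.d1, 0, 0, 0, 0, 0, 0, 0⟩
  | 1, 2 => ⟨c.s12, 0, 0, c.d2, 0, 0, 0, 0, 0⟩
  | 2, 1 => ⟨c.s12, 0, 0, c.d2, 0, 0, 0, 0, 0⟩
  | 0, 3 => ⟨c.s03, 0, 0, 0, c.d2, 0, 0, 0, 0⟩
  | 3, 0 => ⟨c.s03, 0, 0, 0, c.d2, 0, 0, 0, 0⟩
  | 0, 2 => ⟨c.s02, 0, 0, 0, 0, 0, 0, 0, 0⟩
  | 2, 0 => ⟨c.s02, 0, 0, 0, 0, 0, 0, 0, 0⟩
  | 1, 3 => ⟨c.s13, 0, 0, 0, 0, 0, 0, 0, 0⟩
  | 3, 1 => ⟨c.s13, 0, 0, 0, 0, 0, 0, 0, 0⟩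
  | _, _ => ⟨0, 0, 0, 0, 0, 0, 0, 0, 0⟩

/-- the side `a` is not used by any arc of the cell. -/
def Off (c : Cell K) (a : Fin 4) : Prop := (∀ b, c.s a b = 0) ∧ c.d1 = 0 ∧ c.d2 = 0

/-- the number of passages that are still possible. -/
def Cap (c : Cell K) : ℕ → Prop
  | 0 => (∀ a b, c.s a b = 0) ∧ c.d1 = 0 ∧ c.d2 = 0
  | 1 => c.d1 = 0 ∧ c.d2 = 0
  | _ => True

theorem cap_two (c : Cell K) : c.Cap 2 := trivial

variable {c : Cell K}

theorem res_self (a : Fin 4) : c.res a a = 0 := by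
  fin_cases a <;> rfl

theorem res_of_off {a b : Fin 4} (h : c.Off b) : c.res a b = 0 := by
  obtain ⟨h1, h2, h3⟩ := h
  have h0 := h1 a
  rcases fin4 a with rfl | rfl | rfl | rfl <;> rcases fin4 b with rfl | rfl | rfl | rfl <;> ext <;>
    first | rfl | exact h0 | exact h2 | exact h3

theorem zero_res (a b : Fin 4) : (0 : Cell K).res a b = 0 := by
  fin_cases a <;> fin_cases b <;> rfl

theorem res_cap_zero (h : c.Cap 0) (a b : Fin 4) : c.res a b = 0 := by
  obtain ⟨h1, h2, h3⟩ := h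
  exact res_of_off ⟨fun x => h1 b x, h2, h3⟩

theorem res_cap {n : ℕ} (h : c.Cap (n + 1)) (a b : Fin 4) : (c.res a b).Cap n := by
  rcases n with _ | _ | n
  · obtain ⟨h2, h3⟩ := h
    refine ⟨fun x y => ?_, ?_, ?_⟩
    · fin_cases a <;> fin_cases b <;> fin_cases x <;> fin_cases y <;>
        first | rfl | exact h2 | exact h3
    · fin_cases a <;> fin_cases b <;> rfl
    · fin_cases a <;> fin_cases b <;> rfl
  · refine ⟨?_, ?_⟩
    · fin_cases a <;> fin_cases b <;> rfl
    · fin_cases a <;> fin_cases b <;> rfl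
  · trivial

theorem res_off_right (a b : Fin 4) : (c.res a b).Off b := by
  refine ⟨fun x => ?_, ?_, ?_⟩
  · fin_cases a <;> fin_cases b <;> fin_cases x <;> rfl
  · fin_cases a <;> fin_cases b <;> rfl
  · fin_cases a <;> fin_cases b <;> rfl

theorem res_off_left (a b : Fin 4) : (c.res a b).Off a := by
  refine ⟨fun x => ?_, ?_, ?_⟩
  · fin_cases a <;> fin_cases b <;> fin_cases x <;> rfl
  · fin_cases a <;> fin_cases b <;> rfl
  · fin_cases a <;> fin_cases b <;> rfl

theorem off_res {x : Fin 4} (h : c.Off x) (a b : Fin 4) : (c.res a b).Off x := by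
  obtain ⟨h1, h2, h3⟩ := h
  refine ⟨fun y => ?_, ?_, ?_⟩
  · fin_cases a <;> fin_cases b <;> fin_cases x <;> fin_cases y <;>
      first | rfl | exact h2 | exact h3
  · fin_cases a <;> fin_cases b <;> rfl
  · fin_cases a <;> fin_cases b <;> rfl

theorem zero_e : (0 : Cell K).e = 0 := rfl

end Cell

theorem Cel_zero (v : Pt) : (Cel (0 : Cell K) v : Op Lab K) = 0 := by
  unfold Cel
  simp [Cell.zero_def]

/-! ### sides -/

theorem vec_opp (a : Fin 4) : vec (a + 2) = -vec a := by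
  revert a; decide

theorem vec_ne_zero (a : Fin 4) : vec a ≠ 0 := by
  revert a; decide

theorem vec_ne_neg (a : Fin 4) : vec a ≠ -vec a := by
  revert a; decide

theorem rv_vec (v : Pt) (a : Fin 4) : rv (v, vec a) = (v + vec a, vec (a + 2)) := by
  rw [vec_opp]; rfl

theorem add_vec_ne (v : Pt) (a : Fin 4) : v + vec a ≠ v := by
  intro h
  exact vec_ne_zero a (by simpa using h)

theorem hs_ne' {v : Pt} {a b : Fin 4} (h : a ≠ b) : (v, vec a) ≠ (v, vec b) := by
  intro e
  exact h (vec_inj.1 (congrArg Prod.snd e))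

theorem ne_rv_vec (v : Pt) (a : Fin 4) : (v, vec a) ≠ rv (v, vec a) := by
  intro e
  exact vec_ne_neg a (congrArg Prod.snd e)

/-! ### one step -/

section step

variable {c : Cell K} {v : Pt} {p : Pt × Pt}

theorem step_Cel (hp : ∀ b, (v, vec b) ≠ p) (a : Fin 4) (G : Pat Lab → K) :
    (Cel c v (Co (hf p) (hs v a) G)) (st p) = ∑ b, (Cel (c.res a b) v G) (st (v, vec b)) := by
  have e1 : ∀ b, a ≠ b → cupO (hs v a) (hs v b) (Co (hf p) (hs v a) G) (st p) = G (st (v, vec b)) :=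
    fun b hb => Co_cup (hp a) (hp b) (hs_ne' hb) G
  have e1' : ∀ b, a ≠ b → cupO (hs v b) (hs v a) (Co (hf p) (hs v a) G) (st p) = G (st (v, vec b)) :=
    fun b hb => by rw [cupO_symm]; exact e1 b hb
  have e0 : ∀ b d, a ≠ b → a ≠ d → cupO (hs v b) (hs v d) (Co (hf p) (hs v a) G) (st p) = 0 :=
    fun b d hb hd => Co_cup' (hp a) (hp b) (hp d) (hs_ne' hb) (hs_ne' hd) G
  have ez : Co (hf p) (hs v a) G (st p) = 0 := Co_st (hp a) G
  have lne : ∀ {x y : Fin 4}, x ≠ y → hs v x ≠ hs v y := fun h e => hs_ne' h (Sum.inl_injective e)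
  have pne : ∀ x : Fin 4, hs v x ≠ hf p := fun x e => hp x (Sum.inl_injective e)
  have e2 : ∀ b x y, a ≠ b → a ≠ x → a ≠ y → b ≠ x → b ≠ y → x ≠ y →
      cupO (hs v x) (hs v y) (cupO (hs v a) (hs v b) (Co (hf p) (hs v a) G)) (st p) =
        cupO (hs v x) (hs v y) G (st (v, vec b)) := by
    intro b x y hab hax hay hbx hby hxy
    have c1 : Commute (cupO (hs v x) (hs v y) : Op Lab K) (cupO (hs v a) (hs v b)) :=
      cupO_comm (lne hax.symm) (lne hbx.symm) (lne hay.symm) (lne hby.symm)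
    have c2 : Commute (cupO (hs v x) (hs v y) : Op Lab K) (Co (hf p) (hs v a)) :=
      cupO_Co_comm (pne x) (lne hax.symm) (pne y) (lne hay.symm)
    have h1 : (cupO (hs v x) (hs v y) * (cupO (hs v a) (hs v b) * Co (hf p) (hs v a)) : Op Lab K) =
        cupO (hs v a) (hs v b) * (Co (hf p) (hs v a) * cupO (hs v x) (hs v y)) := by
      rw [← mul_assoc, c1.eq, mul_assoc, c2.eq]
    have h2 := congrFun (congrArg (fun X : Op Lab K => X G) h1) (st p)
    simp only [Module.End.mul_apply] at h2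
    rw [h2]
    exact Co_cup (hp a) (hp b) (hs_ne' hab) _
  have sy : ∀ x y : Fin 4, ∀ H : Pat Lab → K, cupO (hs v x) (hs v y) H = cupO (hs v y) (hs v x) H :=
    fun x y H => by rw [cupO_symm]
  have cc : ∀ x y z w : Fin 4, x ≠ z → x ≠ w → y ≠ z → y ≠ w → ∀ H : Pat Lab → K,
      cupO (hs v x) (hs v y) (cupO (hs v z) (hs v w) H) =
        cupO (hs v z) (hs v w) (cupO (hs v x) (hs v y) H) := by
    intro x y z w h1 h2 h3 h4 H
    have c1 : Commute (cupO (hs v x) (hs v y) : Op Lab K) (cupO (hs v z) (hs v w)) :=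
      cupO_comm (lne h1) (lne h2) (lne h3) (lne h4)
    exact congrArg (fun X : Op Lab K => X H) c1.eq
  rw [Fin.sum_univ_four]
  unfold Cel
  rcases fin4 a with rfl | rfl | rfl | rfl
  · have f1 := e2 1 2 3 (by decide) (by decide) (by decide) (by decide) (by decide) (by decide)
    have f2 := e2 3 1 2 (by decide) (by decide) (by decide) (by decide) (by decide) (by decide)
    rw [cc 2 3 0 1 (by decide) (by decide) (by decide) (by decide)] at f1
    rw [sy 0 3] at f2
    simp only [LinearMap.add_apply, Module.End.one_apply, LinearMap.smul_apply, Pi.add_apply,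
      Pi.smul_apply, Module.End.mul_apply, smul_eq_mul, Cell.res]
    rw [ez, e1 1 (by decide), e1 2 (by decide), e1 3 (by decide), e0 1 2 (by decide) (by decide),
      e0 1 3 (by decide) (by decide), e0 2 3 (by decide) (by decide), f1, f2]
    simp
    ring
  · have f1 := e2 0 2 3 (by decide) (by decide) (by decide) (by decide) (by decide) (by decide)
    have f2 := e2 2 3 0 (by decide) (by decide) (by decide) (by decide) (by decide) (by decide)
    rw [cc 2 3 1 0 (by decide) (by decide) (by decide) (by decide), sy 1 0] at f1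
    rw [cc 3 0 1 2 (by decide) (by decide) (by decide) (by decide)] at f2
    simp only [LinearMap.add_apply, Module.End.one_apply, LinearMap.smul_apply, Pi.add_apply,
      Pi.smul_apply, Module.End.mul_apply, smul_eq_mul, Cell.res]
    rw [ez, e1' 0 (by decide), e1 2 (by decide), e1 3 (by decide), e0 0 2 (by decide) (by decide),
      e0 0 3 (by decide) (by decide), e0 2 3 (by decide) (by decide), f1, f2, sy 3 0]
    simp
    ring
  · have f1 := e2 3 0 1 (by decide) (by decide) (by decide) (by decide) (by decide) (by decide)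
    have f2 := e2 1 3 0 (by decide) (by decide) (by decide) (by decide) (by decide) (by decide)
    rw [cc 3 0 2 1 (by decide) (by decide) (by decide) (by decide), sy 2 1] at f2
    simp only [LinearMap.add_apply, Module.End.one_apply, LinearMap.smul_apply, Pi.add_apply,
      Pi.smul_apply, Module.End.mul_apply, smul_eq_mul, Cell.res]
    rw [ez, e1' 0 (by decide), e1' 1 (by decide), e1 3 (by decide), e0 0 1 (by decide) (by decide),
      e0 0 3 (by decide) (by decide), e0 1 3 (by decide) (by decide), f1, f2, sy 3 0]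
    simp
    ring
  · have f1 := e2 2 0 1 (by decide) (by decide) (by decide) (by decide) (by decide) (by decide)
    have f2 := e2 0 1 2 (by decide) (by decide) (by decide) (by decide) (by decide) (by decide)
    rw [sy 3 2] at f1
    simp only [LinearMap.add_apply, Module.End.one_apply, LinearMap.smul_apply, Pi.add_apply,
      Pi.smul_apply, Module.End.mul_apply, smul_eq_mul, Cell.res]
    rw [ez, e1' 0 (by decide), e1' 1 (by decide), e1' 2 (by decide), e0 0 1 (by decide) (by decide),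
      e0 0 2 (by decide) (by decide), e0 1 2 (by decide) (by decide), f1, f2]
    simp
    ring

end step

end Pool.Agent.UNI
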