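import Pool.Agent.EXL.NetTot0
import Pool.Agent.UNI.Cel

/-!
# UNIV: the column operator with row dependent weights = the face network in column order
-/

set_option autoImplicit false

namespace Pool.Agent.UNI

open Pool.Agent.EXL Pool.Agent.EXL.Net HexObs HexObs.LP Pat

variable {K : Type*} [CommRing K]

/-! ### Labels of the face in the column `k` and the row `i` -/

/-- the side E. -/
def fE (k i : ℤ) : Lab := hf ((k, i), (1, 0))
/-- the side N. -/
def fN (k i : ℤ) : Lab := hf ((k, i), (0, 1))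
/-- the side W. -/
def fW (k i : ℤ) : Lab := hf ((k, i), (-1, 0))
/-- the side S. -/
def fS (k i : ℤ) : Lab := hf ((k, i), (0, -1))
/-- labels that are not half edges. -/
def fX (l : ℕ) : Lab := hf ((0, 0), ((l : ℤ) + 5, 0))

theorem hs_0 (k i : ℤ) : hs (k, i) 0 = fE k i := rfl
theorem hs_1 (k i : ℤ) : hs (k, i) 1 = fN k i := rfl
theorem hs_2 (k i : ℤ) : hs (k, i) 2 = fW k i := rfl
theorem hs_3 (k i : ℤ) : hs (k, i) 3 = fS k i := rfl

/-- the face (column k, row i). -/
noncomputable def Rho4 (w : ℤ → Wt K) (k i : ℤ) : Op Lab K :=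
  Cel (ofWt (w i)) (k, i) * (Co (fN k (i - 1)) (fS k i) * Co (fW (k + 1) i) (fE k i))

/-- column k: floor end, faces from the bottom to the top, top end. -/
noncomputable def colOp4 (w : ℤ → Wt K) (N : ℕ) (k : ℤ) : Op Lab K :=
  En be (fN k (-1)) * ((List.finRange N).map (fun i : Fin N => Rho4 w k ((i : ℕ) : ℤ))).prod *
    (En ta (fS k N) * Co (fN k ((N : ℤ) - 1)) (fS k N))

/-- the edges at the left side. -/
noncomputable def leftOp4 (K : Type*) [CommRing K] (N : ℕ) : Op Lab K :=
  ((List.finRange N).map (fun i : Fin N => (Co (fW 0 ((i : ℕ) : ℤ)) (fE (-1) ((i : ℕ) : ℤ)) : Op Lab K))).prod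

/-- the network of m columns in column order, the column m - 1 first. -/
noncomputable def tot4 (w : ℤ → Wt K) (N : ℕ) : ℕ → Op Lab K
  | 0 => leftOp4 K N
  | m + 1 => colOp4 w N m * tot4 w N m

/-! ### Simp lemmas for the labels -/

@[simp] theorem fE_inj {k i k' i' : ℤ} : fE k i = fE k' i' ↔ k = k' ∧ i = i' := by
  simp [fE]

@[simp] theorem fN_inj {k i k' i' : ℤ} : fN k i = fN k' i' ↔ k = k' ∧ i = i' := by
  simp [fN]

@[simp] theorem fW_inj {k i k' i' : ℤ} : fW k i = fW k' i' ↔ k = k' ∧ i = i' := by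
  simp [fW]

@[simp] theorem fS_inj {k i k' i' : ℤ} : fS k i = fS k' i' ↔ k = k' ∧ i = i' := by
  simp [fS]

@[simp] theorem fE_ne_fN {k i k' i' : ℤ} : (fE k i = fN k' i') = False := by
  simp [fE, fN]

@[simp] theorem fE_ne_fW {k i k' i' : ℤ} : (fE k i = fW k' i') = False := by
  simp [fE, fW]

@[simp] theorem fE_ne_fS {k i k' i' : ℤ} : (fE k i = fS k' i') = False := by
  simp [fE, fS]

@[simp] theorem fE_ne_fX {k i : ℤ} {l : ℕ} : (fE k i = fX l) = False := by
  simp only [fE, fX, Sum.inl.injEq, Prod.mk.injEq, eq_iff_iff, iff_false]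
  omega

@[simp] theorem fX_ne_fE {k i : ℤ} {l : ℕ} : (fX l = fE k i) = False := by
  simp only [fE, fX, Sum.inl.injEq, Prod.mk.injEq, eq_iff_iff, iff_false]
  omega

@[simp] theorem fE_ne_be {k i : ℤ} : (fE k i = be) = False := by simp [fE]

@[simp] theorem be_ne_fE {k i : ℤ} : (be = fE k i) = False := by simp [fE]

@[simp] theorem fE_ne_ta {k i : ℤ} : (fE k i = ta) = False := by simp [fE]

@[simp] theorem ta_ne_fE {k i : ℤ} : (ta = fE k i) = False := by simp [fE]

@[simp] theorem fN_ne_fE {k i k' i' : ℤ} : (fN k i = fE k' i') = False := by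
  simp [fN, fE]

@[simp] theorem fN_ne_fW {k i k' i' : ℤ} : (fN k i = fW k' i') = False := by
  simp [fN, fW]

@[simp] theorem fN_ne_fS {k i k' i' : ℤ} : (fN k i = fS k' i') = False := by
  simp [fN, fS]

@[simp] theorem fN_ne_fX {k i : ℤ} {l : ℕ} : (fN k i = fX l) = False := by
  simp only [fN, fX, Sum.inl.injEq, Prod.mk.injEq, eq_iff_iff, iff_false]
  omega

@[simp] theorem fX_ne_fN {k i : ℤ} {l : ℕ} : (fX l = fN k i) = False := by
  simp only [fN, fX, Sum.inl.injEq, Prod.mk.injEq, eq_iff_iff, iff_false]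
  omega

@[simp] theorem fN_ne_be {k i : ℤ} : (fN k i = be) = False := by simp [fN]

@[simp] theorem be_ne_fN {k i : ℤ} : (be = fN k i) = False := by simp [fN]

@[simp] theorem fN_ne_ta {k i : ℤ} : (fN k i = ta) = False := by simp [fN]

@[simp] theorem ta_ne_fN {k i : ℤ} : (ta = fN k i) = False := by simp [fN]

@[simp] theorem fW_ne_fE {k i k' i' : ℤ} : (fW k i = fE k' i') = False := by
  simp [fW, fE]

@[simp] theorem fW_ne_fN {k i k' i' : ℤ} : (fW k i = fN k' i') = False := by
  simp [fW, fN]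

@[simp] theorem fW_ne_fS {k i k' i' : ℤ} : (fW k i = fS k' i') = False := by
  simp [fW, fS]

@[simp] theorem fW_ne_fX {k i : ℤ} {l : ℕ} : (fW k i = fX l) = False := by
  simp only [fW, fX, Sum.inl.injEq, Prod.mk.injEq, eq_iff_iff, iff_false]
  omega

@[simp] theorem fX_ne_fW {k i : ℤ} {l : ℕ} : (fX l = fW k i) = False := by
  simp only [fW, fX, Sum.inl.injEq, Prod.mk.injEq, eq_iff_iff, iff_false]
  omega

@[simp] theorem fW_ne_be {k i : ℤ} : (fW k i = be) = False := by simp [fW]

@[simp] theorem be_ne_fW {k i : ℤ} : (be = fW k i) = False := by simp [fW]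

@[simp] theorem fW_ne_ta {k i : ℤ} : (fW k i = ta) = False := by simp [fW]

@[simp] theorem ta_ne_fW {k i : ℤ} : (ta = fW k i) = False := by simp [fW]

@[simp] theorem fS_ne_fE {k i k' i' : ℤ} : (fS k i = fE k' i') = False := by
  simp [fS, fE]

@[simp] theorem fS_ne_fN {k i k' i' : ℤ} : (fS k i = fN k' i') = False := by
  simp [fS, fN]

@[simp] theorem fS_ne_fW {k i k' i' : ℤ} : (fS k i = fW k' i') = False := by
  simp [fS, fW]

@[simp] theorem fS_ne_fX {k i : ℤ} {l : ℕ} : (fS k i = fX l) = False := by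
  simp only [fS, fX, Sum.inl.injEq, Prod.mk.injEq, eq_iff_iff, iff_false]
  omega

@[simp] theorem fX_ne_fS {k i : ℤ} {l : ℕ} : (fX l = fS k i) = False := by
  simp only [fS, fX, Sum.inl.injEq, Prod.mk.injEq, eq_iff_iff, iff_false]
  omega

@[simp] theorem fS_ne_be {k i : ℤ} : (fS k i = be) = False := by simp [fS]

@[simp] theorem be_ne_fS {k i : ℤ} : (be = fS k i) = False := by simp [fS]

@[simp] theorem fS_ne_ta {k i : ℤ} : (fS k i = ta) = False := by simp [fS]

@[simp] theorem ta_ne_fS {k i : ℤ} : (ta = fS k i) = False := by simp [fS]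

@[simp] theorem fX_ne_be {l : ℕ} : (fX l = be) = False := by simp [fX]

@[simp] theorem be_ne_fX {l : ℕ} : (be = fX l) = False := by simp [fX]

@[simp] theorem fX_ne_ta {l : ℕ} : (fX l = ta) = False := by simp [fX]

@[simp] theorem ta_ne_fX {l : ℕ} : (ta = fX l) = False := by simp [fX]

@[simp] theorem fX_inj {l l' : ℕ} : fX l = fX l' ↔ l = l' := by
  simp only [fX, Sum.inl.injEq, Prod.mk.injEq, and_true, true_and]
  omega

/-! ### The front map -/

/-- The front map: the rows below j have been processed in the column k. -/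
def kap4 (N : ℕ) (k : ℤ) (j : ℕ) : Site N → Lab
  | Site.fl => be
  | Site.tp => ta
  | Site.row i => if (i : ℕ) < j then fW k ((i : ℕ) : ℤ) else fW (k + 1) ((i : ℕ) : ℤ)
  | Site.ax l => if l = 0 then fN k ((j : ℤ) - 1) else fX l

theorem kap4_inj (N : ℕ) (k : ℤ) (j : ℕ) : Function.Injective (kap4 N k j) := by
  intro a b h
  cases a with
  | fl =>
    cases b with
    | fl => rfl
    | tp => simp [kap4] at h
    | row i => simp only [kap4] at h; split_ifs at h <;> simp at h
    | ax l => simp only [kap4] at h; split_ifs at h <;> simp at h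
  | tp =>
    cases b with
    | fl => simp [kap4] at h
    | tp => rfl
    | row i => simp only [kap4] at h; split_ifs at h <;> simp at h
    | ax l => simp only [kap4] at h; split_ifs at h <;> simp at h
  | row i =>
    cases b with
    | fl => simp only [kap4] at h; split_ifs at h <;> simp at h
    | tp => simp only [kap4] at h; split_ifs at h <;> simp at h
    | row i' =>
      have : (i : ℕ) = (i' : ℕ) := by
        simp only [kap4] at h
        split_ifs at h <;> simp only [fW_inj] at h <;> omega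
      rw [Fin.ext this]
    | ax l => simp only [kap4] at h; split_ifs at h <;> simp at h
  | ax l =>
    cases b with
    | fl => simp only [kap4] at h; split_ifs at h <;> simp at h
    | tp => simp only [kap4] at h; split_ifs at h <;> simp at h
    | row i' => simp only [kap4] at h; split_ifs at h <;> simp at h
    | ax l' =>
      have : l = l' := by
        simp only [kap4] at h
        split_ifs at h with h1 h2 h2
        · rw [h1, h2]
        · simp at h
        · simp at h
        · rw [fX_inj] at h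
          exact Fin.ext h
      rw [this]

/-- The lift of a pattern. -/
noncomputable def L4 (N : ℕ) (k : ℤ) (j : ℕ) (q : Pat (Site N)) : Pat Lab := lft (kap4 N k j) (kap4_inj N k j) q

/-- the labels that are not in the range of the front map are empty. -/
theorem L4_empty {N : ℕ} {k : ℤ} {j : ℕ} (q : Pat (Site N)) {x : Lab} (h : ∀ b, kap4 N k j b ≠ x) :
    L4 N k j q x = x := lft_of_notMem _ _ _ (fun ⟨b, hb⟩ => h b hb)

theorem kap4_ax0 (N : ℕ) (k : ℤ) (j : ℕ) : kap4 N k j (Site.ax 0) = fN k ((j : ℤ) - 1) := rfl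

theorem kap4_row_lt {N : ℕ} {k : ℤ} {j : ℕ} {i : Fin N} (h : (i : ℕ) < j) :
    kap4 N k j (Site.row i) = fW k ((i : ℕ) : ℤ) := by
  simp only [kap4, if_pos h]

theorem kap4_row_ge {N : ℕ} {k : ℤ} {j : ℕ} {i : Fin N} (h : ¬ (i : ℕ) < j) :
    kap4 N k j (Site.row i) = fW (k + 1) ((i : ℕ) : ℤ) := by
  simp only [kap4, if_neg h]

theorem rho_lft4 (w : ℤ → Wt K) {N : ℕ} (k : ℤ) (i : Fin N) (G : Pat Lab → K) (q : Pat (Site N)) :
    Rho4 w k ((i : ℕ) : ℤ) G (L4 N k i q) =
      R (w ((i : ℕ) : ℤ)) (Site.ax 0) (Site.row i) (fun q => G (L4 N k ((i : ℕ) + 1) q)) q := by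
  set j : ℕ := (i : ℕ) with hj
  have f1 : ∀ q : Pat (Site N), L4 N k j q (fS k j) = fS k j := fun q => L4_empty q (by
    intro b; cases b <;> simp only [kap4] <;> (try split_ifs) <;> simp)
  have f2 : ∀ q : Pat (Site N), L4 N k j q (fW k j) = fW k j := fun q => L4_empty q (by
    intro b; cases b <;> simp only [kap4] <;> (try split_ifs) <;> simp <;> omega)
  have f5 : ∀ q : Pat (Site N), L4 N k j q (fE k j) = fE k j := fun q => L4_empty q (by
    intro b; cases b <;> simp only [kap4] <;> (try split_ifs) <;> simp)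
  have f6 : ∀ q : Pat (Site N), L4 N k j q (fN k j) = fN k j := fun q => L4_empty q (by
    intro b; cases b <;> simp only [kap4] <;> (try split_ifs) <;> simp)
  have h1 := cel_gen (w j) (p := fN k ((j : ℤ) - 1)) (r := fW (k + 1) j) (a := fE k j) (b := fN k j)
    (c := fW k j) (d := fS k j) (by simp) (by simp) (by simp) (by simp) (by simp) (by simp) (by simp)
    (by simp) (by simp) (by simp) (by simp) (by simp) (by simp) (by simp) (by simp) G
    (q := L4 N k j q) (f5 q) (f6 q) (f2 q) (f1 q)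
  have h2 : Rho4 w k (j : ℤ) G (L4 N k j q) = CelF (w j) (fE k j) (fN k j) (fW k j) (fS k j)
      (glue (fN k ((j : ℤ) - 1)) (fS k j) (glue (fW (k + 1) j) (fE k j) G)) (L4 N k j q) := by
    unfold Rho4
    rw [Module.End.mul_apply, Module.End.mul_apply, Cel_eq, Co_eq, Co_eq]
    rfl
  rw [h2, h1]
  have e1 : fN k ((j : ℤ) - 1) = kap4 N k j (Site.ax 0) := rfl
  have e2 : fW (k + 1) (j : ℤ) = kap4 N k j (Site.row i) := (kap4_row_ge (lt_irrefl _)).symm
  have h3 : R (w j) (fN k ((j : ℤ) - 1)) (fW (k + 1) j)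
      (ren (fW (k + 1) j) (fW k j) (ren (fN k ((j : ℤ) - 1)) (fN k j) G)) (L4 N k j q) =
      R (w j) (Site.ax 0) (Site.row i) (fun q =>
        ren (fW (k + 1) j) (fW k j) (ren (fN k ((j : ℤ) - 1)) (fN k j) G) (L4 N k j q)) q := by
    have := R_lft (w j) (kap4 N k j) (kap4_inj N k j) (Site.ax 0) (Site.row i)
      (ren (fW (k + 1) j) (fW k j) (ren (fN k ((j : ℤ) - 1)) (fN k j) G)) q
    rw [← e1, ← e2] at this
    exact this
  rw [h3]
  congr 1
  funext q
  unfold ren
  rw [if_pos (f2 q)]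
  unfold L4
  rw [swap_lft, swap_lft]
  have hκ : (fun b => Equiv.swap (fN k ((j : ℤ) - 1)) (fN k j)
      (Equiv.swap (fW (k + 1) j) (fW k j) (kap4 N k j b))) = kap4 N k (j + 1) := by
    funext b
    simp only [Equiv.swap_apply_def]
    cases b with
    | fl => simp [kap4]
    | tp => simp [kap4]
    | row i' =>
      by_cases c1 : (i' : ℕ) < j
      · rw [kap4_row_lt c1, kap4_row_lt (by omega)]
        have c3 : ¬ (((i' : ℕ) : ℤ) = (j : ℤ)) := by omega
        simp [c3]
      · by_cases c2 : (i' : ℕ) = j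
        · rw [kap4_row_ge c1, kap4_row_lt (by omega), c2]
          simp
        · rw [kap4_row_ge c1, kap4_row_ge (by omega)]
          have c3 : ¬ (((i' : ℕ) : ℤ) = (j : ℤ)) := by omega
          simp [c3]
    | ax l =>
      by_cases c : l = 0
      · subst c
        simp [kap4]
      · simp [kap4, c]
  have n1 : lft (kap4 N k j) (kap4_inj N k j) q (fN k j) = fN k j := f6 q
  rw [if_pos]
  · congr 1
    exact lft_congr _ _ (fun b _ => congrFun hκ b)
  · rw [lft_of_notMem]
    rintro ⟨b, hb⟩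
    have : kap4 N k j b = fN k j := by
      simp only [Equiv.swap_apply_def] at hb
      split_ifs at hb with c1 c2
      · simp at hb
      · simp at hb
      · exact hb
    revert this
    revert b
    intro b; cases b <;> simp only [kap4] <;> (try split_ifs) <;> simp

theorem rows_lft4 (w : ℤ → Wt K) {N : ℕ} (k : ℤ) (G : Pat Lab → K) : ∀ (n j : ℕ), j + n = N →
    ∀ q : Pat (Site N),
    (((List.finRange N).drop j).map (fun i : Fin N => Rho4 w k ((i : ℕ) : ℤ))).prod G (L4 N k j q) =
      ((List.finRange N).drop j).foldr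
        (fun (i : Fin N) F => R (w ((i : ℕ) : ℤ)) (Site.ax 0) (Site.row i) F) (fun q => G (L4 N k N q)) q
  | 0, j, h, q => by
    have : (List.finRange N).drop j = [] := by
      apply List.drop_eq_nil_of_le
      rw [List.length_finRange]
      omega
    rw [this]
    have : j = N := by omega
    subst this
    rfl
  | n + 1, j, h, q => by
    have hj : j < N := by omega
    have h1 : (List.finRange N).drop j = ⟨j, hj⟩ :: (List.finRange N).drop (j + 1) := by
      rw [List.drop_eq_getElem_cons (by rw [List.length_finRange]; exact hj)]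
      simp
    rw [h1, List.map_cons, List.prod_cons, List.foldr_cons, Module.End.mul_apply]
    have h2 := rho_lft4 w k ⟨j, hj⟩
      ((((List.finRange N).drop (j + 1)).map (fun i : Fin N => Rho4 w k ((i : ℕ) : ℤ))).prod G) q
    rw [h2]
    congr 1
    funext q'
    exact rows_lft4 w k G n (j + 1) (by omega) q'

theorem col_lft4 (w : ℤ → Wt K) {N : ℕ} (k : ℤ) (G : Pat Lab → K) (q : Pat (Site N))
    (hq : q (Site.ax 0) = Site.ax 0) :
    colOp4 w N k G (L4 N k 0 q) =
      colW (fun i : Fin N => w ((i : ℕ) : ℤ)) (fun q => G (L4 N (k - 1) 0 q)) q := by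
  unfold colOp4
  simp only [Module.End.mul_apply]
  have h0 : L4 N k 0 q (fN k (-1)) = fN k (-1) := by
    have e : fN k (-1) = kap4 N k 0 (Site.ax 0) := by rw [kap4_ax0]; rfl
    rw [e]
    unfold L4
    rw [lft_apply, hq]
  rw [floor_gen _ h0]
  have e1 : fN k (-1) = kap4 N k 0 (Site.ax 0) := by rw [kap4_ax0]; rfl
  have e2 : be = kap4 N k 0 Site.fl := rfl
  rw [e1, e2]
  unfold L4
  rw [bc_lft]
  unfold colW
  congr 1
  funext q1
  have h1 := rows_lft4 w k ((En ta (fS k N)) ((Co (fN k ((N : ℤ) - 1)) (fS k N)) G)) N 0 (by omega) q1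
  rw [List.drop_zero] at h1
  unfold L4 at h1
  rw [h1]
  apply congrFun
  apply foldr_congr_fun
  funext q2
  have h2 : L4 N k N q2 (fS k N) = fS k N := L4_empty q2 (by
    intro b; cases b <;> simp only [kap4] <;> (try split_ifs) <;> simp)
  have h3 := toe_gen (s := fN k ((N : ℤ) - 1)) (t := ta) (h := fS k N) (by simp) (by simp) (by simp) G h2
  rw [Module.End.mul_apply] at h3
  unfold L4 at h3
  rw [h3]
  have e3 : fN k ((N : ℤ) - 1) = kap4 N k N (Site.ax 0) := rfl
  have e4 : ta = kap4 N k N Site.tp := rfl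
  rw [e3, e4, tc_lft]
  apply congrFun
  apply tc_congr
  intro q3 hq3
  congr 1
  apply lft_congr
  intro b hb
  cases b with
  | fl => rfl
  | tp => rfl
  | row i =>
    rw [kap4_row_lt i.2, kap4_row_ge (by omega), sub_add_cancel]
  | ax l =>
    by_cases c : l = 0
    · subst c
      exact absurd hq3 hb
    · simp [kap4, c]

theorem left_dlt4 {N : ℕ} (l : List (Fin N)) (p : Pat Lab)
    (hp : ∀ i : Fin N, p (fE (-1) ((i : ℕ) : ℤ)) = fE (-1) ((i : ℕ) : ℤ)) :
    (l.map (fun i : Fin N => (Co (fW 0 ((i : ℕ) : ℤ)) (fE (-1) ((i : ℕ) : ℤ)) : Op Lab K))).prod (dlt K) p =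
      dlt K p := by
  induction l with
  | nil => rfl
  | cons i l ih =>
    rw [List.map_cons, List.prod_cons, Module.End.mul_apply, Co_apply]
    by_cases c : p (fW 0 ((i : ℕ) : ℤ)) = fW 0 ((i : ℕ) : ℤ)
    · rw [if_pos ⟨c, hp i⟩, ih]
    · rw [if_neg (fun h => c h.1), if_pos (Or.inr (Or.inl (hp i)))]
      unfold dlt
      rw [if_neg]
      intro h
      apply c
      rw [h]
      unfold full cup
      simp [Pat.empty]

theorem full_lft4 {N : ℕ} (k : ℤ) (j : ℕ) : full = L4 N k j (fullS N) := by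
  unfold fullS L4
  have e1 : be = kap4 N k j Site.fl := rfl
  have e2 : ta = kap4 N k j Site.tp := rfl
  rw [← cup_lft, ← e1, ← e2]
  unfold full
  congr 1
  ext x : 2
  by_cases hx : ∃ b, kap4 N k j b = x
  · obtain ⟨b, rfl⟩ := hx
    rw [lft_apply]
    rfl
  · rw [lft_of_notMem _ _ _ hx]
    rfl

theorem dlt_lft4 {N : ℕ} (k : ℤ) (j : ℕ) (q : Pat (Site N)) :
    dlt K (L4 N k j q) = ind (fullS N) q := by
  unfold dlt ind
  rw [full_lft4 k j]
  have : L4 N k j q = L4 N k j (fullS N) ↔ q = fullS N := (lft_injective _ _).eq_iff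
  by_cases c : q = fullS N
  · rw [if_pos (this.2 c), if_pos c]
  · rw [if_neg (fun h => c (this.1 h)), if_neg c]

theorem tot_lft4 (w : ℤ → Wt K) {N : ℕ} (m : ℕ) : ∀ q : Pat (Site N), q (Site.ax 0) = Site.ax 0 →
    tot4 w N m (dlt K) (L4 N ((m : ℤ) - 1) 0 q) =
      ((colW (fun i : Fin N => w ((i : ℕ) : ℤ)))^[m] (ind (fullS N))) q := by
  induction m with
  | zero =>
    intro q hq
    show leftOp4 K N (dlt K) _ = ind (fullS N) q
    unfold leftOp4
    rw [left_dlt4, dlt_lft4]
    intro i
    exact L4_empty q (by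
      intro b; cases b <;> simp only [kap4] <;> (try split_ifs) <;> simp)
  | succ m ih =>
    intro q hq
    rw [Function.iterate_succ_apply']
    have e : ((m + 1 : ℕ) : ℤ) - 1 = m := by push_cast; ring
    rw [e]
    show (colOp4 w N m * tot4 w N m) (dlt K) _ = _
    rw [Module.End.mul_apply, col_lft4 w m _ q hq]
    apply congrFun
    apply colW_congr
    intro q' hq'
    exact ih q' hq'

/-- the network in column order. -/
theorem tot_empty4 (w : ℤ → Wt K) (N m : ℕ) :
    tot4 w N m (dlt K) Pat.empty =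
      ((colW (fun i : Fin N => w ((i : ℕ) : ℤ)))^[m] (ind (fullS N))) Pat.empty := by
  rw [← tot_lft4 w m Pat.empty rfl]
  apply congrArg
  ext y : 2
  unfold L4
  by_cases hx : ∃ b, kap4 N ((m : ℤ) - 1) 0 b = y
  · obtain ⟨b, rfl⟩ := hx
    rw [lft_apply]
    rfl
  · rw [lft_of_notMem _ _ _ hx]
    rfl

end Pool.Agent.UNI
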