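import Pool.Agent.UNI.Cells

/-!
# UNIV, M1: the network of faces in the order of the exploration
-/

set_option autoImplicit false

namespace Pool.Agent.UNI

open Pool.Agent.EXL Pool.Agent.EXL.Net HexObs HexObs.LP Pat

variable {K : Type*} [CommRing K]

/-! ### the two invariant classes of functions -/

/-- F vanishes at the states, different from the full state, in which the two ends are joined. -/
def Vn (F : Pat Lab → K) : Prop := ∀ q : Pat Lab, q be = ta → q ≠ full → F q = 0

theorem vn_dlt : Vn (dlt K) := good_dlt.2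

theorem vn_cupO {F : Pat Lab → K} (hF : Vn F) (h k : Pt × Pt) (hk : h ≠ k) {q : Pat Lab}
    (hq : q be = ta) : cupO (hf h) (hf k) F q = 0 := by
  rw [cupO_apply]
  split_ifs with c
  · apply hF
    · simp only [cup]
      grind
    · intro e
      have e1 : (cup (hf h) (hf k) q) (hf h) = hf k := by
        simp only [cup]
        grind
      rw [e, full_hf] at e1
      exact hk (Sum.inl_injective e1)
  · rfl

theorem vn_cupO2 {F : Pat Lab → K} (hF : Vn F) (h k h' k' : Pt × Pt) (hk' : h' ≠ k') {q : Pat Lab}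
    (hq : q be = ta) : cupO (hf h) (hf k) (cupO (hf h') (hf k') F) q = 0 := by
  rw [cupO_apply]
  split_ifs with c
  · apply vn_cupO hF _ _ hk'
    simp only [cup]
    grind
  · rfl

theorem Cel_joined (c : Cell K) (v : Pt) {F : Pat Lab → K} (hF : Vn F) {q : Pat Lab}
    (hq : q be = ta) : Cel c v F q = c.e * F q := by
  have h1 : ∀ a b : Fin 4, a ≠ b → cupO (hs v a) (hs v b) F q = 0 :=
    fun a b h => vn_cupO hF _ _ (hs_ne' h) hq
  have h2 : ∀ a b x y : Fin 4, x ≠ y → cupO (hs v a) (hs v b) (cupO (hs v x) (hs v y) F) q = 0 :=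
    fun a b x y h => vn_cupO2 hF _ _ _ _ (hs_ne' h) hq
  unfold Cel
  simp only [LinearMap.add_apply, Module.End.one_apply, LinearMap.smul_apply, Pi.add_apply,
    Pi.smul_apply, Module.End.mul_apply, smul_eq_mul]
  rw [h1 0 1 (by decide), h1 0 2 (by decide), h1 0 3 (by decide), h1 1 2 (by decide),
    h1 1 3 (by decide), h1 2 3 (by decide), h2 0 1 2 3 (by decide), h2 1 2 3 0 (by decide)]
  ring

theorem vn_Cel (c : Cell K) (v : Pt) {F : Pat Lab → K} (hF : Vn F) : Vn (Cel c v F) := by
  intro q h1 h2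
  rw [Cel_joined c v hF h1, hF q h1 h2, mul_zero]

theorem vn_En (b : Bool) (h : Pt × Pt) {F : Pat Lab → K} (hF : Vn F) :
    Vn (En (Sum.inr b) (hf h) F) ∧ En (Sum.inr b) (hf h) F full = F full := by
  have key : ∀ q : Pat Lab, q be = ta → En (Sum.inr b) (hf h) F q = F q := by
    intro q hq
    unfold En
    simp only [LinearMap.add_apply, Module.End.one_apply, Pi.add_apply]
    rw [good_end b h hq, add_zero]
  exact ⟨fun q h1 h2 => by rw [key _ h1]; exact hF q h1 h2, key _ full_be⟩

theorem vn_Co {h k : Pt × Pt} (hk : h ≠ k) {F : Pat Lab → K} (hF : Vn F) :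
    Vn (Co (hf h) (hf k) F) ∧ Co (hf h) (hf k) F full = F full := by
  refine ⟨fun q h1 h2 => ?_, ?_⟩
  · rw [Co_apply]
    split_ifs with c1 c2
    · exact hF q h1 h2
    · rfl
    · rw [not_or, not_or] at c2
      obtain ⟨c3, c4, c5⟩ := c2
      have e0 := q.inv (hf h)
      have e1 := q.inv (hf k)
      have e2 : q ta = be := by rw [← h1, q.inv]
      apply hF
      · simp only [cut]
        grind
      · intro e
        have e3 : (cut (hf h) (hf k) q) (q (hf h)) = q (hf k) := by
          simp only [cut]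
          grind
        have e4 : ∃ l, q (hf h) = hf l := by
          rcases hq : q (hf h) with l | b
          · exact ⟨l, rfl⟩
          · exfalso
            rw [hq] at e0
            cases b
            · rw [h1] at e0
              exact absurd e0 (by simp)
            · rw [e2] at e0
              exact absurd e0 (by simp)
        obtain ⟨l, hl⟩ := e4
        rw [e, hl, full_hf, ← hl] at e3
        have := q.inj e3
        rw [Sum.inl.injEq] at this
        exact hk this
  · rw [Co_apply, if_pos ⟨full_hf h, full_hf k⟩]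

/-- edges of faces. -/
def Ed4 (E : Finset (Sym2 Lab)) : Prop := ∀ e ∈ E, ∃ (v : Pt) (a : Fin 4), e = ed (v, vec a)

theorem Ed4.ex {E : Finset (Sym2 Lab)} (hE : Ed4 E) : ∀ e ∈ E, ∃ h, e = ed h :=
  fun e he => ⟨_, (hE e he).choose_spec.choose_spec⟩

theorem Ed4.erase {E : Finset (Sym2 Lab)} (hE : Ed4 E) (e : Sym2 Lab) : Ed4 (E.erase e) :=
  fun f hf => hE f (Finset.mem_of_mem_erase hf)

theorem CO4_erase {E : Finset (Sym2 Lab)} (hE : Ed4 E) {e : Sym2 Lab} (he : e ∈ E) :
    CO K E hE.ex = CoS e * CO K (E.erase e) (hE.erase e).ex :=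
  (Finset.mul_noncommProd_erase E he _ _).symm

theorem vn_CO {E : Finset (Sym2 Lab)} (hE : Ed4 E) {F : Pat Lab → K} (hF : Vn F) :
    Vn (CO K E hE.ex F) ∧ CO K E hE.ex F full = F full := by
  refine Finset.noncommProd_induction E _ _
    (fun B : Op Lab K => ∀ F, Vn F → Vn (B F) ∧ B F full = F full)
    (fun a b ha hb F hF => ?_) (fun F hF => ⟨hF, rfl⟩) (fun e he F hF => ?_) F hF
  · obtain ⟨h1, h2⟩ := hb F hF
    obtain ⟨h3, h4⟩ := ha _ h1
    exact ⟨h3, h4.trans h2⟩
  · obtain ⟨v, a, rfl⟩ := hE e he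
    rw [CoS_ed]
    exact vn_Co (ne_rv_vec v a) hF

theorem vn_EN (b : Bool) (s : Finset (Pt × Pt)) {F : Pat Lab → K} (hF : Vn F) :
    Vn (EN K b s F) ∧ EN K b s F full = F full := by
  refine Finset.noncommProd_induction s _ _
    (fun B : Op Lab K => ∀ F, Vn F → Vn (B F) ∧ B F full = F full)
    (fun a b ha hb F hF => ?_) (fun F hF => ⟨hF, rfl⟩) (fun h _ F hF => vn_En b h hF) F hF
  obtain ⟨h1, h2⟩ := hb F hF
  obtain ⟨h3, h4⟩ := ha _ h1
  exact ⟨h3, h4.trans h2⟩

theorem CEL_insert (σ : Pt → Cell K) {Ω : Finset Pt} {v : Pt} (hv : v ∉ Ω) :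
    (CEL σ (insert v Ω) : Op Lab K) = Cel (σ v) v * CEL σ Ω :=
  Finset.noncommProd_insert_of_notMem _ _ _ _ hv

theorem CEL_erase (σ : Pt → Cell K) {Ω : Finset Pt} {v : Pt} (hv : v ∈ Ω) :
    (CEL σ Ω : Op Lab K) = Cel (σ v) v * CEL σ (Ω.erase v) :=
  (Finset.mul_noncommProd_erase Ω hv _ _).symm

theorem CEL_congr {σ τ : Pt → Cell K} {Ω : Finset Pt} (h : ∀ v ∈ Ω, σ v = τ v) :
    (CEL σ Ω : Op Lab K) = CEL τ Ω :=
  Finset.noncommProd_congr rfl (fun v hv => by rw [h v hv]) _

theorem CEL_empty (σ : Pt → Cell K) : (CEL σ ∅ : Op Lab K) = 1 :=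
  Finset.noncommProd_empty _ _

theorem CEL_full (σ : Pt → Cell K) (Ω : Finset Pt) {F : Pat Lab → K} (hF : Vn F) :
    Vn (CEL σ Ω F) ∧ CEL σ Ω F full = (∏ v ∈ Ω, (σ v).e) * F full := by
  classical
  induction Ω using Finset.induction_on with
  | empty =>
    rw [CEL_empty]
    exact ⟨hF, by simp⟩
  | insert v Ω hv ih =>
    rw [CEL_insert σ hv, Finset.prod_insert hv]
    refine ⟨vn_Cel _ _ ih.1, ?_⟩
    have h1 : (Cel (σ v) v * CEL σ Ω : Op Lab K) F full = (σ v).e * CEL σ Ω F full :=
      Cel_joined _ _ ih.1 full_be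
    rw [h1, ih.2]
    ring

theorem unu_Cel (c : Cell K) (v : Pt) {F : Pat Lab → K} (hF : Unu F) : Unu (Cel c v F) := by
  have h1 : ∀ a b : Fin 4, ∀ H : Pat Lab → K, Unu H → Unu (cupO (hs v a) (hs v b) H) :=
    fun a b H hH q hq => unu_cupO hH (by simp) (by simp) hq
  intro q hq
  unfold Cel
  simp only [LinearMap.add_apply, Module.End.one_apply, LinearMap.smul_apply, Pi.add_apply,
    Pi.smul_apply, Module.End.mul_apply, smul_eq_mul]
  rw [hF q hq, h1 _ _ _ hF q hq, h1 _ _ _ hF q hq, h1 _ _ _ hF q hq, h1 _ _ _ hF q hq,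
    h1 _ _ _ hF q hq, h1 _ _ _ hF q hq, h1 _ _ _ (h1 _ _ _ hF) q hq,
    h1 _ _ _ (h1 _ _ _ hF) q hq]
  simp

theorem unu_CEL (σ : Pt → Cell K) (Ω : Finset Pt) {F : Pat Lab → K} (hF : Unu F) :
    Unu (CEL σ Ω F) :=
  Finset.noncommProd_induction Ω _ _ (fun B : Op Lab K => ∀ F, Unu F → Unu (B F))
    (fun a b ha hb F hF => ha _ (hb F hF)) (fun F hF => hF) (fun v _ F hF => unu_Cel _ v hF) F hF

theorem unu_CO4 {E : Finset (Sym2 Lab)} (hE : Ed4 E) {F : Pat Lab → K} (hF : Unu F) :
    Unu (CO K E hE.ex F) := by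
  refine Finset.noncommProd_induction E _ _ (fun B : Op Lab K => ∀ F, Unu F → Unu (B F))
    (fun a b ha hb F hF => ha _ (hb F hF)) (fun F hF => hF) (fun e he F hF => ?_) F hF
  obtain ⟨v, a, rfl⟩ := hE e he
  rw [CoS_ed]
  exact unu_Co _ _ hF

/-! ### commutation -/

/-- a face operator commutes with `X` if the arcs that it uses do. -/
theorem Cel_commute {c : Cell K} {v : Pt} {X : Op Lab K}
    (h : ∀ a b : Fin 4, c.s a b ≠ 0 ∨ c.d1 ≠ 0 ∨ c.d2 ≠ 0 → a ≠ b →
      Commute (cupO (hs v a) (hs v b) : Op Lab K) X) : Commute (Cel c v) X := by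
  have h1 : ∀ (r : K) (a b : Fin 4), a ≠ b → (r ≠ 0 → c.s a b ≠ 0 ∨ c.d1 ≠ 0 ∨ c.d2 ≠ 0) →
      Commute (r • cupO (hs v a) (hs v b) : Op Lab K) X := by
    intro r a b hab hr
    by_cases h0 : r = 0
    · rw [h0, zero_smul]
      exact Commute.zero_left _
    · exact (h a b (hr h0) hab).smul_left _
  have h2 : ∀ (r : K) (a b x y : Fin 4), a ≠ b → x ≠ y → (r ≠ 0 → c.d1 ≠ 0 ∨ c.d2 ≠ 0) →
      Commute (r • (cupO (hs v a) (hs v b) * cupO (hs v x) (hs v y)) : Op Lab K) X := by
    intro r a b x y hab hxy hr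
    by_cases h0 : r = 0
    · rw [h0, zero_smul]
      exact Commute.zero_left _
    · exact ((h a b (Or.inr (hr h0)) hab).mul_left (h x y (Or.inr (hr h0)) hxy)).smul_left _
  unfold Cel
  refine (((Commute.one_left _).smul_left _).add_left ?_).add_left ?_
  · exact ((((((h1 _ 0 1 (by decide) (fun h => Or.inl h)).add_left
      (h1 _ 0 2 (by decide) (fun h => Or.inl h))).add_left
      (h1 _ 0 3 (by decide) (fun h => Or.inl h))).add_left
      (h1 _ 1 2 (by decide) (fun h => Or.inl h))).add_left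
      (h1 _ 1 3 (by decide) (fun h => Or.inl h))).add_left
      (h1 _ 2 3 (by decide) (fun h => Or.inl h)))
  · exact (h2 _ 0 1 2 3 (by decide) (by decide) (fun h => Or.inl h)).add_left
      (h2 _ 1 2 3 0 (by decide) (by decide) (fun h => Or.inr h))

theorem Cel_Co_comm {c : Cell K} {v : Pt} {h k : Pt × Pt} (h1 : ∀ a, h = (v, vec a) → c.Off a)
    (h2 : ∀ a, k = (v, vec a) → c.Off a) : Commute (Cel c v : Op Lab K) (Co (hf h) (hf k)) := by
  refine Cel_commute fun a b hab hne => ?_
  have key : ∀ x : Fin 4, (x = a ∨ x = b) → ¬ c.Off x := by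
    rintro x hx ⟨o1, o2, o3⟩
    rcases hab with h | h | h
    · rcases hx with rfl | rfl
      · exact h (o1 b)
      · apply h
        have sy : c.s a x = c.s x a := by
          rcases fin4 a with rfl | rfl | rfl | rfl <;> rcases fin4 x with rfl | rfl | rfl | rfl <;> rfl
        rw [sy]
        exact o1 a
    · exact h o2
    · exact h o3
  have g1 : ∀ x : Fin 4, (x = a ∨ x = b) → hs v x ≠ hf h := by
    intro x hx e
    exact key x hx (h1 x (Sum.inl_injective e).symm)
  have g2 : ∀ x : Fin 4, (x = a ∨ x = b) → hs v x ≠ hf k := by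
    intro x hx e
    exact key x hx (h2 x (Sum.inl_injective e).symm)
  exact cupO_Co_comm (g1 a (Or.inl rfl)) (g2 a (Or.inl rfl)) (g1 b (Or.inr rfl)) (g2 b (Or.inr rfl))

theorem Cel_En_comm {c : Cell K} {v : Pt} {h : Pt × Pt} {b : Bool} (h1 : h.1 ≠ v) :
    Commute (Cel c v : Op Lab K) (En (Sum.inr b) (hf h)) := by
  refine Cel_commute fun x y _ _ => ?_
  unfold En
  refine (Commute.one_right _).add_right ?_
  have g : ∀ x : Fin 4, hs v x ≠ hf h := by
    intro x e
    exact h1 (congrArg Prod.fst (Sum.inl_injective e)).symm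
  exact cupO_comm (by simp) (g x) (by simp) (g y)

theorem CoS_CEL_comm {σ : Pt → Cell K} {Ω : Finset Pt} {p : Pt × Pt}
    (h1 : ∀ v ∈ Ω, ∀ a, p = (v, vec a) → (σ v).Off a)
    (h2 : ∀ v ∈ Ω, ∀ a, rv p = (v, vec a) → (σ v).Off a) :
    Commute (CoS (ed p) : Op Lab K) (CEL σ Ω) := by
  refine Finset.noncommProd_commute Ω _ _ _ (fun u hu => ?_)
  rw [CoS_ed]
  exact (Cel_Co_comm (h1 u hu) (h2 u hu)).symm

theorem En_CEL_comm {σ : Pt → Cell K} {Ω : Finset Pt} {p : Pt × Pt} (b : Bool) (h1 : p.1 ∉ Ω) :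
    Commute (En (Sum.inr b) (hf p) : Op Lab K) (CEL σ Ω) := by
  refine Finset.noncommProd_commute Ω _ _ _ (fun u hu => ?_)
  refine (Cel_En_comm ?_).symm
  rintro rfl
  exact h1 hu

/-! ### the sum in the order of the exploration -/

/-- The total weight of the continuations from the half edge of the face `v` at the side `d`, with at
most `L` more faces. -/
noncomputable def Wf (Ω : Finset Pt) (T : Finset (Pt × Pt)) : ℕ → (Pt → Cell K) → Pt → Fin 4 → K
  | 0, σ, v, d => if v + vec d ∈ Ω then 0 else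
      if rv (v, vec d) ∈ T then ∏ u ∈ Ω, (σ u).e else 0
  | L + 1, σ, v, d => if v + vec d ∈ Ω then
      ∑ b, Wf Ω T L (Function.update σ (v + vec d) ((σ (v + vec d)).res (d + 2) b)) (v + vec d) b
      else if rv (v, vec d) ∈ T then ∏ u ∈ Ω, (σ u).e else 0

theorem Wf_out {Ω : Finset Pt} {T : Finset (Pt × Pt)} {L : ℕ} {σ : Pt → Cell K} {v : Pt}
    {d : Fin 4} (h : v + vec d ∉ Ω) :
    Wf Ω T L σ v d = if rv (v, vec d) ∈ T then ∏ u ∈ Ω, (σ u).e else 0 := by
  cases L <;> rw [Wf, if_neg h]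

theorem Wf_zero_cell {Ω : Finset Pt} {T : Finset (Pt × Pt)} {w : Pt} (hw : w ∈ Ω) : ∀ (L : ℕ)
    (σ : Pt → Cell K) (v : Pt) (d : Fin 4), σ w = 0 → Wf Ω T L σ v d = 0
  | L, σ, v, d => by
    intro h0
    by_cases h : v + vec d ∈ Ω
    · cases L with
      | zero => rw [Wf, if_pos h]
      | succ L =>
        rw [Wf, if_pos h]
        refine Finset.sum_eq_zero fun b _ => ?_
        apply Wf_zero_cell hw L
        by_cases h1 : w = v + vec d
        · subst h1
          rw [Function.update_self, h0, Cell.zero_res]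
        · rw [Function.update_of_ne h1, h0]
    · rw [Wf_out h]
      split_ifs
      · exact Finset.prod_eq_zero hw (by rw [h0]; rfl)
      · rfl

theorem main4_out {T : Finset (Pt × Pt)} {Ω : Finset Pt} {E : Finset (Sym2 Lab)} (hE : Ed4 E)
    {σ : Pt → Cell K} {L : ℕ} {v : Pt} {d : Fin 4} (ho : v ∈ Ω → (σ v).Off d)
    (h2 : ed (v, vec d) ∈ E) (hw : v + vec d ∉ Ω) (hT : ∀ h ∈ T, h.1 ∉ Ω) (h4 : (v, vec d) ∉ T) :
    (CEL σ Ω * EN K true T * CO K E hE.ex : Op Lab K) (dlt K) (st (v, vec d)) = Wf Ω T L σ v d := by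
  set p : Pt × Pt := (v, vec d) with hp
  rw [Wf_out hw, CO4_erase hE h2]
  have g1 : ∀ u ∈ Ω, ∀ a, p = (u, vec a) → (σ u).Off a := by
    intro u hu a h
    have h5 : v = u := congrArg Prod.fst h
    have h6 : d = a := vec_inj.1 (congrArg Prod.snd h)
    subst h5 h6
    exact ho hu
  have g2 : ∀ u ∈ Ω, ∀ a, rv p = (u, vec a) → (σ u).Off a := by
    intro u hu a h
    exfalso
    apply hw
    have h5 : v + vec d = u := congrArg Prod.fst h
    rw [h5]
    exact hu
  have c2 : Commute (CoS (ed p) : Op Lab K) (CEL σ Ω) := CoS_CEL_comm g1 g2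
  by_cases h5 : rv p ∈ T
  · rw [if_pos h5, EN_erase true h5]
    have c1 : Commute (En (Sum.inr true) (hf (rv p)) : Op Lab K) (CEL σ Ω) := En_CEL_comm true hw
    have c3 : Commute (CoS (ed p) : Op Lab K) (EN K true (T.erase (rv p))) :=
      CoS_EN_comm true (fun h => h4 (Finset.mem_of_mem_erase h)) (Finset.notMem_erase _ _)
    have e : (CEL σ Ω * (En (Sum.inr true) (hf (rv p)) * EN K true (T.erase (rv p))) *
        (CoS (ed p) * CO K (E.erase (ed p)) (hE.erase (ed p)).ex) : Op Lab K) =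
        En (Sum.inr true) (hf (rv p)) * (CoS (ed p) *
          (CEL σ Ω * EN K true (T.erase (rv p)) * CO K (E.erase (ed p)) (hE.erase (ed p)).ex)) := by
      calc _ = (CEL σ Ω * En (Sum.inr true) (hf (rv p))) * (EN K true (T.erase (rv p)) *
          CoS (ed p)) * CO K (E.erase (ed p)) (hE.erase (ed p)).ex := by simp only [mul_assoc]
        _ = (En (Sum.inr true) (hf (rv p)) * CEL σ Ω) * (CoS (ed p) *
          EN K true (T.erase (rv p))) * CO K (E.erase (ed p)) (hE.erase (ed p)).ex := by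
            rw [c1.eq, c3.eq]
        _ = En (Sum.inr true) (hf (rv p)) * ((CEL σ Ω * CoS (ed p)) *
          (EN K true (T.erase (rv p)) * CO K (E.erase (ed p)) (hE.erase (ed p)).ex)) := by
            simp only [mul_assoc]
        _ = _ := by
            rw [← c2.eq]
            simp only [mul_assoc]
    rw [e]
    simp only [Module.End.mul_apply]
    rw [CoS_ed]
    refine (step_top (ne_rv_vec v d).symm _).trans ?_
    have k1 := vn_CO (hE.erase (ed p)) (vn_dlt (K := K))
    have k2 := vn_EN true (T.erase (rv p)) k1.1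
    rw [(CEL_full σ Ω k2.1).2, k2.2, k1.2]
    simp [dlt]
  · rw [if_neg h5]
    have c3 : Commute (CoS (ed p) : Op Lab K) (EN K true T) := CoS_EN_comm true h4 h5
    have e : (CEL σ Ω * EN K true T *
        (CoS (ed p) * CO K (E.erase (ed p)) (hE.erase (ed p)).ex) : Op Lab K) =
        CoS (ed p) * (CEL σ Ω * EN K true T * CO K (E.erase (ed p)) (hE.erase (ed p)).ex) := by
      calc _ = CEL σ Ω * (EN K true T * CoS (ed p)) *
            CO K (E.erase (ed p)) (hE.erase (ed p)).ex := by simp only [mul_assoc]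
        _ = (CEL σ Ω * CoS (ed p)) * (EN K true T *
            CO K (E.erase (ed p)) (hE.erase (ed p)).ex) := by
            rw [← c3.eq]
            simp only [mul_assoc]
        _ = _ := by
            rw [← c2.eq]
            simp only [mul_assoc]
    rw [e]
    simp only [Module.End.mul_apply]
    rw [CoS_ed]
    exact Co_st (ne_rv_vec v d).symm _

/-- entering a face. -/
theorem main4_in {T : Finset (Pt × Pt)} {Ω : Finset Pt} {E : Finset (Sym2 Lab)} (hE : Ed4 E)
    {σ : Pt → Cell K} {v : Pt} {d : Fin 4} (ho : v ∈ Ω → (σ v).Off d)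
    (h2 : ed (v, vec d) ∈ E) (hw : v + vec d ∈ Ω) (hT : ∀ h ∈ T, h.1 ∉ Ω) (h4 : (v, vec d) ∉ T) :
    (CEL σ Ω * EN K true T * CO K E hE.ex : Op Lab K) (dlt K) (st (v, vec d)) =
      ∑ b, (CEL (Function.update σ (v + vec d) ((σ (v + vec d)).res (d + 2) b)) Ω * EN K true T *
        CO K (E.erase (ed (v, vec d))) (hE.erase _).ex : Op Lab K) (dlt K)
          (st (v + vec d, vec b)) := by
  set p : Pt × Pt := (v, vec d) with hp
  set w : Pt := v + vec d with hwd
  have hr : rv p ∉ T := fun h => hT _ h hw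
  have hwv : w ≠ v := add_vec_ne v d
  have g1 : ∀ u ∈ Ω.erase w, ∀ a, p = (u, vec a) → (σ u).Off a := by
    intro u hu a h
    have h5 : v = u := congrArg Prod.fst h
    have h6 : d = a := vec_inj.1 (congrArg Prod.snd h)
    subst h5 h6
    exact ho (Finset.mem_of_mem_erase hu)
  have g2 : ∀ u ∈ Ω.erase w, ∀ a, rv p = (u, vec a) → (σ u).Off a := by
    intro u hu a h
    exfalso
    have h5 : w = u := congrArg Prod.fst h
    exact Finset.ne_of_mem_erase hu h5.symm
  have c2 : Commute (CoS (ed p) : Op Lab K) (CEL σ (Ω.erase w)) := CoS_CEL_comm g1 g2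
  have c3 : Commute (CoS (ed p) : Op Lab K) (EN K true T) := CoS_EN_comm true h4 hr
  have e : (CEL σ Ω * EN K true T * CO K E hE.ex : Op Lab K) =
      Cel (σ w) w * (CoS (ed p) * (CEL σ (Ω.erase w) * EN K true T *
        CO K (E.erase (ed p)) (hE.erase (ed p)).ex)) := by
    rw [CEL_erase σ hw, CO4_erase hE h2]
    calc _ = Cel (σ w) w * CEL σ (Ω.erase w) * (EN K true T * CoS (ed p)) *
        CO K (E.erase (ed p)) (hE.erase (ed p)).ex := by simp only [mul_assoc]
      _ = Cel (σ w) w * (CEL σ (Ω.erase w) * CoS (ed p)) * (EN K true T *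
        CO K (E.erase (ed p)) (hE.erase (ed p)).ex) := by
        rw [← c3.eq]
        simp only [mul_assoc]
      _ = _ := by
        rw [← c2.eq]
        simp only [mul_assoc]
  rw [e]
  simp only [Module.End.mul_apply]
  have hrv : rv p = (w, vec (d + 2)) := rv_vec v d
  rw [CoS_ed, hrv]
  rw [step_Cel (c := σ w) (v := w) (p := p) (fun b h => hwv (congrArg Prod.fst h)) (d + 2)]
  refine Finset.sum_congr rfl fun b _ => ?_
  have e2 : (CEL (Function.update σ w ((σ w).res (d + 2) b)) Ω : Op Lab K) =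
      Cel ((σ w).res (d + 2) b) w * CEL σ (Ω.erase w) := by
    rw [CEL_erase _ hw, Function.update_self]
    congr 1
    refine CEL_congr fun u hu => ?_
    rw [Function.update_of_ne (Finset.ne_of_mem_erase hu)]
  rw [e2]
  simp only [Module.End.mul_apply]

theorem main4 (T : Finset (Pt × Pt)) (Ω : Finset Pt) (hT : ∀ h ∈ T, h.1 ∉ Ω) (L : ℕ) :
    ∀ (σ : Pt → Cell K) (κ : Pt → ℕ) (E : Finset (Sym2 Lab)) (hE : Ed4 E) (v : Pt) (d : Fin 4),
    (∀ u ∈ Ω, (σ u).Cap (κ u)) → ∑ u ∈ Ω, κ u ≤ L →
    (v ∈ Ω → (σ v).Off d) → ed (v, vec d) ∈ E →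
    (∀ w ∈ Ω, ∀ a, ed (w, vec a) ∈ E ∨ (σ w).Off a) → (v, vec d) ∉ T →
    (CEL σ Ω * EN K true T * CO K E hE.ex : Op Lab K) (dlt K) (st (v, vec d)) =
      Wf Ω T L σ v d := by
  have zero : ∀ (σ : Pt → Cell K) (w : Pt), w ∈ Ω → σ w = 0 → (CEL σ Ω : Op Lab K) = 0 := by
    intro σ w hw h
    rw [CEL_erase σ hw, h, Cel_zero, zero_mul]
  induction L with
  | zero =>
    intro σ κ E hE v d hκ hL ho h2 h3 h4
    by_cases hw : v + vec d ∈ Ω
    · rw [main4_in hE ho h2 hw hT h4, Wf, if_pos hw]
      refine Finset.sum_eq_zero fun b _ => ?_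
      have h0 : κ (v + vec d) = 0 := by
        have := Finset.single_le_sum (f := κ) (fun i _ => Nat.zero_le _) hw
        omega
      have h5 := hκ _ hw
      rw [h0] at h5
      rw [zero _ (v + vec d) hw (by rw [Function.update_self, Cell.res_cap_zero h5])]
      simp
    · exact main4_out hE ho h2 hw hT h4
  | succ L ih =>
    intro σ κ E hE v d hκ hL ho h2 h3 h4
    by_cases hw : v + vec d ∈ Ω
    · rw [main4_in hE ho h2 hw hT h4, Wf, if_pos hw]
      refine Finset.sum_congr rfl fun b _ => ?_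
      set w : Pt := v + vec d with hwd
      have hwv : w ≠ v := add_vec_ne v d
      by_cases hz : (σ w).res (d + 2) b = 0
      · rw [zero _ w hw (by rw [Function.update_self, hz]),
          Wf_zero_cell hw L _ _ _ (by rw [Function.update_self, hz])]
        simp
      · have hb : b ≠ d + 2 := by
          rintro rfl
          exact hz (Cell.res_self _)
        have hoff : ¬ (σ w).Off b := fun h => hz (Cell.res_of_off h)
        have hκ0 : κ w ≠ 0 := by
          intro h0
          have h5 := hκ _ hw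
          rw [h0] at h5
          exact hz (Cell.res_cap_zero h5 _ _)
        refine ih _ (Function.update κ w (κ w - 1)) _ (hE.erase _) w b ?_ ?_ ?_ ?_ ?_ ?_
        · intro u hu
          by_cases h5 : u = w
          · subst h5
            rw [Function.update_self, Function.update_self]
            apply Cell.res_cap
            rw [Nat.sub_add_cancel (by omega)]
            exact hκ _ hw
          · rw [Function.update_of_ne h5, Function.update_of_ne h5]
            exact hκ u hu
        · have h5 : ∑ u ∈ Ω, Function.update κ w (κ w - 1) u + 1 = ∑ u ∈ Ω, κ u := by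
            rw [← Finset.add_sum_erase Ω _ hw, ← Finset.add_sum_erase Ω κ hw,
              Function.update_self]
            have h6 : ∑ u ∈ Ω.erase w, Function.update κ w (κ w - 1) u = ∑ u ∈ Ω.erase w, κ u :=
              Finset.sum_congr rfl fun u hu => by
                rw [Function.update_of_ne (Finset.ne_of_mem_erase hu)]
            rw [h6]
            omega
          omega
        · intro _
          rw [Function.update_self]
          exact Cell.res_off_right _ _
        · rw [Finset.mem_erase]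
          refine ⟨?_, (h3 w hw b).resolve_right hoff⟩
          rw [Ne, ed_eq, not_or]
          refine ⟨fun h => hwv (congrArg Prod.fst h), fun h => hb ?_⟩
          have h5 : vec b = -vec d := congrArg Prod.snd h
          rw [← vec_opp] at h5
          exact vec_inj.1 h5
        · intro u hu a
          by_cases h5 : (σ u).Off a
          · right
            by_cases h6 : u = w
            · subst h6
              rw [Function.update_self]
              exact Cell.off_res h5 _ _
            · rw [Function.update_of_ne h6]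
              exact h5
          · have h6 := (h3 u hu a).resolve_right h5
            by_cases h7 : ed (u, vec a) = ed (v, vec d)
            · right
              rw [ed_eq] at h7
              rcases h7 with h7 | h7
              · have h8 : u = v := congrArg Prod.fst h7
                have h9 : a = d := vec_inj.1 (congrArg Prod.snd h7)
                subst h8 h9
                rw [Function.update_of_ne hwv.symm]
                exact ho hu
              · have h8 : u = w := congrArg Prod.fst h7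
                have h9 : vec a = -vec d := congrArg Prod.snd h7
                rw [← vec_opp] at h9
                have h10 := vec_inj.1 h9
                subst h8 h10
                rw [Function.update_self]
                exact Cell.res_off_left _ _
            · left
              exact Finset.mem_erase.2 ⟨h7, h6⟩
        · exact fun h => hT _ h hw
    · exact main4_out hE ho h2 hw hT h4

theorem edg4_Ed4 (Ω : Finset Pt) : Ed4 (edg4 Ω) := by
  intro e he
  obtain ⟨v, -, a, h⟩ := mem_edg4.1 he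
  exact ⟨v, a, h.symm⟩

/-- The network of faces is the sum of the weights in the order of the exploration. -/
theorem net4_eq (σ : Pt → Cell K) {Ω : Finset Pt} {Bt Tp : Finset (Pt × Pt)}
    (hB : ∀ h ∈ Bt, ∃ a : Fin 4, h.2 = vec a ∧ h.1 ∉ Ω ∧ h.1 + vec a ∈ Ω)
    (hT : ∀ h ∈ Tp, h.1 ∉ Ω) (hd : Disjoint Bt Tp) (f : Pt × Pt → Fin 4)
    (hf : ∀ h ∈ Bt, h.2 = vec (f h)) {L : ℕ} (hL : 2 * Ω.card ≤ L) :
    Net4 σ Ω Bt Tp (dlt K) Pat.empty = ∑ h ∈ Bt, Wf Ω Tp L σ h.1 (f h) := by
  have c1 : Commute (CEL σ Ω : Op Lab K) (EN K false Bt) := by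
    refine Finset.noncommProd_commute Bt _ _ _ (fun h hh => ?_)
    obtain ⟨a, -, h2, -⟩ := hB h hh
    exact (En_CEL_comm false h2).symm
  have e : Net4 σ Ω Bt Tp = EN K false Bt *
      (CEL σ Ω * EN K true Tp * CO K (edg4 Ω) (edg4_Ed4 Ω).ex) := by
    unfold Net4
    rw [c1.eq]
    simp only [mul_assoc]
  rw [e, Module.End.mul_apply, EN_empty]
  have z : (CEL σ Ω * EN K true Tp * CO K (edg4 Ω) (edg4_Ed4 Ω).ex : Op Lab K) (dlt K)
      Pat.empty = 0 :=
    unu_CEL σ Ω (unu_EN Tp (unu_CO4 (edg4_Ed4 Ω) unu_dlt)) Pat.empty rfl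
  rw [z, zero_add]
  refine Finset.sum_congr rfl (fun h hh => ?_)
  obtain ⟨a, h1, h2, h3⟩ := hB h hh
  have h5 := hf h hh
  have h6 : a = f h := vec_inj.1 (by rw [← h1, h5])
  subst h6
  have h7 : h = (h.1, vec (f h)) := Prod.ext rfl h5
  have key := main4 Tp Ω hT L σ (fun _ => 2) (edg4 Ω) (edg4_Ed4 Ω) h.1 (f h) (K := K)
    (fun u _ => Cell.cap_two _) (by rw [Finset.sum_const, smul_eq_mul]; omega)
    (fun h' => absurd h' h2) ?_ ?_ ?_
  · rw [← key, ← h7]
  · rw [← ed_rv, rv_vec, mem_edg4]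
    exact ⟨_, h3, _, rfl⟩
  · intro u hu b
    exact Or.inl (mem_edg4.2 ⟨u, hu, b, rfl⟩)
  · rw [← h7]
    exact Finset.disjoint_left.1 hd hh

end Pool.Agent.UNI
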