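import Pool.Agent.UNI.ZLim4

/-!
# UNIV: one more row (finiteness for every number of rows)

A crossing of `N` rows followed by a straight step is a crossing of `N + 1` rows.
-/

set_option autoImplicit false

namespace Pool.Agent.UNI

open Pool.Agent.EXL HexObs HexObs.LP
open scoped ENNReal

/-- the last direction of a walk. -/
def lastD : Fin 4 → List (Fin 4) → Fin 4
  | d, [] => d
  | _, b :: t => lastD b t

theorem pas_snoc (b : Fin 4) : ∀ (v : Pt) (d : Fin 4) (t : List (Fin 4)),
    pas v d (t ++ [b]) = pas v d t ++ [(endF v d t, (lastD d t + 2, b))]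
  | v, d, [] => rfl
  | v, d, c :: t => by
    rw [List.cons_append, pas, pas, endF, lastD, pas_snoc b (v + vec d) c t]
    rfl

theorem endF_snoc (b : Fin 4) : ∀ (v : Pt) (d : Fin 4) (t : List (Fin 4)),
    endF v d (t ++ [b]) = endF v d t + vec b
  | v, d, [] => rfl
  | v, d, c :: t => by
    rw [List.cons_append, endF, endF, endF_snoc b (v + vec d) c t]

theorem endF_prev : ∀ (v : Pt) (d : Fin 4) (t : List (Fin 4)),
    endF v d t = v + vec (lastD d t) ∧ t = [] ∨
      ∃ x ∈ pas v d t, endF v d t = x.1 + vec (lastD d t)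
  | v, d, [] => Or.inl ⟨rfl, rfl⟩
  | v, d, c :: t => by
    right
    rcases endF_prev (v + vec d) c t with ⟨h, -⟩ | ⟨x, hx, h⟩
    · exact ⟨(v + vec d, (d + 2, c)), by rw [pas]; exact List.mem_cons_self, h⟩
    · exact ⟨x, by rw [pas]; exact List.mem_cons_of_mem _ hx, h⟩

/-- a crossing ends with a step up. -/
theorem lastD_crs {N : ℕ} {t : List (Fin 4)} (h : Crs N t) : lastD 1 t = 1 := by
  have key : ∀ e : Fin 4, 0 < (vec e).2 → e = 1 := by decide
  rcases endF_prev (0, -1) 1 t with ⟨-, rfl⟩ | ⟨x, hx, h1⟩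
  · rfl
  · apply key
    have h2 := h.2
    rw [h1, Prod.snd_add] at h2
    have h3 := (h.1 x hx).2
    omega

/-- the faces of a crossing do not contain the face entered at the end. -/
theorem endF_notMem {N : ℕ} {t : List (Fin 4)} (h : Crs N t) :
    ∀ x ∈ pas (0, -1) 1 t, x.1 ≠ endF (0, -1) 1 t := by
  intro x hx he
  have h1 := (h.1 x hx).2
  rw [he, h.2] at h1
  exact lt_irrefl _ h1

theorem crs_snoc {N : ℕ} {t : List (Fin 4)} (h : Crs N t) : Crs (N + 1) (t ++ [1]) := by
  refine ⟨fun x hx => ?_, ?_⟩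
  · rw [pas_snoc, List.mem_append, List.mem_singleton] at hx
    rcases hx with hx | rfl
    · have := h.1 x hx
      push_cast
      omega
    · have := h.2
      simp only
      push_cast
      omega
  · rw [endF_snoc, Prod.snd_add, h.2]
    push_cast
    rfl

theorem at'_snoc_ne {l : List (Pt × (Fin 4 × Fin 4))} {f u : Pt} (x : Fin 4 × Fin 4) (h : f ≠ u) :
    at' (l ++ [(f, x)]) u = at' l u := by
  unfold at'
  rw [List.filter_append, List.map_append]
  simp [h]

theorem at'_snoc_self {l : List (Pt × (Fin 4 × Fin 4))} {f : Pt} (x : Fin 4 × Fin 4)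
    (h : ∀ y ∈ l, y.1 ≠ f) : at' (l ++ [(f, x)]) f = [x] := by
  unfold at'
  rw [List.filter_append, List.map_append]
  have e : l.filter (fun y => y.1 = f) = [] := by
    rw [List.filter_eq_nil_iff]
    intro y hy
    simpa using h y hy
  rw [e]
  simp

theorem wgt_snoc {w : ℤ → Wt ℝ} {N : ℕ} {t : List (Fin 4)} (h : Crs N t) :
    wgt w (0, -1) 1 (t ++ [1]) = (w N).v * wgt w (0, -1) 1 t := by
  have hf := endF_notMem h
  unfold wgt
  rw [pas_snoc, lastD_crs h]
  set l := pas (0, -1) 1 t with hl
  set f := endF (0, -1) 1 t with hfd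
  have hf2 : f.2 = N := h.2
  have hset : ((l ++ [(f, ((1 : Fin 4) + 2, (1 : Fin 4)))]).map Prod.fst).toFinset =
      insert f ((l.map Prod.fst).toFinset) := by
    ext u
    simp only [List.map_append, List.map_cons, List.map_nil, List.toFinset_append,
      Finset.mem_union, List.mem_toFinset, List.mem_singleton, Finset.mem_insert]
    tauto
  have hnot : f ∉ (l.map Prod.fst).toFinset := by
    rw [List.mem_toFinset, List.mem_map]
    rintro ⟨x, hx, hx2⟩
    exact hf x hx hx2
  rw [hset, Finset.prod_insert hnot]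
  congr 1
  · rw [at'_snoc_self _ hf, hf2]
    show one (w (N : ℤ)) (1 + 2) 1 = _
    unfold one
    rw [if_neg (by decide), if_pos (by decide)]
  · refine Finset.prod_congr rfl fun u hu => ?_
    rw [at'_snoc_ne]
    rintro rfl
    exact hnot hu

/-- one more row. -/
theorem Bcr_succ {w : ℤ → Wt ℝ} (hw : ∀ i, (w i).Nn) (N : ℕ) :
    ENNReal.ofReal (w N).v * Bcr N w ≤ Bcr (N + 1) w := by
  unfold Bcr
  rw [← ENNReal.tsum_mul_left]
  have h1 : ∀ t : List (Fin 4), ENNReal.ofReal (w N).v *
      ENNReal.ofReal (if Crs N t then wgt w (0, -1) 1 t else 0) ≤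
      (fun t : List (Fin 4) => ENNReal.ofReal (if Crs (N + 1) t then wgt w (0, -1) 1 t else 0))
        (t ++ [1]) := by
    intro t
    by_cases h : Crs N t
    · rw [if_pos h, ← ENNReal.ofReal_mul (hw _).v]
      simp only
      rw [if_pos (crs_snoc h), wgt_snoc h]
    · rw [if_neg h, ENNReal.ofReal_zero, mul_zero]
      exact zero_le
  refine (ENNReal.tsum_le_tsum h1).trans ?_
  exact ENNReal.tsum_comp_le_tsum_of_injective (List.append_left_injective [1]) _

/-- if the weight is finite for some number of rows above `N`, it is finite for `N` rows. -/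
theorem Bcr_ne_top_of {w : ℤ → Wt ℝ} (hw : ∀ i, (w i).Nn) (hv : ∀ i, 0 < (w i).v) {N : ℕ} (k : ℕ)
    (h : Bcr (N + k) w ≠ ∞) : Bcr N w ≠ ∞ := by
  induction k with
  | zero => exact h
  | succ k ih =>
    apply ih
    intro h1
    have h2 := Bcr_succ hw (N + k)
    rw [h1, ENNReal.mul_top (by
      rw [Ne, ENNReal.ofReal_eq_zero, not_le]
      exact hv _)] at h2
    exact h (top_le_iff.1 h2)

end Pool.Agent.UNI
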