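import Pool.Agent.UNI.Moves4
import Pool.Agent.UNI.WtR

/-!
# UNIV, M3: Reach and CoReach for general weights with `v, u1, u2 > 0`, `w1, w2 ≥ 0`
-/

set_option autoImplicit false

namespace Pool.Agent.UNI.Mv

open Pool.Agent.EXL Pat Site

variable {N : ℕ} {w : Fin N → Wt ℝ} {p q : Pat (Site N)} {i j m : Fin N}

/-- The result of a step: full, or live with fewer occupied rows. -/
def Step (w : Fin N → Wt ℝ) (p q : Pat (Site N)) : Prop :=
  Leads (colW w) p q ∧ AxE q ∧
    (q = HS.full fl tp ∨ (q fl ≠ tp ∧ q ≠ Pat.empty ∧ (occ q).card < (occ p).card))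

/-- A good pair is joined. -/
theorem step_good (hw : ∀ i, WP (w i)) (hA : AxE p) (hl : p fl ≠ tp) (hij : i < j) (hi : p (row i) ≠ row i)
    (hj : p (row j) ≠ row j) (h : p (row i) ≠ row j)
    (hb : ∀ k, i < k → k < j → p (row k) = row k)
    (h1 : ¬ (p (row i) = fl ∧ p (row j) = tp)) (h2 : ¬ (p (row i) = tp ∧ p (row j) = fl)) :
    Step w p (cut (row i) (row j) p) := by
  have n0 := row_ne_row (N := N) hij.ne
  refine ⟨move_join hw hij (hA 0) hi hj h hb, axE_cut hA n0 hi hj h, Or.inr ⟨?_, ?_, ?_⟩⟩
  · rw [pcut_apply n0 hi hj h]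
    have m1 := row_ne_fl i
    have m2 := row_ne_fl j
    by_cases e1 : fl = p (row i)
    · rw [if_neg m1.symm, if_neg m2.symm, if_pos e1]
      exact fun e => h1 ⟨e1.symm, e⟩
    · by_cases e2 : fl = p (row j)
      · rw [if_neg m1.symm, if_neg m2.symm, if_neg e1, if_pos e2]
        exact fun e => h2 ⟨e, e2.symm⟩
      · rw [if_neg m1.symm, if_neg m2.symm, if_neg e1, if_neg e2]
        exact hl
  · rw [HS.Pat.ne_empty_iff]
    refine ⟨p (row i), fun e => ?_⟩
    rw [cut_fix n0 hi hj h] at e
    rcases e with e | e | e
    · exact hi e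
    · exact h e
    · rw [p.inv] at e; exact hi e.symm
  · apply Finset.card_lt_card
    rw [Finset.ssubset_iff_of_subset]
    · exact ⟨i, mem_occ.2 hi, fun e => mem_occ.1 e ((cut_fix n0 hi hj h _).2 (Or.inl rfl))⟩
    · intro k hk
      rw [mem_occ] at hk ⊢
      exact fun e => hk ((cut_fix n0 hi hj h _).2 (Or.inr (Or.inr e)))

theorem exists_step (hw : ∀ i, WP (w i)) (hA : AxE p) (hl : p fl ≠ tp) (hne : p ≠ Pat.empty) : ∃ q, Step w p q := by
  have hlt : p tp ≠ fl := fun e => hl (by rw [← e, p.inv])
  -- an occupied row
  have hS : (occ p).Nonempty := by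
    rw [HS.Pat.ne_empty_iff] at hne
    obtain ⟨x, hx⟩ := hne
    cases x with
    | fl =>
      rcases hy : p fl with _ | _ | k | k
      · exact absurd hy hx
      · exact absurd hy hl
      · refine ⟨k, mem_occ.2 ?_⟩
        rw [← hy, p.inv, hy]
        exact (row_ne_fl k).symm
      · exact absurd hy (not_ax hA (fun k => (ax_ne_fl k).symm) k)
    | tp =>
      rcases hy : p tp with _ | _ | k | k
      · exact absurd hy hlt
      · exact absurd hy hx
      · refine ⟨k, mem_occ.2 ?_⟩
        rw [← hy, p.inv, hy]
        exact (row_ne_tp k).symm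
      · exact absurd hy (not_ax hA (fun k => (ax_ne_tp k).symm) k)
    | row k => exact ⟨k, mem_occ.2 hx⟩
    | ax k => exact absurd (hA k) hx
  obtain ⟨i, hiS, himin⟩ : ∃ i ∈ occ p, ∀ k ∈ occ p, i ≤ k :=
    ⟨(occ p).min' hS, Finset.min'_mem _ _, fun k hk => Finset.min'_le _ _ hk⟩
  have hi := mem_occ.1 hiS
  have hbelow : ∀ k, k < i → p (row k) = row k := by
    intro k hk
    by_contra h
    exact absurd (himin k (mem_occ.2 h)) (not_le.2 hk)
  by_cases hex : ∃ m ∈ occ p, i < m
  swap
  · -- only one occupied row
    push Not at hex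
    have hrow : ∀ k, k ≠ i → p (row k) = row k := by
      intro k hk
      by_contra h
      exact hk (le_antisymm (hex k (mem_occ.2 h)) (himin k (mem_occ.2 h)))
    have hends : p (row i) = fl ∨ p (row i) = tp := by
      rcases hy : p (row i) with _ | _ | k | k
      · exact Or.inl rfl
      · exact Or.inr rfl
      · exfalso
        have hk : k ≠ i := fun e => hi (by rw [hy, e])
        have h1 := hrow k hk
        rw [← hy, p.inv] at h1
        exact hi h1.symm
      · exact absurd hy (not_ax hA (fun k => (ax_ne_row k i).symm) k)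
    rcases hends with he | he
    · -- the strand comes from the floor
      have ht : p tp = tp := by
        rcases hy : p tp with _ | _ | k | k
        · exact absurd hy hlt
        · rfl
        · exfalso
          by_cases hk : k = i
          · rw [hk] at hy
            have h1 := p.inv tp
            rw [hy, he] at h1
            exact fl_ne_tp h1
          · have h1 := hrow k hk
            rw [← hy, p.inv] at h1
            exact (row_ne_tp k) (by rw [← hy]; exact h1.symm)
        · exact absurd hy (not_ax hA (fun k => (ax_ne_tp k).symm) k)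
      refine ⟨swap (row i) tp p, move_top hw (hA 0) ht hi (fun k hk => hrow k hk.ne'),
        axE_swap hA (row_ne_tp i) hi ht (fun k => ax_ne_tp k), Or.inl ?_⟩
      have hf : p fl = row i := by rw [← he, p.inv]
      ext x
      rw [full_site, pswap_apply]
      cases x with
      | fl =>
        rw [Equiv.swap_apply_of_ne_of_ne (row_ne_fl i).symm fl_ne_tp, hf, Equiv.swap_apply_left,
          if_pos rfl]
      | tp =>
        rw [Equiv.swap_apply_right, he, Equiv.swap_apply_of_ne_of_ne (row_ne_fl i).symm fl_ne_tp,
          if_neg fl_ne_tp.symm, if_pos rfl]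
      | row k =>
        rw [if_neg (row_ne_fl k), if_neg (row_ne_tp k)]
        by_cases hk : k = i
        · rw [hk, Equiv.swap_apply_left, ht, Equiv.swap_apply_right]
        · rw [Equiv.swap_apply_of_ne_of_ne (row_ne_row hk) (row_ne_tp k), hrow k hk,
            Equiv.swap_apply_of_ne_of_ne (row_ne_row hk) (row_ne_tp k)]
      | ax k =>
        rw [if_neg (ax_ne_fl k), if_neg (ax_ne_tp k),
          Equiv.swap_apply_of_ne_of_ne (ax_ne_row k i) (ax_ne_tp k), hA k,
          Equiv.swap_apply_of_ne_of_ne (ax_ne_row k i) (ax_ne_tp k)]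
    · have hf : p fl = fl := by
        rcases hy : p fl with _ | _ | k | k
        · rfl
        · exact absurd hy hl
        · exfalso
          by_cases hk : k = i
          · rw [hk] at hy
            have h1 := p.inv fl
            rw [hy, he] at h1
            exact fl_ne_tp h1.symm
          · have h1 := hrow k hk
            rw [← hy, p.inv] at h1
            exact (row_ne_fl k) (by rw [← hy]; exact h1.symm)
        · exact absurd hy (not_ax hA (fun k => (ax_ne_fl k).symm) k)
      refine ⟨swap (row i) fl p, move_floor hw (hA 0) hf hi hbelow,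
        axE_swap hA (row_ne_fl i) hi hf (fun k => ax_ne_fl k), Or.inl ?_⟩
      have ht : p tp = row i := by rw [← he, p.inv]
      ext x
      rw [full_site, pswap_apply]
      cases x with
      | fl =>
        rw [Equiv.swap_apply_right, he, Equiv.swap_apply_of_ne_of_ne (row_ne_tp i).symm fl_ne_tp.symm,
          if_pos rfl]
      | tp =>
        rw [Equiv.swap_apply_of_ne_of_ne (row_ne_tp i).symm fl_ne_tp.symm, ht, Equiv.swap_apply_left,
          if_neg fl_ne_tp.symm, if_pos rfl]
      | row k =>
        rw [if_neg (row_ne_fl k), if_neg (row_ne_tp k)]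
        by_cases hk : k = i
        · rw [hk, Equiv.swap_apply_left, hf, Equiv.swap_apply_right]
        · rw [Equiv.swap_apply_of_ne_of_ne (row_ne_row hk) (row_ne_fl k), hrow k hk,
            Equiv.swap_apply_of_ne_of_ne (row_ne_row hk) (row_ne_fl k)]
      | ax k =>
        rw [if_neg (ax_ne_fl k), if_neg (ax_ne_tp k),
          Equiv.swap_apply_of_ne_of_ne (ax_ne_row k i) (ax_ne_fl k), hA k,
          Equiv.swap_apply_of_ne_of_ne (ax_ne_row k i) (ax_ne_fl k)]
  -- at least two occupied rows
  obtain ⟨j, hjS, hij, hjmin⟩ := next_occ (occ p) hex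
  have hj := mem_occ.1 hjS
  have hbet : ∀ k, i < k → k < j → p (row k) = row k := by
    intro k h1 h2
    by_contra h
    exact absurd (hjmin k (mem_occ.2 h) h1) (not_le.2 h2)
  by_cases hex2 : ∃ m ∈ occ p, j < m
  · obtain ⟨m, hmS, hjm, hmmin⟩ := next_occ (occ p) hex2
    have hm := mem_occ.1 hmS
    have hbet2 : ∀ k, j < k → k < m → p (row k) = row k := by
      intro k h1 h2
      by_contra h
      exact absurd (hmmin k (mem_occ.2 h) h1) (not_le.2 h2)
    have him : i < m := hij.trans hjm
    by_cases hg : p (row i) ≠ row j ∧ ¬ (p (row i) = fl ∧ p (row j) = tp) ∧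
        ¬ (p (row i) = tp ∧ p (row j) = fl)
    · exact ⟨_, step_good hw hA hl hij hi hj hg.1 hbet hg.2.1 hg.2.2⟩
    · -- the pair (j, m) is good
      have hjm' : p (row j) ≠ row m ∧ ¬ (p (row j) = fl ∧ p (row m) = tp) ∧
          ¬ (p (row j) = tp ∧ p (row m) = fl) := by
        by_cases e1 : p (row i) = row j
        · have e2 : p (row j) = row i := by rw [← e1, p.inv]
          rw [e2]
          exact ⟨row_ne_row him.ne, fun h => row_ne_fl i h.1, fun h => row_ne_tp i h.1⟩
        · by_cases e3 : p (row i) = fl ∧ p (row j) = tp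
          · rw [e3.2]
            refine ⟨(row_ne_tp m).symm, fun h => fl_ne_tp h.1.symm, fun h => ?_⟩
            exact row_ne_row him.ne (p.inj (by rw [e3.1, h.2]))
          · have e4 : p (row i) = tp ∧ p (row j) = fl := by
              by_contra e4
              exact hg ⟨e1, e3, e4⟩
            rw [e4.2]
            refine ⟨(row_ne_fl m).symm, fun h => ?_, fun h => fl_ne_tp h.1⟩
            exact row_ne_row him.ne (p.inj (by rw [e4.1, h.2]))
      exact ⟨_, step_good hw hA hl hjm hj hm hjm'.1 hbet2 hjm'.2.1 hjm'.2.2⟩
  · -- exactly two occupied rows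
    push Not at hex2
    have hrow : ∀ k, k ≠ i → k ≠ j → p (row k) = row k := by
      intro k h1 h2
      by_contra h
      have h3 := himin k (mem_occ.2 h)
      have h4 := hjmin k (mem_occ.2 h) (lt_of_le_of_ne h3 h1.symm)
      exact h2 (le_antisymm (hex2 k (mem_occ.2 h)) h4)
    by_cases e1 : p (row i) = row j
    · -- one arc
      have e2 : p (row j) = row i := by rw [← e1, p.inv]
      have hf : p fl = fl := by
        rcases hy : p fl with _ | _ | k | k
        · rfl
        · exact absurd hy hl
        · exfalso
          have h1 := p.inv fl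
          rw [hy] at h1
          by_cases hk : k = i
          · rw [hk, e1] at h1; exact row_ne_fl j h1
          · by_cases hk' : k = j
            · rw [hk', e2] at h1; exact row_ne_fl i h1
            · rw [hrow k hk hk'] at h1; exact row_ne_fl k h1
        · exact absurd hy (not_ax hA (fun k => (ax_ne_fl k).symm) k)
      refine ⟨swap (row i) fl p, move_floor hw (hA 0) hf hi hbelow,
        axE_swap hA (row_ne_fl i) hi hf (fun k => ax_ne_fl k), Or.inr ⟨?_, ?_, ?_⟩⟩
      · rw [pswap_apply, Equiv.swap_apply_right, e1,
          Equiv.swap_apply_of_ne_of_ne (row_ne_row hij.ne') (row_ne_fl j)]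
        exact row_ne_tp j
      · rw [HS.Pat.ne_empty_iff]
        refine ⟨fl, ?_⟩
        rw [pswap_apply, Equiv.swap_apply_right, e1,
          Equiv.swap_apply_of_ne_of_ne (row_ne_row hij.ne') (row_ne_fl j)]
        exact row_ne_fl j
      · apply Finset.card_lt_card
        rw [Finset.ssubset_iff_of_subset]
        · exact ⟨i, hiS, fun e => mem_occ.1 e
            ((swap_fix (row_ne_fl i) hi hf (row_ne_fl i)).2 (Or.inl rfl))⟩
        · intro k hk
          rw [mem_occ] at hk ⊢
          exact fun e => hk ((swap_fix (row_ne_fl i) hi hf (row_ne_fl k)).2 (Or.inr e))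
    · by_cases hg : ¬ (p (row i) = fl ∧ p (row j) = tp) ∧ ¬ (p (row i) = tp ∧ p (row j) = fl)
      · exact ⟨_, step_good hw hA hl hij hi hj e1 hbet hg.1 hg.2⟩
      · have n0 := row_ne_row (N := N) hij.ne
        refine ⟨cut (row i) (row j) p, move_join hw hij (hA 0) hi hj e1 hbet,
          axE_cut hA n0 hi hj e1, Or.inl ?_⟩
        have hc : (p (row i) = fl ∧ p (row j) = tp) ∨ (p (row i) = tp ∧ p (row j) = fl) := by
          by_contra hc
          push Not at hc
          exact hg ⟨fun h => hc.1 h.1 h.2, fun h => hc.2 h.1 h.2⟩
        ext x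
        rw [full_site, pcut_apply n0 hi hj e1]
        have m1 := row_ne_fl i
        have m2 := row_ne_fl j
        have m3 := row_ne_tp i
        have m4 := row_ne_tp j
        have m5 := fl_ne_tp (N := N)
        cases x with
        | fl =>
          rw [if_neg m1.symm, if_neg m2.symm, if_pos rfl]
          rcases hc with hc | hc
          · rw [hc.1, hc.2, if_pos rfl]
          · rw [hc.1, hc.2, if_neg m5, if_pos rfl]
        | tp =>
          rw [if_neg m3.symm, if_neg m4.symm, if_neg m5.symm, if_pos rfl]
          rcases hc with hc | hc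
          · rw [hc.1, hc.2, if_neg m5.symm, if_pos rfl]
          · rw [hc.1, hc.2, if_pos rfl]
        | row k =>
          rw [if_neg (row_ne_fl k), if_neg (row_ne_tp k)]
          by_cases hk : k = i
          · rw [hk, if_pos rfl]
          · by_cases hk' : k = j
            · rw [hk', if_neg n0.symm, if_pos rfl]
            · have h1 := hrow k hk hk'
              have h2 : row k ≠ p (row i) := by
                intro e
                rcases hc with hc | hc
                · exact row_ne_fl k (by rw [e, hc.1])
                · exact row_ne_tp k (by rw [e, hc.1])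
              have h3 : row k ≠ p (row j) := by
                intro e
                rcases hc with hc | hc
                · exact row_ne_tp k (by rw [e, hc.2])
                · exact row_ne_fl k (by rw [e, hc.2])
              rw [if_neg (row_ne_row hk), if_neg (row_ne_row hk'), if_neg h2, if_neg h3, h1]
        | ax k =>
          rw [if_neg (ax_ne_fl k), if_neg (ax_ne_tp k), ← pcut_apply n0 hi hj e1]
          exact (cut_fix n0 hi hj e1 _).2 (Or.inr (Or.inr (hA k)))

/-- Every live state leads to the full state. -/
theorem leads_full (hw : ∀ i, WP (w i)) : ∀ (n : ℕ) (p : Pat (Site N)), (occ p).card ≤ n → AxE p → p fl ≠ tp →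
    p ≠ Pat.empty → ∃ c : ℕ, Leads ((colW w)^[c]) p (HS.full fl tp)
  | n, p, hn, hA, hl, hne => by
    obtain ⟨q, h1, h2, h3⟩ := exists_step hw hA hl hne
    rcases h3 with h3 | ⟨h3, h4, h5⟩
    · subst h3
      exact ⟨1, h1⟩
    · match n, hn with
      | 0, hn => omega
      | n + 1, hn =>
        obtain ⟨c, hc⟩ := leads_full hw n q (by omega) h2 h3 h4
        exact ⟨c + 1, Leads.iterate_succ (pos_colW hw) h1 hc⟩

theorem coReach (hw : ∀ i, WP (w i)) {A : Pat (Site N) → Prop} (hA : ∀ p, A p → AxE p) :
    HS.CoReach A fl tp (colW w) := by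
  intro p hp hAp
  obtain ⟨c, w', hw', h⟩ := leads_full hw _ p le_rfl (hA p hAp) hp.1 hp.2
  refine ⟨c, ?_⟩
  have h1 := h (HS.ind (HS.full fl tp)) (fun s => ?_)
  · rw [HS.ind_self, mul_one] at h1
    exact lt_of_lt_of_le hw' h1
  · by_cases hs : s = HS.full fl tp
    · rw [hs, HS.ind_self]; exact zero_le_one
    · rw [HS.ind_ne hs]

/-- Every planar state other than those with a completed walk is reached from the empty state. -/
theorem leads_from_empty (hw : ∀ i, WP (w i)) : ∀ (n : ℕ) (p : Pat (Site N)),
    (Finset.univ.filter (fun s => p s ≠ s)).card ≤ n → AN N p → p fl ≠ tp →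
    ∃ a : ℕ, Leads ((colW w)^[a]) Pat.empty p := by
  classical
  intro n
  induction n with
  | zero =>
    intro p hn _ _
    have he : p = Pat.empty := by
      ext s
      by_contra hs
      have : s ∈ Finset.univ.filter (fun s => p s ≠ s) := Finset.mem_filter.2 ⟨Finset.mem_univ _, hs⟩
      rw [Finset.card_eq_zero.1 (Nat.le_zero.1 hn)] at this
      exact absurd this (Finset.notMem_empty _)
    exact ⟨0, by rw [he]; exact Leads.id _⟩
  | succ n ih =>
    intro p hn hA hl
    by_cases he : p = Pat.empty
    · exact ⟨0, by rw [he]; exact Leads.id _⟩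
    obtain ⟨x, y, hxy, hlt, hbet⟩ := exists_innermost rk_injOn hA (HS.Pat.ne_empty_iff.1 he)
    have hne : x ≠ y := fun e => by rw [e] at hlt; exact lt_irrefl _ hlt
    set q := rem x y p hxy with hq
    have hyx : p y = x := by rw [← hxy, p.inv]
    have qx : q x = x := by rw [hq, rem_apply, if_pos rfl]
    have qy : q y = y := by rw [hq, rem_apply, if_neg hne.symm, if_pos rfl]
    have qo : ∀ z, p z = z → q z = z := by
      intro z hz
      rw [hq, rem_apply]
      split_ifs with h2 h3
      · exact h2.symm
      · exact h3.symm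
      · exact hz
    have hqA : AN N q := pd_rem hA hxy
    have hqax := AN_axE hqA
    have hql : q fl ≠ tp := by
      intro e
      rw [hq, rem_apply] at e
      split_ifs at e with h2 h3
      · exact fl_ne_tp (h2.trans e)
      · exact fl_ne_tp (h3.trans e)
      · exact hl e
    have hcard : (Finset.univ.filter (fun s => q s ≠ s)).card ≤ n := by
      have : (Finset.univ.filter (fun s => q s ≠ s)).card <
          (Finset.univ.filter (fun s => p s ≠ s)).card := by
        apply Finset.card_lt_card
        rw [Finset.ssubset_iff_of_subset]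
        · refine ⟨x, Finset.mem_filter.2 ⟨Finset.mem_univ _, by rw [hxy]; exact hne.symm⟩, ?_⟩
          intro h
          exact (Finset.mem_filter.1 h).2 qx
        · intro s hs
          exact Finset.mem_filter.2 ⟨Finset.mem_univ _, fun e => (Finset.mem_filter.1 hs).2 (qo s e)⟩
      omega
    obtain ⟨a, ha⟩ := ih q hcard hqA hql
    have hcup : cup x y q = p := cup_rem hxy hne
    have hrow : ∀ k : Fin N, rk x < rk (row k) → rk (row k) < rk y → q (row k) = row k :=
      fun k h1 h2 => qo _ (hbet _ h1 h2)
    have key : Leads (colW w) q p := by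
      rw [← hcup]
      have hxD := hA.occ (x := x) (by rw [hxy]; exact hne.symm)
      have hyD := hA.occ (x := y) (by rw [hyx]; exact hne)
      cases x with
      | fl =>
        cases y with
        | fl => exact absurd rfl hne
        | tp => exact absurd hxy hl
        | row j =>
          refine move_floor_create hw (hqax 0) qx qy (fun k hk => hrow k ?_ ?_)
          · simp only [Site.rk]; omega
          · simp only [Site.rk]
            have : (k : ℕ) < j := hk
            omega
        | ax k => exact absurd rfl (hyD k)
      | tp =>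
        exfalso
        cases y with
        | fl => simp only [Site.rk] at hlt; omega
        | tp => exact hne rfl
        | row j => simp only [Site.rk] at hlt; have := j.2; omega
        | ax k => exact absurd rfl (hyD k)
      | row i =>
        cases y with
        | fl => exfalso; simp only [Site.rk] at hlt; omega
        | tp =>
          refine move_top_create hw (hqax 0) qy qx (fun k hk => hrow k ?_ ?_)
          · simp only [Site.rk]
            have : (i : ℕ) < k := hk
            omega
          · simp only [Site.rk]
            have := k.2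
            omega
        | row j =>
          have hij : i < j := by
            simp only [Site.rk] at hlt
            exact Fin.lt_def.2 (by omega)
          refine move_create hw hij (hqax 0) qx qy (fun k hk1 hk2 => hrow k ?_ ?_)
          · simp only [Site.rk]
            have : (i : ℕ) < k := hk1
            omega
          · simp only [Site.rk]
            have : (k : ℕ) < j := hk2
            omega
        | ax k => exact absurd rfl (hyD k)
      | ax k => exact absurd rfl (hxD k)
    have h1 : Leads ((colW w)^[1]) q p := key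
    exact ⟨a + 1, Leads.iterate_add (pos_colW hw) ha h1⟩

/-- Reachability. -/
theorem reach (hw : ∀ i, WP (w i)) : HS.Reach (AN N) fl tp (colW w) := by
  classical
  intro p hp hA
  obtain ⟨a, w', hw', h⟩ := leads_from_empty hw _ p le_rfl hA hp.1
  refine ⟨a, w', hw', fun F hF => ?_⟩
  have hG := (good_colW w).iterate a
  -- decomposition of `F`
  set E : Pat (Site N) → ℝ := fun q => if q = Pat.empty then 1 else 0 with hE
  set F' : Pat (Site N) → ℝ := fun q => if q = Pat.empty then 0 else F q with hF'
  have e1 : F = fun q => F' q + F Pat.empty * E q := by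
    funext q
    simp only [hE, hF']
    by_cases hq : q = Pat.empty
    · rw [if_pos hq, if_pos hq, hq]; ring
    · rw [if_neg hq, if_neg hq]; ring
  have e2 : (colW w)^[a] E = E := hG.emp E (fun q hq => by simp only [hE, if_neg hq])
  have e3 : (colW w)^[a] F = fun q => (colW w)^[a] F' q + F Pat.empty * (colW w)^[a] E q := by
    conv_lhs => rw [e1]
    exact hG.lin.addSmul F' E (F Pat.empty)
  rw [e3, e2]
  have h1 := h F' (fun s => by
    simp only [hF']
    split_ifs
    · exact le_rfl
    · exact hF s)
  have h2 : F' p = F p := by simp only [hF', if_neg hp.2]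
  have h3 : E Pat.empty = 1 := by simp only [hE, if_true]
  rw [h2] at h1
  simp only [h3, mul_one]
  linarith


/-! ### The rows of the model -/

theorem wR_WP {u : ℝ} (h1 : Real.pi / 8 ≤ u) (h2 : u ≤ Real.pi / 4) : WP (wR u) := by
  have hp := Real.pi_pos
  exact ⟨wR_v_pos (by linarith) (by linarith), wR_u1_pos (by linarith) (by linarith),
    wR_u2_pos (by linarith) (by linarith), wR_w1_nonneg (by linarith) h2, wR_w2_nonneg h1 h2⟩

theorem colX_WP {x : Fin N → ℝ} (hx : ∀ k, |x k| ≤ Real.pi / 16) (k : Fin N) :
    WP (wR (3 * Real.pi / 16 - x k)) := by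
  have h := abs_le.1 (hx k)
  exact wR_WP (by linarith [h.2]) (by linarith [h.1])

/-- **M3.** -/
theorem reach_colX {x : Fin N → ℝ} (hx : ∀ k, |x k| ≤ Real.pi / 16) :
    HS.Reach (AN N) fl tp (colX x) := reach (colX_WP hx)

/-- **M3.** -/
theorem coReach_colX {x : Fin N → ℝ} (hx : ∀ k, |x k| ≤ Real.pi / 16) :
    HS.CoReach (AN N) fl tp (colX x) := coReach (colX_WP hx) (fun _ h => AN_axE h)

end Pool.Agent.UNI.Mv
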