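import Pool.Agent.UNI.Sharp
import Pool.Agent.UNI.Ext
import Pool.Agent.UNI.Reach4

/-!
# UNIV: the theorem for the walks
-/

set_option autoImplicit false

namespace Pool.Agent.UNI

open Filter Topology Pool.Agent.EXL EXS EXS.Univ
open scoped ENNReal

/-- M3. -/
theorem rch (N : ℕ) : Rch N := fun _ hx => ⟨Mv.reach_colX hx, Mv.coReach_colX hx⟩

/-- the Euclidean height of the first `N` rows. -/
noncomputable def Hu (u : ℤ → ℝ) (N : ℕ) : ℝ := ∑ k ∈ Finset.range N, Real.sin (8 * u k / 3)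

/-- the rows in the symmetric parametrisation. -/
noncomputable def xu (u : ℤ → ℝ) (N : ℕ) : Fin N → ℝ := fun k => 3 * Real.pi / 16 - u ((k : ℕ) : ℤ)

theorem Hu_eq (u : ℤ → ℝ) (N : ℕ) : Hu u N = hgt (xu u N) := by
  unfold Hu hgt xu
  rw [Finset.sum_range (fun k => Real.sin (8 * u (k : ℤ) / 3))]
  refine Finset.sum_congr rfl fun k _ => ?_
  rw [show 8 * (3 * Real.pi / 16 - u ((k : ℕ) : ℤ)) / 3 = Real.pi / 2 - 8 * u ((k : ℕ) : ℤ) / 3 by ring,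
    Real.cos_pi_div_two_sub]

theorem xu_win {u : ℤ → ℝ} (hu : ∀ k, Real.pi / 8 ≤ u k ∧ u k ≤ Real.pi / 4) (N : ℕ) (k : Fin N) :
    |xu u N k| ≤ Real.pi / 16 := by
  have := hu ((k : ℕ) : ℤ)
  unfold xu
  rw [abs_le]
  constructor <;> linarith

theorem colX_xu (u : ℤ → ℝ) (N : ℕ) :
    colX (xu u N) = colW (fun i : Fin N => (fun k : ℤ => wR (u k)) ((i : ℕ) : ℤ)) := by
  unfold colX xu
  simp only [sub_sub_cancel]

/-- the total weight of the crossings of the first `N` rows. -/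
noncomputable def Bu (u : ℤ → ℝ) (N : ℕ) : ℝ≥0∞ := Bcr N fun k => wR (u k)

theorem Bu_eq {u : ℤ → ℝ} (hu : ∀ k, Real.pi / 8 ≤ u k ∧ u k ≤ Real.pi / 4) {N : ℕ} (hN : 1 ≤ N)
    {M : ℝ} (hM : ∀ m, DD Site.fl Site.tp (colX (xu u N)) m ≤ M) :
    Bu u N = ENNReal.ofReal (Bx N (xu u N)) := by
  have hw : ∀ i : ℤ, (wR (u i)).Nn := fun i => wR_nn (hu i).1 (hu i).2
  rw [colX_xu] at hM
  have h := Bcr_eq_BB (w := fun k => wR (u k)) hN hw hM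
  unfold Bu Bx
  rw [h, colX_xu]

theorem Bx_nonneg {u : ℤ → ℝ} (hu : ∀ k, Real.pi / 8 ≤ u k ∧ u k ≤ Real.pi / 4) {N : ℕ}
    {M : ℝ} (hM : ∀ m, DD Site.fl Site.tp (colX (xu u N)) m ≤ M) : 0 ≤ Bx N (xu u N) :=
  (DD_nonneg (posOp_colX (xu_win hu N)) (good_colX _) 0).trans (DD_le_BB hM 0)

/-- the weight is finite for every number of rows. -/
theorem Bu_ne_top {u : ℤ → ℝ} (hu : ∀ k, Real.pi / 8 ≤ u k ∧ u k ≤ Real.pi / 4) (N : ℕ) :
    Bu u N ≠ ∞ := by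
  have hp := Real.pi_pos
  obtain ⟨M, N0, h1, h2⟩ := bdd_of_rows fun N _ => rch N
  refine Bcr_ne_top_of (fun i => wR_nn (hu i).1 (hu i).2) (fun i => wR_v_pos (by
    have := (hu i).1
    linarith) (by
    have := (hu i).2
    linarith)) (N := N) N0 ?_
  have h3 := Bu_eq hu (N := N + N0) (by omega) (h2 (N + N0) (by omega) _ (xu_win hu _))
  unfold Bu at h3
  rw [h3]
  exact ENNReal.ofReal_ne_top

/-- the honeycomb rows. -/
theorem Bu_hex {N : ℕ} (hN : 1 ≤ N) : Bu (fun _ => Real.pi / 8) N = ENNReal.ofReal (HexObs.bT N) := by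
  have hp := Real.pi_pos
  have hu : ∀ k : ℤ, Real.pi / 8 ≤ (fun _ : ℤ => Real.pi / 8) k ∧
      (fun _ : ℤ => Real.pi / 8) k ≤ Real.pi / 4 := fun k => ⟨le_rfl, by
    show Real.pi / 8 ≤ Real.pi / 4
    linarith⟩
  have e : xu (fun _ => Real.pi / 8) N = fun _ => Real.pi / 16 := by
    funext k
    unfold xu
    ring
  have h := Bu_eq hu hN (M := HexObs.bT N) (by
    intro m
    rw [e, colX_hex]
    exact DD_hex hN m)
  rw [h, e, Bx_hex hN]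

/-- **UNIV**: the critical weight of the crossings of every strip of rhombi with Yang–Baxter weights. -/
theorem univ_Bu {c : ℝ} (hc : 0 < c)
    (hlow : ∀ N : ℕ, 1 ≤ N → c * (N : ℝ) ^ (-(1 / 4) : ℝ) ≤ HexObs.bT N) :
    ∃ b : ℝ, 0 < b ∧ ∀ ε : ℝ, 0 < ε → ∃ R : ℝ, ∀ u : ℤ → ℝ,
      (∀ k, Real.pi / 8 ≤ u k ∧ u k ≤ Real.pi / 4) → ∀ N : ℕ, R ≤ Hu u N →
        |Hu u N ^ (1 / 4 : ℝ) * (Bu u N).toReal - b| ≤ ε := by
  obtain ⟨b, hb, h⟩ := univ_Bx (fun N _ => rch N) hc hlow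
  refine ⟨b, hb, fun ε hε => ?_⟩
  obtain ⟨R, hR⟩ := h ε hε
  refine ⟨R, fun u hu N hH => ?_⟩
  rw [Hu_eq] at hH ⊢
  obtain ⟨hN, ⟨M, hM⟩, h2⟩ := hR N (xu u N) (xu_win hu N) hH
  rw [Bu_eq hu hN hM, ENNReal.toReal_ofReal (Bx_nonneg hu hM)]
  exact h2

end Pool.Agent.UNI
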