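import Pool.Agent.UNI.Fin4
import Pool.Agent.EXG.SharpB
import Pool.Agent.Ex.P2Main
import Pool.Agent.EXL.GlFin

/-!
# UNIV: the constant
-/

set_option autoImplicit false

namespace Pool.Agent.UNI

open Filter Topology Pool.Agent.EXL EXS EXS.Univ
open scoped ENNReal

/-- the universal constant. -/
noncomputable def bU : ℝ :=
  8 * Real.sin (Real.pi / 8) * Real.Gamma (3 / 4) / (3 ^ (3 / 4 : ℝ) * Real.sqrt Real.pi)

theorem bU_pos : 0 < bU := by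
  have h1 : 0 < Real.sin (Real.pi / 8) :=
    Real.sin_pos_of_pos_of_lt_pi (by positivity) (by linarith [Real.pi_pos])
  have h2 : 0 < Real.Gamma (3 / 4) := Real.Gamma_pos_of_pos (by norm_num)
  unfold bU
  positivity

theorem bU_eq : (Real.sqrt 3 / 2) ^ (1 / 4 : ℝ) * EXG.bB = bU := by
  have h3 : (0 : ℝ) < 3 := by norm_num
  have h2 : (0 : ℝ) < 2 := by norm_num
  have e1 : (Real.sqrt 3 / 2) ^ (1 / 4 : ℝ) = 3 ^ (1 / 8 : ℝ) * 2 ^ (-(1 / 4) : ℝ) := by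
    rw [Real.div_rpow (Real.sqrt_nonneg 3) h2.le, Real.sqrt_eq_rpow, ← Real.rpow_mul h3.le,
      Real.rpow_neg h2.le, div_eq_mul_inv]
    norm_num
  have e2 : (2 : ℝ) ^ (-(1 / 4) : ℝ) * 2 ^ (13 / 4 : ℝ) = 8 := by
    rw [← Real.rpow_add h2]
    norm_num
  have e3 : (3 : ℝ) ^ (1 / 8 : ℝ) * 3 ^ (-(7 / 8) : ℝ) = (3 ^ (3 / 4 : ℝ))⁻¹ := by
    rw [← Real.rpow_add h3, ← Real.rpow_neg h3.le]
    norm_num
  unfold EXG.bB bU
  rw [e1]
  calc 3 ^ (1 / 8 : ℝ) * 2 ^ (-(1 / 4) : ℝ) * (2 ^ (13 / 4 : ℝ) * 3 ^ (-(7 / 8) : ℝ) *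
        Real.sin (Real.pi / 8) * Real.Gamma (3 / 4) / Real.sqrt Real.pi)
      = ((2 : ℝ) ^ (-(1 / 4) : ℝ) * 2 ^ (13 / 4 : ℝ)) * ((3 : ℝ) ^ (1 / 8 : ℝ) * 3 ^ (-(7 / 8) : ℝ)) *
        (Real.sin (Real.pi / 8) * Real.Gamma (3 / 4) / Real.sqrt Real.pi) := by ring
    _ = _ := by
      rw [e2, e3]
      field_simp

/-- sharp asymptotics for the honeycomb lattice. -/
theorem sharp_hex : Tendsto (fun n : ℕ => HexObs.bT n * (n : ℝ) ^ (1 / 4 : ℝ)) atTop (𝓝 EXG.bB) :=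
  EXG.sharp_b (fun n => HexObs.bT_nonneg n) (fun _ _ h => Pool.Agent.EXL.bT_anti h) (fun _ => rfl)
    Pool.Agent.EXL.Glue.relE_bT

theorem low_hex : ∃ c : ℝ, 0 < c ∧ ∀ N : ℕ, 1 ≤ N → c * (N : ℝ) ^ (-(1 / 4) : ℝ) ≤ HexObs.bT N := by
  obtain ⟨C, hC, h⟩ := Ex.P2.main (fun n => HexObs.bT_nonneg n)
    (fun _ _ h => Pool.Agent.EXL.bT_anti h) (fun _ => rfl) Pool.Agent.EXL.Glue.relE_bT
  refine ⟨1 / C, by positivity, fun N hN => ?_⟩
  rw [one_div, inv_mul_eq_div]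
  exact (h N hN).1

/-- the height of the honeycomb rows. -/
theorem Hu_hex (N : ℕ) : Hu (fun _ => Real.pi / 8) N = N * (Real.sqrt 3 / 2) := by
  unfold Hu
  rw [Finset.sum_const, Finset.card_range, nsmul_eq_mul]
  congr 1
  rw [← Real.sin_pi_div_three]
  congr 1
  ring

/-- **UNIV with the explicit constant**: the critical weight of the crossings of every strip of rhombi
with Yang–Baxter weights is `bU H^(-1/4) (1 + o(1))`, `H` = Euclidean height, uniformly in the strip. -/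
theorem univ_explicit : ∀ ε : ℝ, 0 < ε → ∃ R : ℝ, ∀ u : ℤ → ℝ,
    (∀ k, Real.pi / 8 ≤ u k ∧ u k ≤ Real.pi / 4) → ∀ N : ℕ, R ≤ Hu u N →
      |Hu u N ^ (1 / 4 : ℝ) * (Bu u N).toReal - bU| ≤ ε := by
  obtain ⟨c, hc, hlow⟩ := low_hex
  obtain ⟨b, -, h⟩ := univ_Bu hc hlow
  have hp := Real.pi_pos
  have hu : ∀ k : ℤ, Real.pi / 8 ≤ (fun _ : ℤ => Real.pi / 8) k ∧
      (fun _ : ℤ => Real.pi / 8) k ≤ Real.pi / 4 := fun k => ⟨le_rfl, by
    show Real.pi / 8 ≤ Real.pi / 4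
    linarith⟩
  have h3 : 0 < Real.sqrt 3 / 2 := by positivity
  have t1 : Tendsto (fun N : ℕ => Hu (fun _ => Real.pi / 8) N ^ (1 / 4 : ℝ) *
      (Bu (fun _ => Real.pi / 8) N).toReal) atTop (𝓝 b) := by
    rw [Metric.tendsto_atTop]
    intro ε hε
    obtain ⟨R, hR⟩ := h (ε / 2) (by positivity)
    obtain ⟨N0, hN0⟩ := exists_nat_ge (R / (Real.sqrt 3 / 2))
    refine ⟨N0, fun N hN => ?_⟩
    rw [Real.dist_eq]
    refine lt_of_le_of_lt (hR _ hu N ?_) (half_lt_self hε)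
    rw [Hu_hex]
    have h4 : (N0 : ℝ) ≤ N := by exact_mod_cast hN
    rw [div_le_iff₀ h3] at hN0
    exact hN0.trans (mul_le_mul_of_nonneg_right h4 h3.le)
  have t2 : Tendsto (fun N : ℕ => Hu (fun _ => Real.pi / 8) N ^ (1 / 4 : ℝ) *
      (Bu (fun _ => Real.pi / 8) N).toReal) atTop (𝓝 bU) := by
    have h5 := sharp_hex.const_mul ((Real.sqrt 3 / 2) ^ (1 / 4 : ℝ))
    rw [bU_eq] at h5
    refine h5.congr' ?_
    filter_upwards [eventually_ge_atTop 1] with N hN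
    rw [Bu_hex hN, ENNReal.toReal_ofReal (HexObs.bT_nonneg N), Hu_hex,
      Real.mul_rpow (Nat.cast_nonneg N) h3.le]
    ring
  rw [← tendsto_nhds_unique t1 t2]
  exact h

end Pool.Agent.UNI
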