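import Pool.Agent.UNI.WtR
import Pool.Agent.EXL.GlLat
import Pool.Agent.EXL.LawsInst
import Pool.Agent.EXS.Main

/-!
# UNIV, M4(b): the half strip number at a point of the window is a limit of closing values
-/

set_option autoImplicit false

namespace Pool.Agent.UNI

open Filter Topology Pool.Agent.EXL

/-- there are distinct nodes near every point of the closed window. -/
theorem nd_neBot {N : ℕ} {a : Fin N → ℝ} (h0 : ∀ k, 0 ≤ a k) (h1 : ∀ k, a k ≤ Real.pi / 16) :
    (𝓝[{y | Cl.Nd y}] a).NeBot := by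
  have hp := Real.pi_pos
  have hN : (0 : ℝ) < (N : ℝ) + 1 := by positivity
  set c : Fin N → ℝ := fun k => Real.pi / 16 * ((((k : ℕ) : ℝ) + 1) / ((N : ℝ) + 1)) with hc
  have hc0 : ∀ k, 0 < c k := fun k => by
    simp only [hc]
    positivity
  have hc1 : ∀ k, c k < Real.pi / 16 := fun k => by
    simp only [hc]
    have h2 : (((k : ℕ) : ℝ) + 1) / ((N : ℝ) + 1) < 1 := by
      rw [div_lt_one hN]
      have : ((k : ℕ) : ℝ) < N := by exact_mod_cast k.2
      linarith
    calc Real.pi / 16 * ((((k : ℕ) : ℝ) + 1) / ((N : ℝ) + 1)) < Real.pi / 16 * 1 :=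
          mul_lt_mul_of_pos_left h2 (by positivity)
      _ = Real.pi / 16 := mul_one _
  have hcinj : ∀ i j, i ≠ j → c i ≠ c j := by
    intro i j hij h
    apply hij
    simp only [hc] at h
    have h2 := mul_left_cancel₀ (by positivity : Real.pi / 16 ≠ 0) h
    rw [div_left_inj' hN.ne'] at h2
    have h3 : ((i : ℕ) : ℝ) = ((j : ℕ) : ℝ) := by linarith
    exact Fin.ext (by exact_mod_cast h3)
  set y : ℝ → Fin N → ℝ := fun t k => (1 - t) * a k + t * c k with hy
  have hcont : ∀ k, Continuous fun t => y t k := fun k => by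
    simp only [hy]
    fun_prop
  have ht : Tendsto y (𝓝[>] 0) (𝓝 a) := by
    rw [tendsto_pi_nhds]
    intro k
    have h2 := ((hcont k).tendsto 0).mono_left (nhdsWithin_le_nhds (s := Set.Ioi 0))
    have h3 : y 0 k = a k := by simp [hy]
    rwa [h3] at h2
  have hinj : ∀ i j, i ≠ j → ∀ᶠ t in 𝓝[>] (0 : ℝ), y t i ≠ y t j := by
    intro i j hij
    by_cases haij : a i = a j
    · filter_upwards [self_mem_nhdsWithin] with t ht h
      have ht' : (0 : ℝ) < t := ht
      simp only [hy, haij] at h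
      exact hcinj i j hij (mul_left_cancel₀ ht'.ne' (add_left_cancel h))
    · have h2 : ContinuousAt (fun t => y t i - y t j) 0 :=
        ((hcont i).sub (hcont j)).continuousAt
      have h3 : y 0 i - y 0 j ≠ 0 := by
        have e1 : y 0 i = a i := by simp [hy]
        have e2 : y 0 j = a j := by simp [hy]
        rw [e1, e2]
        exact sub_ne_zero.2 haij
      exact ((h2.eventually_ne h3).filter_mono nhdsWithin_le_nhds).mono fun t h => sub_ne_zero.1 h
  have hev : ∀ᶠ t in 𝓝[>] (0 : ℝ), y t ∈ {y | Cl.Nd y} := by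
    have h2 : ∀ᶠ t in 𝓝[>] (0 : ℝ), ∀ i j, i ≠ j → y t i ≠ y t j := by
      rw [eventually_all]
      intro i
      rw [eventually_all]
      intro j
      by_cases hij : i = j
      · exact Eventually.of_forall fun t h => absurd hij h
      · filter_upwards [hinj i j hij] with t h _
        exact h
    filter_upwards [h2, Ioo_mem_nhdsGT (show (0 : ℝ) < 1 by norm_num)] with t h3 h4
    refine ⟨fun i j h => ?_, fun k => ?_, fun k => ?_⟩
    · by_contra hij
      exact h3 i j hij h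
    · simp only [hy]
      have := mul_nonneg (sub_nonneg.2 h4.2.le) (h0 k)
      have := mul_pos h4.1 (hc0 k)
      linarith
    · simp only [hy]
      have := mul_le_mul_of_nonneg_left (h1 k) (sub_nonneg.2 h4.2.le)
      have := mul_lt_mul_of_pos_left (hc1 k) h4.1
      linarith
  exact (tendsto_nhdsWithin_iff.2 ⟨ht, hev⟩).neBot

/-- the sign of a row. -/
noncomputable def sg (t : ℝ) : ℝ := if t < 0 then -1 else 1

theorem sg_mul_abs (t : ℝ) : sg t * |t| = t := by
  unfold sg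
  split_ifs with h
  · rw [abs_of_neg h]
    ring
  · rw [abs_of_nonneg (not_lt.1 h)]
    ring

/-- the signed version of `bf_all` at `N` rows. -/
def BFS (N : ℕ) : Prop := ∀ y : Fin N → ℝ, Cl.Nd y → ∀ z : LbN N → ℂ,
  (∀ k, z (Sum.inl k) = (y k : ℂ) ∨ z (Sum.inl k) = -(y k : ℂ)) →
  ∀ (F : Pat (Site N) → ℂ) (e : Pat (Site N) → ℂ) (b : ℂ → ℂ) (B : ℂ),
    Glob.Half (ops (LN N)) okR okC z (rowsN N) (axN N) (HS.Nsub (AN N)) F e b B →
    F (HS.full Site.fl Site.tp) = 1 →
    (∀ v, Glob.Adm (ops (LN N)) okR okC z (rowsN N) v →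
      b v = (ops (LN N)).T z (Sum.inr 0) (Sum.inr 1) v (rowsN N) F Pat.empty) →
    ∃ (f : ℂ → ℂ) (ρ : ℂ), Cl.BF y f B ρ

/-- **M4(b)**: the number of the half strip function at a point of the window is a limit of closing
values at distinct nodes. -/
theorem gen_lim_of {N : ℕ} (hbf : BFS N) {x : Fin N → ℝ} (hx : ∀ k, |x k| ≤ Real.pi / 16)
    {β : ℝ} {F₀ : Pat (Site N) → ℝ} (hh : HS.Half Site.fl Site.tp (AN N) (colX x) β F₀)
    (hi : HS.Inj Site.fl Site.tp (AN N) (colX x)) {ε : ℝ} (hε : 0 < ε) :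
    ∃ (y : Fin N → ℝ) (s0 : ℝ) (s : Fin N → ℝ), EXS.SD y s0 s ∧ (∀ k, |abs (x k) - y k| ≤ ε) ∧
      abs (abs β - abs (EXS.SS y s0 s EXS.cst)) ≤ ε := by
  have hp := Real.pi_pos
  set a : Fin N → ℝ := fun k => |x k| with ha
  set z : (Fin N → ℝ) → LbN N → ℂ := fun y => zx fun k => sg (x k) * y k with hz
  have hza : z a = zx x := by
    simp only [hz, ha, sg_mul_abs]
  have hcont : ∀ r ∈ rowsN N, ContinuousAt (fun y => z y r) a := by
    intro r hr
    unfold rowsN at hr
    obtain ⟨k, -, rfl⟩ := List.mem_map.1 hr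
    have e : (fun y => z y (Sum.inl k)) = fun y => ((sg (x k) * y k : ℝ) : ℂ) := rfl
    rw [e]
    exact (Complex.continuous_ofReal.comp
      (continuous_const.mul (continuous_apply k))).continuousAt
  have hok : ∀ r ∈ rowsN N, okR ((ops (LN N)).h - z a r) := by
    intro r hr
    unfold rowsN at hr
    obtain ⟨k, -, rfl⟩ := List.mem_map.1 hr
    rw [hza, ops_h, show zx x (Sum.inl k) = (x k : ℂ) from rfl]
    have h1 := abs_le.1 (hx k)
    have := okR_main (u := 3 * Real.pi / 16 - x k) (by linarith) (by linarith)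
    push_cast at this
    exact this
  have hc : (Sum.inr 0 : LbN N) ∈ axN N := ⟨0, rfl⟩
  have hc1 : (Sum.inr 1 : LbN N) ∈ axN N := ⟨1, rfl⟩
  have hc2 : (Sum.inr 2 : LbN N) ∈ axN N := ⟨2, rfl⟩
  have h01 : (Sum.inr 0 : LbN N) ≠ Sum.inr 1 := by simp
  have hreal : ∀ G : Pat (Site N) → ℝ,
      (fun F => (ops (LN N)).C (z a) (Sum.inr 0) (rowsN N) F) (fun p => (G p : ℂ)) =
        fun p => (colX x G p : ℂ) := by
    intro G
    rw [hza]
    exact opsC_colX x G
  have hgood : HS.Good Site.fl Site.tp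
      (fun F => (ops (LN N)).C (z a) (Sum.inr 0) (rowsN N) F) :=
    HS.good_opsC (L := LN N) (z a) (row_notMem N _ hc)
  have hinj : HS.Inj (LN N).flo (LN N).cei (AN N)
      (fun F => (ops (LN N)).C (z a) (Sum.inr 0) (rowsN N) F) := HS.inj_cx hgood.lin hreal hi
  obtain ⟨F, B, hBc, -, -, -, hev⟩ := HS.H1 (setupN N) (Ins.laws (LN N)) z hcont hok hc hc hc1 h01 hinj
  have hB : B a = (β : ℂ) := by
    obtain ⟨-, -, h1, h2, -⟩ := hev.self_of_nhds
    exact (HS.Half.unique (LN N).flo_ne (AN_empty N) hgood ((setupN N).presC _ _ hc) h2 h1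
      (HS.half_cx hreal hh)).1
  have hBlim : Tendsto B (𝓝[{y | Cl.Nd y}] a) (𝓝 (β : ℂ)) := by
    rw [← hB]
    exact hBc.tendsto.mono_left nhdsWithin_le_nhds
  have e1 : ∀ᶠ y in 𝓝[{y | Cl.Nd y}] a, ‖B y - (β : ℂ)‖ < ε := by
    have := Metric.tendsto_nhds.1 hBlim ε hε
    filter_upwards [this] with y hy
    rw [← dist_eq_norm]
    exact hy
  have e2 : ∀ᶠ y in 𝓝[{y | Cl.Nd y}] a, ∀ k, |y k - a k| < ε := by
    have h3 : ∀ᶠ y in 𝓝 a, ∀ k, |y k - a k| < ε := by
      filter_upwards [Metric.ball_mem_nhds a hε] with y hy k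
      have h4 := dist_le_pi_dist y a k
      rw [Real.dist_eq] at h4
      exact lt_of_le_of_lt h4 (Metric.mem_ball.1 hy)
    exact h3.filter_mono nhdsWithin_le_nhds
  have e3 : ∀ᶠ y in 𝓝[{y | Cl.Nd y}] a, Cl.Nd y := self_mem_nhdsWithin
  have : (𝓝[{y | Cl.Nd y}] a).NeBot := nd_neBot (fun k => abs_nonneg _) hx
  obtain ⟨y, h1, h2, h3, h4⟩ :=
    (e1.and (e2.and (e3.and (mem_nhdsWithin_of_mem_nhds hev)))).exists
  obtain ⟨-, hfull, -, -, hg⟩ := h4
  obtain ⟨f, ρ, hb⟩ := hbf y h3 (z y) (fun k => by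
    show ((sg (x k) * y k : ℝ) : ℂ) = _ ∨ ((sg (x k) * y k : ℝ) : ℂ) = _
    unfold sg
    split_ifs
    · right
      push_cast
      ring
    · left
      rw [one_mul]) (F y) _ _ (B y) hg hfull (fun v _ => rfl)
  obtain ⟨s0, s, hSD, hS⟩ := EXS.SD_of_ClOut h3 (Glue.clOut_of_bf h3 hb)
  refine ⟨y, s0, s, hSD, fun k => ?_, ?_⟩
  · rw [abs_sub_comm]
    exact (h2 k).le
  · rw [← hS]
    have h5 : |β| = ‖(β : ℂ)‖ := by
      rw [Complex.norm_real, Real.norm_eq_abs]
    rw [h5]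
    refine (abs_norm_sub_norm_le _ _).trans ?_
    rw [norm_sub_rev]
    exact h1.le

end Pool.Agent.UNI
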