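import Pool.Agent.UNI.Explore

/-!
# UNIV: walks through the faces and their weights; the network of the grid is the sum over the walks

A walk through the faces of `ℤ × ℤ` is described by the face `v` and the side `d` through which it
leaves `v`, and the list of the sides through which it leaves the following faces.
-/

set_option autoImplicit false

namespace Pool.Agent.UNI

open Pool.Agent.EXL Pool.Agent.EXL.Net HexObs HexObs.LP Pat

variable {K : Type*} [CommRing K]

/-! ### the model -/

/-- The passages (face, (side of entrance, side of exit)). -/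
def pas : Pt → Fin 4 → List (Fin 4) → List (Pt × (Fin 4 × Fin 4))
  | _, _, [] => []
  | v, d, b :: t => (v + vec d, (d + 2, b)) :: pas (v + vec d) b t

/-- The face that is entered at the end. -/
def endF : Pt → Fin 4 → List (Fin 4) → Pt
  | v, d, [] => v + vec d
  | v, d, b :: t => endF (v + vec d) b t

/-- The weight of a face with one passage from the side `a` to the side `b`. -/
def one (w : Wt K) (a b : Fin 4) : K :=
  if b = a then 0 else if b = a + 2 then w.v else if a + b = 1 then w.u1 else w.u2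

/-- The weight of a face with the passages from `a` to `b` and from `c` to `d`. -/
def two (w : Wt K) (a b c d : Fin 4) : K :=
  if (c = a + 2 ∧ d = b + 2) ∨ (c = b + 2 ∧ d = a + 2) then
    (if a + b = 1 then w.w1 else if a + b = 3 then w.w2 else 0) else 0

/-- The weight of a face with a given list of passages. -/
def loc (w : Wt K) : List (Fin 4 × Fin 4) → K
  | [] => 1
  | [x] => one w x.1 x.2
  | [x, y] => two w x.1 x.2 y.1 y.2
  | _ => 0

/-- The passages of the face `u`. -/
def at' (l : List (Pt × (Fin 4 × Fin 4))) (u : Pt) : List (Fin 4 × Fin 4) :=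
  (l.filter (fun x => x.1 = u)).map Prod.snd

/-- The weight of a walk: product over the faces; the weights depend on the row. -/
def wgt (w : ℤ → Wt K) (v : Pt) (d : Fin 4) (t : List (Fin 4)) : K :=
  ∏ u ∈ ((pas v d t).map Prod.fst).toFinset, loc (w u.2) (at' (pas v d t) u)

/-- The walk enters the strip of `N` rows through the bottom side of the face `(0, 0)` and ends when
it leaves the strip through the top. -/
def Crs (N : ℕ) (t : List (Fin 4)) : Prop :=
  (∀ x ∈ pas (0, -1) 1 t, 0 ≤ x.1.2 ∧ x.1.2 < N) ∧ (endF (0, -1) 1 t).2 = N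

/-- The crossing, started in the column `j`, stays in the columns `0, ..., m - 1`. -/
def Fit (N : ℕ) (j m : ℤ) (t : List (Fin 4)) : Prop :=
  Crs N t ∧ ∀ x ∈ pas (0, -1) 1 t, 0 ≤ j + x.1.1 ∧ j + x.1.1 < m

instance (N : ℕ) (t : List (Fin 4)) : Decidable (Crs N t) := by unfold Crs; infer_instance

instance (N : ℕ) (j m : ℤ) (t : List (Fin 4)) : Decidable (Fit N j m t) := by
  unfold Fit; infer_instance

/-- The words of length at most `L`. -/
def Ws : ℕ → Finset (List (Fin 4))
  | 0 => {[]}
  | L + 1 => insert [] (Finset.univ.biUnion (fun b : Fin 4 => (Ws L).image (List.cons b)))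

theorem mem_Ws {L : ℕ} : ∀ {t : List (Fin 4)}, t ∈ Ws L ↔ t.length ≤ L := by
  induction L with
  | zero => intro t; simp [Ws]
  | succ L ih =>
    intro t
    rw [Ws, Finset.mem_insert, Finset.mem_biUnion]
    cases t with
    | nil => simp
    | cons b t => simp [ih]

theorem sum_Ws_succ (L : ℕ) (f : List (Fin 4) → K) :
    ∑ t ∈ Ws (L + 1), f t = f [] + ∑ b, ∑ t ∈ Ws L, f (b :: t) := by
  rw [Ws, Finset.sum_insert (by simp), Finset.sum_biUnion]
  · congr 1
    refine Finset.sum_congr rfl fun b _ => ?_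
    rw [Finset.sum_image]
    intro x _ y _ h
    exact (List.cons.inj h).2
  · intro x _ y _ h
    rw [Function.onFun, Finset.disjoint_left]
    intro t ht ht'
    rw [Finset.mem_image] at ht ht'
    obtain ⟨a, -, rfl⟩ := ht
    obtain ⟨b, -, hb⟩ := ht'
    exact h (List.cons.inj hb).1.symm

/-! ### the sum over the words -/

/-- The weight of a cell with a given list of passages. -/
def pw : Cell K → List (Fin 4 × Fin 4) → K
  | c, [] => c.e
  | c, x :: l => pw (c.res x.1 x.2) l

/-- The word leads from the half edge `(v, vec d)` inside `Ω` to one of the half edges `T`. -/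
def Val (Ω : Finset Pt) (T : Finset (Pt × Pt)) : Pt → Fin 4 → List (Fin 4) → Prop
  | v, d, [] => v + vec d ∉ Ω ∧ rv (v, vec d) ∈ T
  | v, d, b :: t => v + vec d ∈ Ω ∧ Val Ω T (v + vec d) b t

/-- The weight of a word. -/
def wσ (Ω : Finset Pt) (σ : Pt → Cell K) (v : Pt) (d : Fin 4) (t : List (Fin 4)) : K :=
  ∏ u ∈ Ω, pw (σ u) (at' (pas v d t) u)

theorem at'_cons (x : Pt × (Fin 4 × Fin 4)) (l : List (Pt × (Fin 4 × Fin 4))) (u : Pt) :
    at' (x :: l) u = if x.1 = u then x.2 :: at' l u else at' l u := by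
  unfold at'
  by_cases h : x.1 = u
  · simp [h]
  · simp [h]

theorem wσ_cons {Ω : Finset Pt} (σ : Pt → Cell K) (v : Pt) (d b : Fin 4) (t : List (Fin 4)) :
    wσ Ω σ v d (b :: t) = wσ Ω (Function.update σ (v + vec d) ((σ (v + vec d)).res (d + 2) b))
      (v + vec d) b t := by
  unfold wσ
  refine Finset.prod_congr rfl fun u _ => ?_
  rw [pas, at'_cons]
  by_cases h : v + vec d = u
  · subst h
    rw [if_pos rfl, Function.update_self, pw]
  · rw [if_neg h, Function.update_of_ne (Ne.symm h)]

open Classical in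
theorem Wf_eq (Ω : Finset Pt) (T : Finset (Pt × Pt)) (L : ℕ) : ∀ (σ : Pt → Cell K) (v : Pt)
    (d : Fin 4), Wf Ω T L σ v d = ∑ t ∈ Ws L, if Val Ω T v d t then wσ Ω σ v d t else 0 := by
  have nil : ∀ (σ : Pt → Cell K) (v : Pt) (d : Fin 4), v + vec d ∉ Ω →
      (if rv (v, vec d) ∈ T then ∏ u ∈ Ω, (σ u).e else 0) =
        if Val Ω T v d [] then wσ Ω σ v d [] else 0 := by
    intro σ v d h
    by_cases h1 : rv (v, vec d) ∈ T
    · rw [if_pos h1, if_pos ⟨h, h1⟩]
      rfl
    · rw [if_neg h1, if_neg (fun h2 => h1 h2.2)]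
  induction L with
  | zero =>
    intro σ v d
    rw [Ws, Finset.sum_singleton]
    by_cases h : v + vec d ∈ Ω
    · rw [Wf, if_pos h, if_neg (fun h2 => h2.1 h)]
    · rw [Wf_out h, nil σ v d h]
  | succ L ih =>
    intro σ v d
    rw [sum_Ws_succ]
    by_cases h : v + vec d ∈ Ω
    · rw [Wf, if_pos h, if_neg (fun h2 => h2.1 h), zero_add]
      refine Finset.sum_congr rfl fun b _ => ?_
      rw [ih]
      refine Finset.sum_congr rfl fun t _ => ?_
      by_cases h1 : Val Ω T (v + vec d) b t
      · rw [if_pos h1, if_pos ⟨h, h1⟩, wσ_cons]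
      · rw [if_neg h1, if_neg (fun h2 => h1 h2.2)]
    · rw [Wf_out h, nil σ v d h]
      have : ∑ b : Fin 4, ∑ t ∈ Ws L, (if Val Ω T v d (b :: t) then wσ Ω σ v d (b :: t) else 0) = 0 := by
        refine Finset.sum_eq_zero fun b _ => Finset.sum_eq_zero fun t _ => ?_
        rw [if_neg (fun h2 => h h2.1)]
      rw [this, add_zero]

/-! ### the local weights -/

theorem pw_zero : ∀ l : List (Fin 4 × Fin 4), pw (0 : Cell K) l = 0
  | [] => rfl
  | x :: l => by rw [pw, Cell.zero_res]; exact pw_zero l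

theorem res_one (w : Wt K) (a b : Fin 4) : ((ofWt w).res a b).e = one w a b := by
  rcases fin4 a with rfl | rfl | rfl | rfl <;> rcases fin4 b with rfl | rfl | rfl | rfl <;> rfl

theorem res_two (w : Wt K) (a b c d : Fin 4) :
    (((ofWt w).res a b).res c d).e = two w a b c d := by
  rcases fin4 a with rfl | rfl | rfl | rfl <;> rcases fin4 b with rfl | rfl | rfl | rfl <;>
    rcases fin4 c with rfl | rfl | rfl | rfl <;> rcases fin4 d with rfl | rfl | rfl | rfl <;> rfl

theorem pw_ofWt (w : Wt K) : ∀ l : List (Fin 4 × Fin 4), pw (ofWt w) l = loc w l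
  | [] => rfl
  | [x] => res_one w x.1 x.2
  | [x, y] => res_two w x.1 x.2 y.1 y.2
  | x :: y :: z :: l => by
    have h1 : (((ofWt w).res x.1 x.2).res y.1 y.2).Cap 0 :=
      Cell.res_cap (Cell.res_cap (Cell.cap_two _) _ _) _ _
    rw [pw, pw, pw, Cell.res_cap_zero h1, pw_zero]
    rfl

/-! ### translations -/

theorem pas_add (s : Pt) : ∀ (t : List (Fin 4)) (v : Pt) (d : Fin 4),
    pas (s + v) d t = (pas v d t).map (fun x => (s + x.1, x.2))
  | [], v, d => rfl
  | b :: t, v, d => by
    rw [pas, pas, List.map_cons, add_assoc, pas_add s t]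

theorem endF_add (s : Pt) : ∀ (t : List (Fin 4)) (v : Pt) (d : Fin 4),
    endF (s + v) d t = s + endF v d t
  | [], v, d => by rw [endF, endF, add_assoc]
  | b :: t, v, d => by rw [endF, endF, add_assoc, endF_add s t]

theorem at'_shift (s : Pt) (l : List (Pt × (Fin 4 × Fin 4))) (u : Pt) :
    at' (l.map (fun x => (s + x.1, x.2))) (s + u) = at' l u := by
  induction l with
  | nil => rfl
  | cons x l ih =>
    rw [List.map_cons, at'_cons, at'_cons, ih]
    simp

theorem at'_nil {l : List (Pt × (Fin 4 × Fin 4))} {u : Pt} (h : u ∉ l.map Prod.fst) :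
    at' l u = [] := by
  unfold at'
  rw [List.map_eq_nil_iff, List.filter_eq_nil_iff]
  intro x hx
  simp only [decide_eq_true_eq]
  rintro rfl
  exact h (List.mem_map_of_mem hx)

/-! ### the grid -/

theorem mem_grid {N m : ℕ} {v : Pt} : v ∈ grid N m ↔ (0 ≤ v.1 ∧ v.1 < m) ∧ 0 ≤ v.2 ∧ v.2 < N := by
  unfold grid
  simp only [Finset.mem_image, Finset.mem_product, Finset.mem_range]
  constructor
  · rintro ⟨h, ⟨h1, h2⟩, rfl⟩
    simp only
    omega
  · rintro ⟨⟨h1, h2⟩, h3, h4⟩
    refine ⟨(v.1.toNat, v.2.toNat), ⟨by omega, by omega⟩, ?_⟩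
    ext
    · simp [h1]
    · simp [h3]

theorem card_grid (N m : ℕ) : (grid N m).card ≤ m * N := by
  unfold grid
  refine Finset.card_image_le.trans ?_
  rw [Finset.card_product, Finset.card_range, Finset.card_range]

theorem mem_tops4 {N m : ℕ} {h : Pt × Pt} :
    h ∈ tops4 N m ↔ (0 ≤ h.1.1 ∧ h.1.1 < m) ∧ h.1.2 = N ∧ h.2 = (0, -1) := by
  unfold tops4
  simp only [Finset.mem_image, Finset.mem_range]
  constructor
  · rintro ⟨j, hj, rfl⟩
    exact ⟨⟨by simp, by simpa using hj⟩, rfl, rfl⟩
  · rintro ⟨⟨h1, h2⟩, h3, h4⟩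
    refine ⟨h.1.1.toNat, by omega, ?_⟩
    ext
    · simp [h1]
    · simp [h3]
    · simp [h4]
    · simp [h4]

theorem Val_grid {N m : ℕ} : ∀ (t : List (Fin 4)) (v : Pt) (d : Fin 4),
    (v ∈ grid N m ∨ (d = 1 ∧ v.2 = -1 ∧ 0 ≤ v.1 ∧ v.1 < m)) →
    (Val (grid N m) (tops4 N m) v d t ↔ (∀ x ∈ pas v d t, x.1 ∈ grid N m) ∧ (endF v d t).2 = N)
  | [], v, d, hv => by
    rw [Val, endF, rv_vec, mem_tops4, mem_grid, pas]
    simp only [List.not_mem_nil, false_implies, implies_true, true_and]
    constructor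
    · rintro ⟨-, -, h, -⟩
      exact h
    · intro h
      refine ⟨fun h1 => by omega, ?_⟩
      rcases hv with hv | ⟨rfl, h1, h2, h3⟩
      · rw [mem_grid] at hv
        have h5 : d = 1 := by
          rcases fin4 d with rfl | rfl | rfl | rfl
          · have : (v + vec 0).2 = v.2 := by simp [vec]
            omega
          · rfl
          · have : (v + vec 2).2 = v.2 := by simp [vec]
            omega
          · have : (v + vec 3).2 = v.2 - 1 := by simp [vec]; ring
            omega
        subst h5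
        have : (v + vec 1).1 = v.1 := by simp [vec]
        exact ⟨⟨by omega, by omega⟩, h, rfl⟩
      · have : (v + vec 1).1 = v.1 := by simp [vec]
        exact ⟨⟨by omega, by omega⟩, h, rfl⟩
  | b :: t, v, d, _ => by
    rw [Val, endF, pas]
    constructor
    · rintro ⟨h1, h2⟩
      rw [Val_grid t (v + vec d) b (Or.inl h1)] at h2
      refine ⟨?_, h2.2⟩
      intro x hx
      rcases List.mem_cons.1 hx with rfl | hx
      · exact h1
      · exact h2.1 x hx
    · rintro ⟨h1, h2⟩
      have h3 : v + vec d ∈ grid N m := h1 _ List.mem_cons_self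
      refine ⟨h3, ?_⟩
      rw [Val_grid t (v + vec d) b (Or.inl h3)]
      exact ⟨fun x hx => h1 x (List.mem_cons_of_mem _ hx), h2⟩

theorem Val_fit {N m j : ℕ} (hj : j < m) (t : List (Fin 4)) :
    Val (grid N m) (tops4 N m) ((j : ℤ), -1) 1 t ↔ Fit N j m t := by
  rw [Val_grid t _ _ (Or.inr ⟨rfl, rfl, by simp, by simpa using hj⟩)]
  have e : (((j : ℤ), -1) : Pt) = ((j : ℤ), 0) + (0, -1) := by simp
  rw [e, pas_add, endF_add]
  unfold Fit Crs
  constructor
  · rintro ⟨h1, h2⟩
    have h3 : ∀ x ∈ pas (0, -1) 1 t, ((((j : ℤ), 0) : Pt) + x.1) ∈ grid N m := fun x hx =>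
      h1 _ (List.mem_map_of_mem (f := fun x : Pt × (Fin 4 × Fin 4) => ((((j : ℤ), 0) : Pt) + x.1, x.2)) hx)
    refine ⟨⟨fun x hx => ?_, ?_⟩, fun x hx => ?_⟩
    · have := mem_grid.1 (h3 x hx)
      simp only [Prod.fst_add, Prod.snd_add] at this
      omega
    · simpa using h2
    · have := mem_grid.1 (h3 x hx)
      simp only [Prod.fst_add, Prod.snd_add] at this
      omega
  · rintro ⟨⟨h1, h2⟩, h3⟩
    refine ⟨?_, by simpa using h2⟩
    intro y hy
    obtain ⟨x, hx, rfl⟩ := List.mem_map.1 hy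
    have h4 := h1 x hx
    have h5 := h3 x hx
    rw [mem_grid]
    simp only [Prod.fst_add, Prod.snd_add]
    omega

theorem wσ_grid (w : ℤ → Wt K) {N m j : ℕ} {t : List (Fin 4)} (h : Fit N j m t) :
    wσ (grid N m) (fun v => ofWt (w v.2)) ((j : ℤ), -1) 1 t = wgt w (0, -1) 1 t := by
  have e : (((j : ℤ), -1) : Pt) = ((j : ℤ), 0) + (0, -1) := by simp
  unfold wσ wgt
  rw [e, pas_add]
  set l := pas (0, -1) 1 t with hl
  have h1 : ∀ u ∈ grid N m, u ∉ (((l.map Prod.fst).toFinset).image (fun x => (((j : ℤ), 0) : Pt) + x)) →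
      pw (ofWt (w u.2)) (at' (l.map (fun x => ((((j : ℤ), 0) : Pt) + x.1, x.2))) u) = 1 := by
    intro u _ hu
    rw [at'_nil]
    · rfl
    · intro h2
      apply hu
      rw [List.map_map] at h2
      obtain ⟨x, hx, rfl⟩ := List.mem_map.1 h2
      exact Finset.mem_image.2 ⟨x.1, List.mem_toFinset.2 (List.mem_map_of_mem hx), rfl⟩
  have h2 : ((l.map Prod.fst).toFinset).image (fun x => (((j : ℤ), 0) : Pt) + x) ⊆ grid N m := by
    intro u hu
    obtain ⟨x, hx, rfl⟩ := Finset.mem_image.1 hu
    rw [List.mem_toFinset] at hx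
    obtain ⟨y, hy, rfl⟩ := List.mem_map.1 hx
    have h4 := h.1.1 y hy
    have h5 := h.2 y hy
    rw [mem_grid]
    simp only [Prod.fst_add, Prod.snd_add]
    omega
  rw [← Finset.prod_subset h2 h1, Finset.prod_image (fun x _ y _ h => add_left_cancel h)]
  refine Finset.prod_congr rfl fun u _ => ?_
  rw [at'_shift, pw_ofWt]
  simp

/-- **M1**: the network of the grid is the sum over the walks. -/
theorem net4_words (w : ℤ → Wt K) {N m : ℕ} (hN : 1 ≤ N) {L : ℕ} (hL : 2 * (m * N) ≤ L) :
    Net4 (fun v => ofWt (w v.2)) (grid N m) (feet4 m) (tops4 N m) (dlt K) Pat.empty =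
      ∑ j ∈ Finset.range m, ∑ t ∈ Ws L, if Fit N j m t then wgt w (0, -1) 1 t else 0 := by
  classical
  rw [net4_eq (L := L) _ (f := fun _ => 1)]
  · unfold feet4
    rw [Finset.sum_image (by
      intro x _ y _ h
      simpa using h)]
    refine Finset.sum_congr rfl fun j hj => ?_
    rw [Finset.mem_range] at hj
    show Wf (grid N m) (tops4 N m) L _ ((j : ℤ), -1) 1 = _
    rw [Wf_eq]
    refine Finset.sum_congr rfl fun t _ => ?_
    by_cases h : Fit N j m t
    · rw [if_pos h, if_pos ((Val_fit hj t).2 h), wσ_grid w h]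
    · rw [if_neg h, if_neg (fun h' => h ((Val_fit hj t).1 h'))]
  · intro h hh
    unfold feet4 at hh
    obtain ⟨j, hj, rfl⟩ := Finset.mem_image.1 hh
    rw [Finset.mem_range] at hj
    refine ⟨1, rfl, ?_, ?_⟩
    · rw [mem_grid]
      simp
    · rw [mem_grid]
      simp [vec, hj]
      omega
  · intro h hh
    rw [mem_tops4] at hh
    rw [mem_grid]
    omega
  · rw [Finset.disjoint_left]
    intro h h1 h2
    unfold feet4 at h1
    obtain ⟨j, hj, rfl⟩ := Finset.mem_image.1 h1
    rw [mem_tops4] at h2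
    have := h2.2.2
    simp at this
  · intro h hh
    unfold feet4 at hh
    obtain ⟨j, hj, rfl⟩ := Finset.mem_image.1 hh
    rfl
  · have := card_grid N m
    omega

end Pool.Agent.UNI
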