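import Pool.Agent.UNI.Win

/-!
# UNIV: the constant (glue of the window theorem and U1)
-/

set_option autoImplicit false

namespace Pool.Agent.UNI

open Filter Topology Pool.Agent.EXL EXS EXS.Univ

/-- **UNIV, U1** for at least `N0` rows (the proof of `EXS.Univ.sharp_univ`). -/
theorem sharp_univ_of {B : (N : ℕ) → (Fin N → ℝ) → ℝ} {N0 : ℕ}
    (hlim : ∀ (N : ℕ) (x : Fin N → ℝ), N0 ≤ N → (∀ k, |x k| ≤ Real.pi / 16) → ∀ ε : ℝ, 0 < ε →
      ∃ (y : Fin N → ℝ) (s0 : ℝ) (s : Fin N → ℝ), SD y s0 s ∧ (∀ k, |abs (x k) - y k| ≤ ε) ∧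
        abs (B N x - abs (SS y s0 s cst)) ≤ ε) :
    ∃ b : ℝ, 0 ≤ b ∧ ∀ ε : ℝ, 0 < ε → ∃ R : ℝ, ∀ (N : ℕ) (x : Fin N → ℝ),
      (∀ k, |x k| ≤ Real.pi / 16) → R ≤ hgt x → |hgt x ^ (1 / 4 : ℝ) * B N x - b| ≤ ε := by
  obtain ⟨b, hb0, hb⟩ := nodes_univ
  refine ⟨b, hb0, fun ε hε => ?_⟩
  obtain ⟨R, hR⟩ := hb (ε / 4) (by positivity)
  refine ⟨max (max (R + 1) 2) N0, fun N x hx hH' => ?_⟩
  have hH : max (R + 1) 2 ≤ hgt x := (le_max_left _ _).trans hH'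
  have hNN : N0 ≤ N := by
    have h1 : (N0 : ℝ) ≤ N := ((le_max_right _ _).trans hH').trans (hgt_le x)
    exact_mod_cast h1
  have hH1 : R + 1 ≤ hgt x := (le_max_left _ _).trans hH
  have hH2 : 2 ≤ hgt x := (le_max_right _ _).trans hH
  set δ : ℝ := min (1 / (3 * ((N : ℝ) + 1))) (ε / (12 * ((N : ℝ) + 1) * (b + ε + 1))) with hδ
  have hN0 : (0 : ℝ) ≤ N := Nat.cast_nonneg N
  have hδ0 : 0 < δ := by
    rw [hδ]
    positivity
  obtain ⟨y, s0, s, hS, hxy, hB⟩ := hlim N x hNN hx δ hδ0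
  have habs : hgt x = hgt (fun k => |x k|) := by
    unfold hgt
    refine Finset.sum_congr rfl fun k _ => ?_
    show Real.cos (8 * x k / 3) = Real.cos (8 * |x k| / 3)
    rcases abs_cases (x k) with ⟨h, _⟩ | ⟨h, _⟩
    · rw [h]
    · rw [h, show 8 * -x k / 3 = -(8 * x k / 3) by ring, Real.cos_neg]
  have h1 : |hgt x - hgt y| ≤ N * (3 * δ) := by
    rw [habs]
    exact hgt_dist hxy
  have hd1 : (N : ℝ) * (3 * δ) ≤ 1 := by
    have h2 : δ ≤ 1 / (3 * ((N : ℝ) + 1)) := min_le_left _ _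
    calc (N : ℝ) * (3 * δ) ≤ ((N : ℝ) + 1) * (3 * (1 / (3 * ((N : ℝ) + 1)))) := by
          gcongr
          linarith
      _ = 1 := by field_simp
  have hy : hgt x - 1 ≤ hgt y := by
    have := (abs_le.1 (h1.trans hd1)).2
    linarith
  have hy1 : 1 ≤ hgt y := by linarith
  have h2 := hR N y s0 s hS (by linarith)
  set P := hgt x ^ (1 / 4 : ℝ) with hP
  set Q := hgt y ^ (1 / 4 : ℝ) with hQ
  set V := |SS y s0 s cst| with hV
  have hV0 : 0 ≤ V := abs_nonneg _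
  have hPQ : |P - Q| ≤ N * (3 * δ) := (root_lip (by linarith) hy1).trans h1
  have hQ1 : 1 ≤ Q := Real.one_le_rpow hy1 (by norm_num)
  have hVb : V ≤ b + ε := by
    have h3 : Q * V ≤ b + ε / 4 := by linarith [(abs_le.1 h2).2]
    nlinarith
  have hPN : P ≤ (N : ℝ) + 1 := by
    have h3 : hgt x ≤ N := by
      unfold hgt
      calc _ ≤ ∑ _k : Fin N, (1 : ℝ) := Finset.sum_le_sum fun k _ => Real.cos_le_one _
        _ = N := by simp
    calc P ≤ hgt x ^ (1 : ℝ) :=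
          Real.rpow_le_rpow_of_exponent_le (by linarith) (by norm_num)
      _ = hgt x := Real.rpow_one _
      _ ≤ _ := by linarith
  have hP0 : 0 ≤ P := Real.rpow_nonneg (by linarith) _
  have hδ2 : δ ≤ ε / (12 * ((N : ℝ) + 1) * (b + ε + 1)) := min_le_right _ _
  have e : P * B N x - b = P * (B N x - V) + (P - Q) * V + (Q * V - b) := by ring
  rw [e]
  have hbe : 0 < b + ε + 1 := by positivity
  have t1 : |P * (B N x - V)| ≤ ε / 4 := by
    rw [abs_mul, abs_of_nonneg hP0]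
    calc P * |B N x - V| ≤ ((N : ℝ) + 1) * (ε / (12 * ((N : ℝ) + 1) * (b + ε + 1))) := by
          gcongr
          exact hB.trans hδ2
      _ = ε / (12 * (b + ε + 1)) := by field_simp
      _ ≤ ε / 4 := by
          gcongr
          linarith
  have t2 : |(P - Q) * V| ≤ ε / 4 := by
    rw [abs_mul, abs_of_nonneg hV0]
    calc |P - Q| * V ≤ (((N : ℝ) + 1) * (3 * (ε / (12 * ((N : ℝ) + 1) * (b + ε + 1))))) * (b + ε + 1) := by
          refine mul_le_mul (hPQ.trans ?_) (by linarith) hV0 (by positivity)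
          gcongr
          linarith
      _ = ε / 4 := by
          field_simp
          norm_num
  calc |P * (B N x - V) + (P - Q) * V + (Q * V - b)| ≤
        |P * (B N x - V)| + |(P - Q) * V| + |Q * V - b| := by
          refine (abs_add_le _ _).trans ?_
          gcongr
          exact abs_add_le _ _
    _ ≤ ε / 4 + ε / 4 + ε / 4 := by gcongr
    _ ≤ ε := by linarith

/-- the number of the strip with the rows `x`. -/
noncomputable def Bx (N : ℕ) (x : Fin N → ℝ) : ℝ := BB Site.fl Site.tp (colX x)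

/-- at least `N0` rows: the increments are bounded. -/
theorem bdd_of_rows (hR : ∀ N, 1 ≤ N → Rch N) : ∃ (M : ℝ) (N0 : ℕ), 1 ≤ N0 ∧ ∀ N : ℕ, N0 ≤ N →
    ∀ x : Fin N → ℝ, (∀ k, |x k| ≤ Real.pi / 16) → ∀ m, DD Site.fl Site.tp (colX x) m ≤ M := by
  obtain ⟨M, N0, h1, h2⟩ := num_le
  exact ⟨M, N0, h1, fun N hN x hx m =>
    window (h1.trans hN) (hR N (h1.trans hN)) (h2 N hN) hx m⟩

theorem Bx_hex {N : ℕ} (hN : 1 ≤ N) : Bx N (fun _ => Real.pi / 16) = HexObs.bT N := by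
  unfold Bx
  rw [colX_hex]
  have h1 := DD_tendsto (posOp_colH N) (good_colH N) (DD_hex hN)
  have h2 := Zw_step_tendsto hN
  refine tendsto_nhds_unique h1 (h2.congr fun m => ?_)
  unfold DD
  rw [FF_eq, FF_eq, Zm_eq_Zw hN, Zm_eq_Zw hN]

/-- **UNIV in terms of the column operators.** -/
theorem univ_Bx (hR : ∀ N, 1 ≤ N → Rch N) {c : ℝ} (hc : 0 < c)
    (hlow : ∀ N : ℕ, 1 ≤ N → c * (N : ℝ) ^ (-(1 / 4) : ℝ) ≤ HexObs.bT N) :
    ∃ b : ℝ, 0 < b ∧ ∀ ε : ℝ, 0 < ε → ∃ R : ℝ, ∀ (N : ℕ) (x : Fin N → ℝ),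
      (∀ k, |x k| ≤ Real.pi / 16) → R ≤ hgt x →
        1 ≤ N ∧ (∃ M : ℝ, ∀ m, DD Site.fl Site.tp (colX x) m ≤ M) ∧
          |hgt x ^ (1 / 4 : ℝ) * Bx N x - b| ≤ ε := by
  obtain ⟨M, N0, h1, h2⟩ := bdd_of_rows hR
  have hlim : ∀ (N : ℕ) (x : Fin N → ℝ), N0 ≤ N → (∀ k, |x k| ≤ Real.pi / 16) → ∀ ε : ℝ, 0 < ε →
      ∃ (y : Fin N → ℝ) (s0 : ℝ) (s : Fin N → ℝ), SD y s0 s ∧ (∀ k, |abs (x k) - y k| ≤ ε) ∧
        abs (Bx N x - abs (SS y s0 s cst)) ≤ ε := by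
    intro N x hN hx ε hε
    have hN1 := h1.trans hN
    have hb := h2 N hN x hx
    have hr := hR N hN1 x hx
    have hhalf := half_BB (A := AN N) (by simp) (AN_full N) (AN_empty N) (posOp_colX hx)
      (good_colX x) (pres_colX x) hr.1 hb
    have hinj := inj_BB (A := AN N) (by simp) (AN_full N) (AN_empty N) (posOp_colX hx)
      (good_colX x) (pres_colX x) hr.1 hr.2 hb
    obtain ⟨y, s0, s, h3, h4, h5⟩ := gen_lim_of (bfs N) hx hhalf hinj hε
    refine ⟨y, s0, s, h3, h4, ?_⟩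
    have h6 : 0 ≤ BB Site.fl Site.tp (colX x) :=
      (DD_nonneg (posOp_colX hx) (good_colX x) 0).trans (DD_le_BB hb 0)
    rwa [abs_of_nonneg h6] at h5
  obtain ⟨b, hb0, hb⟩ := sharp_univ_of hlim
  have hpos : 0 < b := by
    refine pos_of hc hb fun N hN => ?_
    rw [Bx_hex hN]
    exact hlow N hN
  refine ⟨b, hpos, fun ε hε => ?_⟩
  obtain ⟨R, hRR⟩ := hb ε hε
  refine ⟨max R N0, fun N x hx hH => ?_⟩
  have hNN : N0 ≤ N := by
    have h3 : (N0 : ℝ) ≤ N := ((le_max_right _ _).trans hH).trans (hgt_le x)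
    exact_mod_cast h3
  exact ⟨h1.trans hNN, ⟨M, h2 N hNN x hx⟩, hRR N x hx ((le_max_left _ _).trans hH)⟩

end Pool.Agent.UNI
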