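import Pool.Agent.EXL.NetTot
import Pool.Agent.UNI.Col4

/-!
# UNIV: the network of the grid in column order

The network is a product of face operators, ends and contractions. The product in column order is sorted:
first all faces, then the floor ends, the top ends and the contractions.
-/

set_option autoImplicit false

namespace Pool.Agent.UNI

open Pool.Agent.EXL Pool.Agent.EXL.Net HexObs HexObs.LP Pat

variable {K : Type*} [CommRing K]

namespace Tot4

open Pool.Agent.EXL.Net.Tot

/-- the operator of a factor. -/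
noncomputable def op4 (σ : Pt → Cell K) : At → Op Lab K
  | At.v p => Cel (σ p) p
  | At.e b h => En (Sum.inr b) (hf h)
  | At.c h => CoS (ed h)

theorem hs_ne_hf {v : Pt} {h : Pt × Pt} (h1 : h.1 ≠ v) (a : Fin 4) : hs v a ≠ hf h := by
  intro e
  apply h1
  rw [Sum.inl.injEq] at e
  rw [← e]

/-- an operator that commutes with all arcs of a face commutes with the face. -/
theorem comm_Cel {c : Cell K} {v : Pt} {X : Op Lab K}
    (hX : ∀ a b : Fin 4, Commute X (cupO (hs v a) (hs v b) : Op Lab K)) : Commute X (Cel c v) := by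
  unfold Cel
  refine ((Commute.one_right _).smul_right _).add_right ?_ |>.add_right ?_
  · exact (((((((hX _ _).smul_right _).add_right ((hX _ _).smul_right _)).add_right
      ((hX _ _).smul_right _)).add_right ((hX _ _).smul_right _)).add_right
      ((hX _ _).smul_right _)).add_right ((hX _ _).smul_right _))
  · exact ((((hX _ _).mul_right (hX _ _)).smul_right _).add_right
      (((hX _ _).mul_right (hX _ _)).smul_right _))

theorem com_cv4 (σ : Pt → Cell K) {h : Pt × Pt} {p : Pt} (h1 : h.1 ≠ p) (h2 : h.1 + h.2 ≠ p) :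
    Commute (CoS (ed h) : Op Lab K) (Cel (σ p) p) := by
  rw [CoS_ed]
  refine comm_Cel fun a b => (cupO_Co_comm ?_ ?_ ?_ ?_).symm
  · exact hs_ne_hf h1 a
  · exact hs_ne_hf (h := rv h) h2 a
  · exact hs_ne_hf h1 b
  · exact hs_ne_hf (h := rv h) h2 b

theorem com_ev4 (σ : Pt → Cell K) {b : Bool} {h : Pt × Pt} {p : Pt} (h1 : h.1 ≠ p) :
    Commute (En (Sum.inr b) (hf h) : Op Lab K) (Cel (σ p) p) := by
  refine comm_Cel fun a c => ?_
  unfold En
  exact (Commute.one_left _).add_left (cupO_comm (by simp) (by simp)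
    (hs_ne_hf h1 a).symm (hs_ne_hf h1 c).symm)

/-- sorting of the factors. -/
theorem sort4 (σ : Pt → Cell K) (L : List At) (hL : L.Pairwise Ok) :
    (L.map (op4 σ)).prod = ((L.filterMap gv).map (fun p => Cel (σ p) p)).prod *
      ((L.filterMap (ge false)).map (fun h => (En (Sum.inr false) (hf h) : Op Lab K))).prod *
      ((L.filterMap (ge true)).map (fun h => (En (Sum.inr true) (hf h) : Op Lab K))).prod *
      ((L.filterMap gc).map (fun h => (CoS (ed h) : Op Lab K))).prod := by
  induction L with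
  | nil => simp
  | cons a L ih =>
    rw [List.pairwise_cons] at hL
    obtain ⟨ha, hL'⟩ := hL
    have ih' := ih hL'
    rw [List.map_cons, List.prod_cons, ih']
    have mv : ∀ p ∈ L.filterMap gv, At.v p ∈ L := fun p hp => mem_gv.1 hp
    have me : ∀ b, ∀ h ∈ L.filterMap (ge b), At.e b h ∈ L := fun b h hp => mem_ge.1 hp
    set V := ((L.filterMap gv).map (fun p => Cel (σ p) p)).prod with hV
    set E0 := ((L.filterMap (ge false)).map (fun h => (En (Sum.inr false) (hf h) : Op Lab K))).prod with hE0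
    set E1 := ((L.filterMap (ge true)).map (fun h => (En (Sum.inr true) (hf h) : Op Lab K))).prod with hE1
    set C := ((L.filterMap gc).map (fun h => (CoS (ed h) : Op Lab K))).prod with hC
    have comV : ∀ X : Op Lab K, (∀ p, At.v p ∈ L → Commute X (Cel (σ p) p)) → Commute X V := by
      intro X hX
      apply Commute.list_prod_right
      intro y hy
      rw [List.mem_map] at hy
      obtain ⟨p, hp, rfl⟩ := hy
      exact hX p (mv p hp)
    have comE : ∀ b, ∀ X : Op Lab K, (∀ h, At.e b h ∈ L → Commute X (En (Sum.inr b) (hf h))) →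
        Commute X ((L.filterMap (ge b)).map (fun h => (En (Sum.inr b) (hf h) : Op Lab K))).prod := by
      intro b X hX
      apply Commute.list_prod_right
      intro y hy
      rw [List.mem_map] at hy
      obtain ⟨p, hp, rfl⟩ := hy
      exact hX p (me b p hp)
    cases a with
    | v p =>
      have f1 : (At.v p :: L).filterMap gv = p :: L.filterMap gv := rfl
      have f2 : (At.v p :: L).filterMap (ge false) = L.filterMap (ge false) := rfl
      have f3 : (At.v p :: L).filterMap (ge true) = L.filterMap (ge true) := rfl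
      have f4 : (At.v p :: L).filterMap gc = L.filterMap gc := rfl
      rw [f1, f2, f3, f4, List.map_cons, List.prod_cons, ← hV, ← hE0, ← hE1, ← hC]
      simp only [op4, mul_assoc]
    | e b h =>
      have c1 : Commute (En (Sum.inr b) (hf h) : Op Lab K) V := comV _ fun p hp => com_ev4 σ (ha _ hp)
      cases b with
      | false =>
        have f1 : (At.e false h :: L).filterMap gv = L.filterMap gv := rfl
        have f2 : (At.e false h :: L).filterMap (ge false) = h :: L.filterMap (ge false) := rfl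
        have f3 : (At.e false h :: L).filterMap (ge true) = L.filterMap (ge true) := rfl
        have f4 : (At.e false h :: L).filterMap gc = L.filterMap gc := rfl
        rw [f1, f2, f3, f4, List.map_cons, List.prod_cons, ← hV, ← hE0, ← hE1, ← hC]
        calc _ = (En (Sum.inr false) (hf h) * V) * E0 * E1 * C := by simp only [op4, mul_assoc]
          _ = _ := by
            rw [c1.eq]
            simp only [mul_assoc]
      | true =>
        have c2 : Commute (En (Sum.inr true) (hf h) : Op Lab K) E0 := comE false _ fun h' hh => com_ee (ha _ hh)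
        have f1 : (At.e true h :: L).filterMap gv = L.filterMap gv := rfl
        have f2 : (At.e true h :: L).filterMap (ge false) = L.filterMap (ge false) := rfl
        have f3 : (At.e true h :: L).filterMap (ge true) = h :: L.filterMap (ge true) := rfl
        have f4 : (At.e true h :: L).filterMap gc = L.filterMap gc := rfl
        rw [f1, f2, f3, f4, List.map_cons, List.prod_cons, ← hV, ← hE0, ← hE1, ← hC]
        calc _ = (En (Sum.inr true) (hf h) * V) * E0 * E1 * C := by simp only [op4, mul_assoc]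
          _ = V * (En (Sum.inr true) (hf h) * E0) * E1 * C := by
            rw [c1.eq]
            simp only [mul_assoc]
          _ = _ := by
            rw [c2.eq]
            simp only [mul_assoc]
    | c h =>
      have c1 : Commute (CoS (ed h) : Op Lab K) V := comV _ fun p hp => com_cv4 σ (ha _ hp).1 (ha _ hp).2
      have c2 : Commute (CoS (ed h) : Op Lab K) E0 := comE false _ fun h' hh => com_ce (ha _ hh).1 (ha _ hh).2
      have c3 : Commute (CoS (ed h) : Op Lab K) E1 := comE true _ fun h' hh => com_ce (ha _ hh).1 (ha _ hh).2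
      have f1 : (At.c h :: L).filterMap gv = L.filterMap gv := rfl
      have f2 : (At.c h :: L).filterMap (ge false) = L.filterMap (ge false) := rfl
      have f3 : (At.c h :: L).filterMap (ge true) = L.filterMap (ge true) := rfl
      have f4 : (At.c h :: L).filterMap gc = h :: L.filterMap gc := rfl
      rw [f1, f2, f3, f4, List.map_cons, List.prod_cons, ← hV, ← hE0, ← hE1, ← hC]
      calc _ = (CoS (ed h) * V) * E0 * E1 * C := by simp only [op4, mul_assoc]
        _ = V * (CoS (ed h) * E0) * E1 * C := by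
          rw [c1.eq]
          simp only [mul_assoc]
        _ = V * E0 * (CoS (ed h) * E1) * C := by
          rw [c2.eq]
          simp only [mul_assoc]
        _ = _ := by
          rw [c3.eq]
          simp only [mul_assoc]

/-! ### the lists -/

/-- one face. -/
def cell4 (k i : ℤ) : List At :=
  [At.v (k, i), At.c ((k, i), (0, -1)), At.c ((k + 1, i), (-1, 0))]

/-- one column. -/
def colL4 (N : ℕ) (k : ℤ) : List At :=
  At.e false ((k, -1), (0, 1)) :: (((List.range N).flatMap fun i : ℕ => cell4 k i) ++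
    [At.e true ((k, (N : ℤ)), (0, -1)), At.c ((k, (N : ℤ)), (0, -1))])

/-- the left edges. -/
def leftL4 (N : ℕ) : List At := (List.range N).map fun i : ℕ => At.c ((0, (i : ℤ)), (-1, 0))

/-- all factors. -/
def totL4 (N : ℕ) : ℕ → List At
  | 0 => leftL4 N
  | m + 1 => colL4 N m ++ totL4 N m

theorem ed_S4 (k i : ℤ) : ed ((k, i), (0, -1)) = s(fN k (i - 1), fS k i) := by
  unfold ed fN fS rv
  rw [Sym2.eq_swap]
  simp [sub_eq_add_neg]

theorem ed_W4 (k i : ℤ) : ed ((k + 1, i), (-1, 0)) = s(fW (k + 1) i, fE k i) := by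
  unfold ed fW fE rv
  simp

theorem ed_W04 (i : ℤ) : ed ((0, i), (-1, 0)) = s(fW 0 i, fE (-1) i) := by
  unfold ed fW fE rv
  simp

theorem prod_cell4 (w : ℤ → Wt K) (k i : ℤ) :
    ((cell4 k i).map (op4 fun v => ofWt (w v.2))).prod = Rho4 w k i := by
  unfold cell4 Rho4
  simp only [List.map_cons, List.map_nil, List.prod_cons, List.prod_nil, op4, ed_S4, ed_W4, CoS_mk, mul_one]

theorem prod_col4 (w : ℤ → Wt K) (N : ℕ) (k : ℤ) :
    ((colL4 N k).map (op4 fun v => ofWt (w v.2))).prod = colOp4 w N k := by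
  unfold colL4 colOp4
  rw [fin_range N (fun i : ℕ => Rho4 w k (i : ℤ)), List.map_cons, List.prod_cons, List.map_append, List.prod_append,
    prod_flat]
  simp only [prod_cell4, List.map_cons, List.map_nil, List.prod_cons, List.prod_nil, op4, ed_S4, CoS_mk, mul_one]
  rw [mul_assoc]
  rfl

theorem prod_left4 (σ : Pt → Cell K) (N : ℕ) : ((leftL4 N).map (op4 σ)).prod = leftOp4 K N := by
  unfold leftL4 leftOp4
  rw [fin_range N (fun i : ℕ => (Co (fW 0 (i : ℤ)) (fE (-1) (i : ℤ)) : Op Lab K)), List.map_map]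
  congr 1

theorem prod_tot4 (w : ℤ → Wt K) (N m : ℕ) :
    ((totL4 N m).map (op4 fun v => ofWt (w v.2))).prod = tot4 w N m := by
  induction m with
  | zero => exact prod_left4 _ N
  | succ m ih =>
    show ((colL4 N m ++ totL4 N m).map (op4 fun v => ofWt (w v.2))).prod = colOp4 w N m * tot4 w N m
    rw [List.map_append, List.prod_append, ih, prod_col4]

theorem mem_cell4 {k i : ℤ} {a : At} (h : a ∈ cell4 k i) : a = At.v (k, i) ∨
    a = At.c ((k, i), (0, -1)) ∨ a = At.c ((k + 1, i), (-1, 0)) := by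
  simpa [cell4] using h

theorem mem_col4 {N : ℕ} {k : ℤ} {a : At} : a ∈ colL4 N k ↔ a = At.e false ((k, -1), (0, 1)) ∨
    (∃ i : ℕ, i < N ∧ (a = At.v (k, (i : ℤ)) ∨
      a = At.c ((k, (i : ℤ)), (0, -1)) ∨ a = At.c ((k + 1, (i : ℤ)), (-1, 0)))) ∨
    a = At.e true ((k, (N : ℤ)), (0, -1)) ∨ a = At.c ((k, (N : ℤ)), (0, -1)) := by
  unfold colL4 cell4
  simp [List.mem_flatMap, or_assoc]

theorem mem_tot4 {N m : ℕ} {a : At} : a ∈ totL4 N m ↔
    (∃ i : ℕ, i < N ∧ a = At.c ((0, (i : ℤ)), (-1, 0))) ∨ ∃ k : ℕ, k < m ∧ a ∈ colL4 N k := by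
  induction m with
  | zero =>
    show a ∈ leftL4 N ↔ _
    unfold leftL4
    simp [eq_comm]
  | succ m ih =>
    show a ∈ colL4 N m ++ totL4 N m ↔ _
    rw [List.mem_append, ih]
    constructor
    · rintro (h | h | ⟨k, hk, h⟩)
      · exact Or.inr ⟨m, by omega, h⟩
      · exact Or.inl h
      · exact Or.inr ⟨k, by omega, h⟩
    · rintro (h | ⟨k, hk, h⟩)
      · exact Or.inr (Or.inl h)
      · by_cases hkm : k = m
        · exact Or.inl (hkm ▸ h)
        · exact Or.inr (Or.inr ⟨k, by omega, h⟩)

/-- the order of the factors. -/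
theorem ok_cell4 (k i : ℤ) : (cell4 k i).Pairwise Ok := by
  unfold cell4
  simp only [List.pairwise_cons, List.mem_cons, List.not_mem_nil, or_false, forall_eq_or_imp, forall_eq,
    List.Pairwise.nil, Ok, and_true, ne_eq, ed_eq, rv, Prod.ext_iff, Prod.fst_add,
    Prod.snd_add, Prod.fst_neg, Prod.snd_neg, false_imp_iff, implies_true, true_and]
  omega

theorem ok_cells4 {k i i' : ℤ} (h : i < i') {a b : At} (ha : a ∈ cell4 k i) (hb : b ∈ cell4 k i') : Ok a b := by
  rcases mem_cell4 ha with rfl | rfl | rfl <;> rcases mem_cell4 hb with rfl | rfl | rfl <;>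
    (simp only [Ok, ne_eq, ed_eq, rv, Prod.ext_iff, Prod.fst_add, Prod.snd_add,
      Prod.fst_neg, Prod.snd_neg] <;> omega)

theorem ok_col4 (N : ℕ) (k : ℤ) : (colL4 N k).Pairwise Ok := by
  unfold colL4
  rw [List.pairwise_cons]
  refine ⟨?_, ?_⟩
  · intro a ha
    rw [List.mem_append, List.mem_flatMap] at ha
    rcases ha with ⟨i, hi, ha⟩ | ha
    · rcases mem_cell4 ha with rfl | rfl | rfl <;>
        (simp only [Ok, ne_eq, ed_eq, rv, Prod.ext_iff, Prod.fst_add, Prod.snd_add,
          Prod.fst_neg, Prod.snd_neg] <;> omega)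
    · simp only [List.mem_cons, List.not_mem_nil, or_false] at ha
      rcases ha with rfl | rfl <;>
        (simp only [Ok, ne_eq, ed_eq, rv, Prod.ext_iff, Prod.fst_add, Prod.snd_add,
          Prod.fst_neg, Prod.snd_neg] <;> omega)
  · rw [List.pairwise_append]
    refine ⟨?_, ?_, ?_⟩
    · rw [List.pairwise_flatMap]
      refine ⟨fun i _ => ok_cell4 k i, ?_⟩
      exact List.pairwise_lt_range.imp fun {a b} hab x hx y hy => ok_cells4 (by exact_mod_cast hab) hx hy
    · simp [Ok]
    · intro a ha b hb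
      rw [List.mem_flatMap] at ha
      obtain ⟨i, hi, ha⟩ := ha
      rw [List.mem_range] at hi
      simp only [List.mem_cons, List.not_mem_nil, or_false] at hb
      rcases hb with rfl | rfl <;> rcases mem_cell4 ha with rfl | rfl | rfl <;>
        (simp only [Ok, ne_eq, ed_eq, rv, Prod.ext_iff, Prod.fst_add, Prod.snd_add,
          Prod.fst_neg, Prod.snd_neg] <;> omega)

theorem ok_left4 (N : ℕ) : (leftL4 N).Pairwise Ok := by
  unfold leftL4
  rw [List.pairwise_map]
  refine List.pairwise_lt_range.imp fun {a b} hab => ?_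
  simp only [Ok, ne_eq, ed_eq, rv, Prod.ext_iff, Prod.fst_add, Prod.snd_add,
    Prod.fst_neg, Prod.snd_neg] <;> omega

theorem ok_col_col4 {N : ℕ} {k k' : ℤ} (h : k' < k) {a b : At} (ha : a ∈ colL4 N k) (hb : b ∈ colL4 N k') :
    Ok a b := by
  rw [mem_col4] at ha hb
  rcases ha with rfl | ⟨i, hi, rfl | rfl | rfl⟩ | rfl | rfl <;>
    rcases hb with rfl | ⟨i', hi', rfl | rfl | rfl⟩ | rfl | rfl <;>
    (simp only [Ok, ne_eq, ed_eq, rv, Prod.ext_iff, Prod.fst_add, Prod.snd_add,
      Prod.fst_neg, Prod.snd_neg] <;> omega)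

theorem ok_tot4 (N m : ℕ) : (totL4 N m).Pairwise Ok := by
  induction m with
  | zero => exact ok_left4 N
  | succ m ih =>
    show (colL4 N m ++ totL4 N m).Pairwise Ok
    rw [List.pairwise_append]
    refine ⟨ok_col4 N m, ih, fun a ha b hb => ?_⟩
    rw [mem_tot4] at hb
    rcases hb with ⟨i', hi', rfl⟩ | ⟨k, hk, hb⟩
    · rw [mem_col4] at ha
      rcases ha with rfl | ⟨i, hi, rfl | rfl | rfl⟩ | rfl | rfl <;>
        (simp only [Ok, ne_eq, ed_eq, rv, Prod.ext_iff, Prod.fst_add, Prod.snd_add,
          Prod.fst_neg, Prod.snd_neg] <;> omega)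
    · exact ok_col_col4 (by exact_mod_cast hk) ha hb

theorem CEL_list (σ : Pt → Cell K) {l : List Pt} (hl : l.Nodup) {Ω : Finset Pt} (h : l.toFinset = Ω) :
    CEL σ Ω = (l.map (fun v => Cel (σ v) v)).prod := by
  subst h
  exact Finset.noncommProd_toFinset l _ _ hl

end Tot4

theorem mem_grid4 {N m : ℕ} {v : Pt} :
    v ∈ grid N m ↔ (0 ≤ v.1 ∧ v.1 < m) ∧ (0 ≤ v.2 ∧ v.2 < N) := by
  unfold grid
  simp only [Finset.mem_image, Finset.mem_product, Finset.mem_range]
  constructor
  · rintro ⟨⟨a, b⟩, ⟨h1, h2⟩, rfl⟩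
    simp only
    omega
  · rintro ⟨⟨h1, h2⟩, h3, h4⟩
    exact ⟨(v.1.toNat, v.2.toNat), ⟨by simp only; omega, by simp only; omega⟩, by
      ext <;> simp only <;> omega⟩

open Tot4 Pool.Agent.EXL.Net.Tot in
/-- THE NETWORK OF THE GRID IN COLUMN ORDER -/
theorem Net4_eq_tot (w : ℤ → Wt K) {N m : ℕ} (hN : 1 ≤ N) (hm : 1 ≤ m) :
    Net4 (fun v => ofWt (w v.2)) (grid N m) (feet4 m) (tops4 N m) = tot4 w N m := by
  have hok := ok_tot4 N m
  rw [← prod_tot4, sort4 _ _ hok]
  unfold Net4
  congr 1
  · congr 1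
    · congr 1
      · refine CEL_list _ (nodup_gv hok) ?_
        ext p
        rw [List.mem_toFinset, mem_gv, mem_tot4, mem_grid4]
        constructor
        · rintro (⟨i, hi, h⟩ | ⟨k, hk, h⟩)
          · simp at h
          · rw [mem_col4] at h
            simp only [reduceCtorEq, At.v.injEq, or_false, false_or] at h
            obtain ⟨i, hi, rfl⟩ := h
            simp only
            omega
        · rintro ⟨⟨h1, h2⟩, h3, h4⟩
          obtain ⟨p1, p2⟩ := p
          simp only at h1 h2 h3 h4
          obtain ⟨k, rfl⟩ := Int.eq_ofNat_of_zero_le h1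
          obtain ⟨i, rfl⟩ := Int.eq_ofNat_of_zero_le h3
          exact Or.inr ⟨k, by exact_mod_cast h2, mem_col4.2 (Or.inr (Or.inl ⟨i, by exact_mod_cast h4, Or.inl rfl⟩))⟩
      · refine EN_list false (nodup_ge hok false) ?_
        ext p
        rw [List.mem_toFinset, mem_ge, mem_tot4]
        unfold feet4
        rw [Finset.mem_image]
        constructor
        · rintro (⟨i, hi, h⟩ | ⟨k, hk, h⟩)
          · simp at h
          · rw [mem_col4] at h
            simp at h
            exact ⟨k, Finset.mem_range.2 hk, h.symm⟩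
        · rintro ⟨k, hk, rfl⟩
          exact Or.inr ⟨k, Finset.mem_range.1 hk, mem_col4.2 (Or.inl rfl)⟩
    · refine EN_list true (nodup_ge hok true) ?_
      ext p
      rw [List.mem_toFinset, mem_ge, mem_tot4]
      unfold tops4
      rw [Finset.mem_image]
      constructor
      · rintro (⟨i, hi, h⟩ | ⟨k, hk, h⟩)
        · simp at h
        · rw [mem_col4] at h
          simp at h
          exact ⟨k, Finset.mem_range.2 hk, h.symm⟩
      · rintro ⟨k, hk, rfl⟩
        exact Or.inr ⟨k, Finset.mem_range.1 hk, mem_col4.2 (Or.inr (Or.inr (Or.inl rfl)))⟩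
  · refine CO_list (nodup_gc hok) _ ?_
    ext e
    rw [List.mem_toFinset, List.mem_map, mem_edg4]
    constructor
    · rintro ⟨h, hh, rfl⟩
      rw [mem_gc, mem_tot4] at hh
      rcases hh with ⟨i, hi, hh⟩ | ⟨k, hk, hh⟩
      · rw [At.c.injEq] at hh
        subst hh
        exact ⟨(0, (i : ℤ)), mem_grid4.2 (by simp only; omega), 2, rfl⟩
      · rw [mem_col4] at hh
        simp only [reduceCtorEq, At.c.injEq, false_or] at hh
        rcases hh with ⟨i, hi, rfl | rfl⟩ | rfl
        · exact ⟨((k : ℤ), (i : ℤ)), mem_grid4.2 (by simp only; omega), 3, rfl⟩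
        · refine ⟨((k : ℤ), (i : ℤ)), mem_grid4.2 (by simp only; omega), 0, ?_⟩
          rw [ed_W4]
          unfold ed fW fE rv vec
          rw [Sym2.eq_swap]
          simp
        · refine ⟨((k : ℤ), (N : ℤ) - 1), mem_grid4.2 (by simp only; omega), 1, ?_⟩
          rw [ed_S4]
          unfold ed fN fS rv vec
          simp
    · rintro ⟨⟨p1, p2⟩, hp, a, rfl⟩
      obtain ⟨⟨h1, h2⟩, h3, h4⟩ := mem_grid4.1 hp
      simp only at h1 h2 h3 h4
      obtain ⟨k, rfl⟩ := Int.eq_ofNat_of_zero_le h1
      obtain ⟨i, rfl⟩ := Int.eq_ofNat_of_zero_le h3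
      have hk : k < m := by exact_mod_cast h2
      have hi : i < N := by exact_mod_cast h4
      have key : ∀ h : Pt × Pt, At.c h ∈ colL4 N k → ∃ a ∈ List.filterMap gc (totL4 N m), ed a = ed h :=
        fun h hh => ⟨h, mem_gc.2 (mem_tot4.2 (Or.inr ⟨k, hk, hh⟩)), rfl⟩
      fin_cases a
      · have e1 : ed (((k : ℤ), (i : ℤ)), vec 0) = ed (((k : ℤ) + 1, (i : ℤ)), (-1, 0)) := by
          rw [ed_W4]
          unfold ed fW fE rv vec
          rw [Sym2.eq_swap]
          simp
        exact e1 ▸ key _ (mem_col4.2 (Or.inr (Or.inl ⟨i, hi, by simp⟩)))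
      · have e1 : ed (((k : ℤ), (i : ℤ)), vec 1) = ed (((k : ℤ), (i : ℤ) + 1), (0, -1)) := by
          rw [ed_S4]
          unfold ed fN fS rv vec
          simp
        refine e1 ▸ ?_
        by_cases hiN : i + 1 = N
        · refine key _ (mem_col4.2 (Or.inr (Or.inr (Or.inr ?_))))
          rw [← hiN]
          push_cast
          rfl
        · refine key _ (mem_col4.2 (Or.inr (Or.inl ⟨i + 1, by omega, ?_⟩)))
          push_cast
          simp
      · by_cases hk0 : k = 0
        · subst hk0
          exact ⟨((0, (i : ℤ)), (-1, 0)), mem_gc.2 (mem_tot4.2 (Or.inl ⟨i, hi, rfl⟩)), rfl⟩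
        · obtain ⟨k', rfl⟩ : ∃ k', k = k' + 1 := ⟨k - 1, by omega⟩
          refine ⟨(((k' : ℤ) + 1, (i : ℤ)), (-1, 0)), mem_gc.2 (mem_tot4.2 (Or.inr ⟨k', by omega,
            mem_col4.2 (Or.inr (Or.inl ⟨i, hi, by simp⟩))⟩)), ?_⟩
          push_cast
          rfl
      · exact key _ (mem_col4.2 (Or.inr (Or.inl ⟨i, hi, by simp [vec]⟩)))

end Pool.Agent.UNI
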