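import Pool.Agent.UNI.Fin5

/-!
# UNIV: bounds that hold for every number of rows
-/

set_option autoImplicit false

namespace Pool.Agent.UNI

open Filter Topology Pool.Agent.EXL EXS EXS.Univ
open scoped ENNReal

/-- the window for the parameters. -/
def WinU (u : ℤ → ℝ) : Prop := ∀ k, Real.pi / 8 ≤ u k ∧ u k ≤ Real.pi / 4

/-- a lower bound of the weight `v`. -/
noncomputable def vq : ℝ := Real.sin (Real.pi / 8) ^ 2

theorem vq_pos : 0 < vq := by
  have h1 : 0 < Real.sin (Real.pi / 8) :=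
    Real.sin_pos_of_pos_of_lt_pi (by positivity) (by linarith [Real.pi_pos])
  unfold vq
  positivity

theorem vq_le {u : ℝ} (h1 : Real.pi / 8 ≤ u) (h2 : u ≤ Real.pi / 4) : vq ≤ (wR u).v := by
  have hp := Real.pi_pos
  have hs : 0 < Real.sin (Real.pi / 8) :=
    Real.sin_pos_of_pos_of_lt_pi (by positivity) (by linarith)
  have e1 : Real.sin (Real.pi / 8) ≤ Real.sin u :=
    Real.sin_le_sin_of_le_of_le_pi_div_two (by linarith) (by linarith) h1
  have e2 : Real.sin (Real.pi / 8) ≤ Real.sin (3 * Real.pi / 8 - u) :=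
    Real.sin_le_sin_of_le_of_le_pi_div_two (by linarith) (by linarith) (by linarith)
  have hD : 0 < DR u := DR_pos (by linarith) (by linarith)
  have hD1 : DR u ≤ 1 := by
    unfold DR
    have f1 : 0 ≤ Real.sin (u + Real.pi / 4) :=
      Real.sin_nonneg_of_nonneg_of_le_pi (by linarith) (by linarith)
    exact mul_le_one₀ (Real.sin_le_one _)
      (Real.sin_nonneg_of_nonneg_of_le_pi (by linarith) (by linarith)) (Real.sin_le_one _)
  show vq ≤ Real.sin u * Real.sin (3 * Real.pi / 8 - u) / DR u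
  rw [le_div_iff₀ hD]
  calc vq * DR u ≤ vq * 1 := mul_le_mul_of_nonneg_left hD1 vq_pos.le
    _ = Real.sin (Real.pi / 8) * Real.sin (Real.pi / 8) := by
      unfold vq
      ring
    _ ≤ _ := mul_le_mul e1 e2 hs.le (by linarith)

theorem Bu_succ {u : ℤ → ℝ} (hu : WinU u) (N : ℕ) :
    ENNReal.ofReal vq * Bu u N ≤ Bu u (N + 1) := by
  refine le_trans ?_ (Bcr_succ (w := fun k => wR (u k)) (fun i => wR_nn (hu i).1 (hu i).2) N)
  exact mul_le_mul_left (ENNReal.ofReal_le_ofReal (vq_le (hu N).1 (hu N).2)) _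

theorem Bu_add {u : ℤ → ℝ} (hu : WinU u) (N k : ℕ) :
    ENNReal.ofReal vq ^ k * Bu u N ≤ Bu u (N + k) := by
  induction k with
  | zero => simp
  | succ k ih =>
    calc ENNReal.ofReal vq ^ (k + 1) * Bu u N = ENNReal.ofReal vq * (ENNReal.ofReal vq ^ k * Bu u N) := by
          rw [pow_succ']
          ring
      _ ≤ ENNReal.ofReal vq * Bu u (N + k) := mul_le_mul_right ih _
      _ ≤ _ := Bu_succ hu _

theorem Bu_zero (u : ℤ → ℝ) : 1 ≤ Bu u 0 := by
  unfold Bu Bcr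
  refine le_trans ?_ (ENNReal.le_tsum [])
  have h : Crs 0 [] := by
    refine ⟨fun x hx => ?_, rfl⟩
    simp [pas] at hx
  rw [if_pos h]
  simp [wgt, pas]

theorem Bu_low {u : ℤ → ℝ} (hu : WinU u) (N : ℕ) : ENNReal.ofReal vq ^ N ≤ Bu u N := by
  have h := Bu_add hu 0 N
  rw [Nat.zero_add] at h
  refine le_trans ?_ h
  calc ENNReal.ofReal vq ^ N = ENNReal.ofReal vq ^ N * 1 := (mul_one _).symm
    _ ≤ _ := mul_le_mul_right (Bu_zero u) _

theorem Bu_low' {u : ℤ → ℝ} (hu : WinU u) (N : ℕ) : vq ^ N ≤ (Bu u N).toReal := by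
  have h := ENNReal.toReal_mono (Bu_ne_top hu N) (Bu_low hu N)
  rwa [ENNReal.toReal_pow, ENNReal.toReal_ofReal vq_pos.le] at h

theorem Bu_add' {u : ℤ → ℝ} (hu : WinU u) (N k : ℕ) :
    vq ^ k * (Bu u N).toReal ≤ (Bu u (N + k)).toReal := by
  have h := ENNReal.toReal_mono (Bu_ne_top hu _) (Bu_add hu N k)
  rwa [ENNReal.toReal_mul, ENNReal.toReal_pow, ENNReal.toReal_ofReal vq_pos.le] at h

theorem vq_le_one : vq ≤ 1 := by
  have hp := Real.pi_pos
  have h1 : 0 < Real.sin (Real.pi / 8) :=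
    Real.sin_pos_of_pos_of_lt_pi (by positivity) (by linarith)
  have h2 := Real.sin_le_one (Real.pi / 8)
  unfold vq
  nlinarith

theorem Hu_ge {u : ℤ → ℝ} (hu : WinU u) (N : ℕ) : (N : ℝ) / 2 ≤ Hu u N := by
  rw [Hu_eq]
  exact hgt_ge (xu_win hu N)

theorem Hu_le (u : ℤ → ℝ) (N : ℕ) : Hu u N ≤ N := by
  rw [Hu_eq]
  exact hgt_le _

/-- **the order of magnitude for every number of rows**. -/
theorem univ_two : ∃ c C : ℝ, 0 < c ∧ 0 < C ∧ ∀ u : ℤ → ℝ, WinU u → ∀ N : ℕ, 1 ≤ N →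
    c ≤ Hu u N ^ (1 / 4 : ℝ) * (Bu u N).toReal ∧ Hu u N ^ (1 / 4 : ℝ) * (Bu u N).toReal ≤ C := by
  have hb := bU_pos
  obtain ⟨R, hR⟩ := univ_explicit (bU / 2) (by linarith)
  obtain ⟨n0, hn0⟩ := exists_nat_ge (2 * R)
  set n := n0 + 1 with hn
  have hv := vq_pos
  have hv1 := vq_le_one
  have big : ∀ u : ℤ → ℝ, WinU u → ∀ N : ℕ, n ≤ N →
      bU / 2 ≤ Hu u N ^ (1 / 4 : ℝ) * (Bu u N).toReal ∧
        Hu u N ^ (1 / 4 : ℝ) * (Bu u N).toReal ≤ 3 * bU / 2 := by
    intro u hu N hN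
    have h1 := Hu_ge hu N
    have h2 : (n0 : ℝ) + 1 ≤ N := by exact_mod_cast hN
    have h3 := abs_le.1 (hR u hu N (by linarith))
    constructor <;> linarith [h3.1, h3.2]
  have half1 : (1 / 2 : ℝ) ≤ (1 / 2 : ℝ) ^ (1 / 4 : ℝ) := by
    calc (1 / 2 : ℝ) = (1 / 2 : ℝ) ^ (1 : ℝ) := (Real.rpow_one _).symm
      _ ≤ _ := Real.rpow_le_rpow_of_exponent_ge (by norm_num) (by norm_num) (by norm_num)
  have hH : ∀ u : ℤ → ℝ, WinU u → ∀ N : ℕ, 1 ≤ N → (1 / 2 : ℝ) ≤ Hu u N ^ (1 / 4 : ℝ) := by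
    intro u hu N hN
    refine half1.trans (Real.rpow_le_rpow (by norm_num) ?_ (by norm_num))
    have h1 := Hu_ge hu N
    have h2 : (1 : ℝ) ≤ N := by exact_mod_cast hN
    linarith
  refine ⟨min (bU / 2) (vq ^ n / 2), max (3 * bU / 2) (n * (3 * bU / vq ^ n)), ?_, ?_, ?_⟩
  · exact lt_min (by linarith) (by positivity)
  · exact lt_max_of_lt_left (by linarith)
  intro u hu N hN
  rcases le_total n N with h | h
  · obtain ⟨h1, h2⟩ := big u hu N h
    exact ⟨(min_le_left _ _).trans h1, h2.trans (le_max_left _ _)⟩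
  · have h1 := hH u hu N hN
    have h2 := Bu_low' hu N
    have h3 : vq ^ n ≤ vq ^ N := pow_le_pow_of_le_one hv.le hv1 h
    have h0 : 0 ≤ (Bu u N).toReal := ENNReal.toReal_nonneg
    constructor
    · refine (min_le_right _ _).trans ?_
      calc vq ^ n / 2 = 1 / 2 * vq ^ n := by ring
        _ ≤ Hu u N ^ (1 / 4 : ℝ) * (Bu u N).toReal :=
          mul_le_mul h1 (h3.trans h2) (by positivity) (by linarith)
    · refine le_trans ?_ (le_max_right _ _)
      have h4 := Bu_add' hu N n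
      obtain ⟨-, h5⟩ := big u hu (N + n) (by omega)
      have h6 := hH u hu (N + n) (by omega)
      have h7 : (Bu u (N + n)).toReal ≤ 3 * bU := by
        have h8 : 0 ≤ (Bu u (N + n)).toReal := ENNReal.toReal_nonneg
        nlinarith
      have h9 : (Bu u N).toReal ≤ 3 * bU / vq ^ n := by
        rw [le_div_iff₀ (by positivity)]
        linarith
      have h10 : Hu u N ^ (1 / 4 : ℝ) ≤ n := by
        have h11 : Hu u N ≤ n := (Hu_le u N).trans (by exact_mod_cast h)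
        have h12 : 0 ≤ Hu u N := le_trans (by positivity) (Hu_ge hu N)
        have h13 : (1 : ℝ) ≤ n := by
          rw [hn]
          push_cast
          linarith [Nat.cast_nonneg (α := ℝ) n0]
        calc Hu u N ^ (1 / 4 : ℝ) ≤ (n : ℝ) ^ (1 / 4 : ℝ) := Real.rpow_le_rpow h12 h11 (by norm_num)
          _ ≤ (n : ℝ) ^ (1 : ℝ) := Real.rpow_le_rpow_of_exponent_le h13 (by norm_num)
          _ = n := Real.rpow_one _
      exact mul_le_mul h10 h9 h0 (by positivity)

end Pool.Agent.UNI
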