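import Pool.Agent.EXL.GreenHS

/-!
# UNIV, module M5 (general part): crossings that need at most m + 1 columns

`ZZ m`: total weight of the words that fit in m columns, over all positions of the foot; `WW m`: total weight of
the words that need at most m + 1 columns.  `ZZ (m + 1) = ZZ m + WW m`, and `WW m` increases to the total weight
of all words.  On the side of the operators: if a nonnegative half strip function with number `β` exists, the
increments of the partition functions increase to `β`.  Hence the total weight of all words is `β`.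
-/

set_option autoImplicit false

namespace Pool.Agent.UNI

open Pool.Agent.EXL Pool.Agent.EXL.Pat Filter Topology
open scoped ENNReal

section width

variable {W : Type*} (wt : W → ℝ≥0∞) (lo hi : W → ℤ)

/-- total weight of the words that fit in m columns, over all positions of the foot. -/
noncomputable def ZZ (m : ℕ) : ℝ≥0∞ :=
  ∑ j ∈ Finset.range m, ∑' t, if 0 ≤ (j : ℤ) + lo t ∧ (j : ℤ) + hi t < m then wt t else 0

/-- total weight of the words that need at most m + 1 columns. -/
noncomputable def WW (m : ℕ) : ℝ≥0∞ := ∑' t, if hi t - lo t ≤ m then wt t else 0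

variable {lo hi}

theorem sum_fit (h0 : ∀ t, lo t ≤ 0 ∧ 0 ≤ hi t) (m : ℕ) (t : W) :
    (∑ j ∈ Finset.range m, if 0 ≤ (j : ℤ) + lo t ∧ (j : ℤ) + hi t < m then wt t else 0) =
      (((m : ℤ) - (hi t - lo t)).toNat : ℝ≥0∞) * wt t := by
  rw [← Finset.sum_filter, Finset.sum_const, nsmul_eq_mul]
  have h1 := h0 t
  have e : (Finset.range m).filter (fun j : ℕ => 0 ≤ (j : ℤ) + lo t ∧ (j : ℤ) + hi t < m) =
      Finset.Ico (-lo t).toNat ((m : ℤ) - hi t).toNat := by
    ext j
    rw [Finset.mem_filter, Finset.mem_range, Finset.mem_Ico]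
    constructor
    · rintro ⟨h2, h3, h4⟩
      omega
    · rintro ⟨h2, h3⟩
      refine ⟨by omega, by omega, by omega⟩
  rw [e, Nat.card_Ico]
  congr 2
  omega

theorem ZZ_eq (h0 : ∀ t, lo t ≤ 0 ∧ 0 ≤ hi t) (m : ℕ) :
    ZZ wt lo hi m = ∑' t, (((m : ℤ) - (hi t - lo t)).toNat : ℝ≥0∞) * wt t := by
  unfold ZZ
  rw [← Summable.tsum_finsetSum (fun _ _ => ENNReal.summable)]
  exact tsum_congr (fun t => sum_fit wt h0 m t)

theorem ZZ_succ (h0 : ∀ t, lo t ≤ 0 ∧ 0 ≤ hi t) (m : ℕ) :
    ZZ wt lo hi (m + 1) = ZZ wt lo hi m + WW wt lo hi m := by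
  rw [ZZ_eq wt h0, ZZ_eq wt h0]
  unfold WW
  rw [← ENNReal.tsum_add]
  apply tsum_congr
  intro t
  have h1 := h0 t
  by_cases h : hi t - lo t ≤ m
  · rw [if_pos h]
    have e : (((m + 1 : ℕ) : ℤ) - (hi t - lo t)).toNat = ((m : ℤ) - (hi t - lo t)).toNat + 1 := by omega
    rw [e]
    push_cast
    ring
  · rw [if_neg h, add_zero]
    have e : (((m + 1 : ℕ) : ℤ) - (hi t - lo t)).toNat = ((m : ℤ) - (hi t - lo t)).toNat := by omega
    rw [e]

theorem WW_mono : Monotone (WW wt lo hi) := by
  intro m m' h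
  apply ENNReal.tsum_le_tsum
  intro t
  split_ifs with h1 h2
  · exact le_rfl
  · exact absurd (h1.trans (by exact_mod_cast h)) h2
  · exact zero_le
  · exact le_rfl

theorem WW_le (m : ℕ) : WW wt lo hi m ≤ ∑' t, wt t := by
  apply ENNReal.tsum_le_tsum
  intro t
  split_ifs
  · exact le_rfl
  · exact zero_le

theorem WW_tendsto : Tendsto (WW wt lo hi) atTop (𝓝 (∑' t, wt t)) := by
  have h1 := tendsto_atTop_iSup (WW_mono wt (lo := lo) (hi := hi))
  have h2 : (⨆ m, WW wt lo hi m) = ∑' t, wt t := by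
    apply le_antisymm (iSup_le (fun m => WW_le wt m))
    rw [ENNReal.tsum_eq_iSup_sum]
    apply iSup_le
    intro s
    classical
    -- the largest width in s
    have h3 : ∃ m : ℕ, ∀ t ∈ s, hi t - lo t ≤ m := by
      induction s using Finset.induction_on with
      | empty => exact ⟨0, by simp⟩
      | insert a s _ ih =>
        obtain ⟨m, hm⟩ := ih
        refine ⟨m + (hi a - lo a).toNat, ?_⟩
        intro t ht
        rw [Finset.mem_insert] at ht
        push_cast
        rcases ht with rfl | ht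
        · omega
        · have := hm t ht
          omega
    obtain ⟨m, hm⟩ := h3
    refine le_trans ?_ (le_iSup (WW wt lo hi) m)
    calc ∑ t ∈ s, wt t = ∑ t ∈ s, (if hi t - lo t ≤ m then wt t else 0) :=
          Finset.sum_congr rfl (fun t ht => (if_pos (hm t ht)).symm)
      _ ≤ WW wt lo hi m := ENNReal.sum_le_tsum s
  rw [h2] at h1
  exact h1

/-- the increments of the partition functions determine the total weight of all words. -/
theorem tsum_eq_of_incr (h0 : ∀ t, lo t ≤ 0 ∧ 0 ≤ hi t) {a : ℕ → ℝ} (ha : ∀ m, 0 ≤ a m)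
    (hZ : ∀ m, ENNReal.ofReal (a m) = ZZ wt lo hi m) {β : ℝ}
    (hβ : Tendsto (fun m => a (m + 1) - a m) atTop (𝓝 β)) : ∑' t, wt t = ENNReal.ofReal β := by
  have h1 : ∀ m, ENNReal.ofReal (a (m + 1) - a m) = WW wt lo hi m := by
    intro m
    rw [ENNReal.ofReal_sub _ (ha m), hZ, ZZ_succ wt h0, ← hZ]
    exact ENNReal.add_sub_cancel_left ENNReal.ofReal_ne_top
  have h2 := ENNReal.tendsto_ofReal hβ
  simp only [h1] at h2
  exact tendsto_nhds_unique (WW_tendsto wt) h2

end width

section operators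

open HS

variable {α : Type*} [DecidableEq α] {b t : α} {A : Pat α → Prop} {X : (Pat α → ℝ) → (Pat α → ℝ)}
  {β : ℝ} {F : Pat α → ℝ}

omit [DecidableEq α] in
theorem mono_sub {u v : ℝ} (h : u ≤ v) : 0 ≤ v - u := sub_nonneg.2 h

/-- the half strip function on the admissible states different from the empty one. -/
noncomputable def Fz (A : Pat α → Prop) (F : Pat α → ℝ) (p : Pat α) : ℝ :=
  open scoped Classical in if A p ∧ p ≠ Pat.empty then F p else 0

omit [DecidableEq α] in
theorem Fz_empty : Fz A F Pat.empty = 0 := by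
  unfold Fz
  rw [if_neg (fun h => h.2 rfl)]

omit [DecidableEq α] in
theorem Fz_of {p : Pat α} (hp : A p) (hne : p ≠ Pat.empty) : Fz A F p = F p := by
  unfold Fz
  rw [if_pos ⟨hp, hne⟩]

theorem half_Fz (hbt : b ≠ t) (hf : A (full b t)) (he : A Pat.empty) (hX : Good b t X)
    (PX : Pres A A X) (h : Half b t A X β F) : Half b t A X β (Fz A F) :=
  h.change he hX PX hf hbt (fun _ hp hne => (Fz_of hp hne).symm)

theorem HH_le (hbt : b ≠ t) (hf : A (full b t)) (he : A Pat.empty) (hP : PosOp X) (hX : Good b t X)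
    (PX : Pres A A X) (hF : ∀ p, A p → p ≠ Pat.empty → 0 ≤ F p) (h : Half b t A X β F) (m : ℕ)
    (p : Pat α) : HH b t A X m p ≤ Fz A F p := by
  induction m generalizing p with
  | zero =>
    by_cases hp : A p ∧ p ≠ Pat.empty
    · unfold HH Fz
      rw [if_pos hp, if_pos hp]
      show (ind (full b t) : Pat α → ℝ) p ≤ F p
      by_cases h1 : p = full b t
      · rw [h1, HS.ind_self, h.fullv]
      · rw [HS.ind_ne h1]
        exact hF p hp.1 hp.2
    · unfold HH Fz
      rw [if_neg hp, if_neg hp]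
  | succ m ih =>
    by_cases hp : A p ∧ p ≠ Pat.empty
    · have e1 : HH b t A X (m + 1) p = X (HH b t A X m) p := by
        have e2 : HH b t A X (m + 1) p = FF b t X (m + 1) p := by
          unfold HH
          rw [if_pos hp]
        rw [e2, FF_succ, X_FF hX PX m hp.1, dE_ne hp.2, mul_zero, add_zero]
      rw [e1, ← (half_Fz hbt hf he hX PX h).eq p hp.1 hp.2]
      exact hP.mono hX.lin ih p
    · unfold HH Fz
      rw [if_neg hp, if_neg hp]

theorem FF_incr_eq (he : A Pat.empty) (hX : Good b t X) (PX : Pres A A X) (m : ℕ) :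
    FF b t X (m + 1) Pat.empty - FF b t X m Pat.empty = X (HH b t A X m) Pat.empty := by
  rw [FF_succ, X_FF hX PX m he, dE_empty]
  ring

theorem FF_incr_le (hbt : b ≠ t) (hf : A (full b t)) (he : A Pat.empty) (hP : PosOp X)
    (hX : Good b t X) (PX : Pres A A X) (hF : ∀ p, A p → p ≠ Pat.empty → 0 ≤ F p)
    (h : Half b t A X β F) (m : ℕ) : FF b t X (m + 1) Pat.empty - FF b t X m Pat.empty ≤ β := by
  rw [FF_incr_eq he hX PX]
  have h1 := (half_Fz hbt hf he hX PX h).emp
  rw [Fz_empty, zero_add] at h1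
  rw [← h1]
  exact hP.mono hX.lin (HH_le hbt hf he hP hX PX hF h m) _

theorem HH_mono (hP : PosOp X) (hX : Good b t X) {m m' : ℕ} (hm : m ≤ m') (p : Pat α) :
    HH b t A X m p ≤ HH b t A X m' p := by
  unfold HH
  split_ifs
  · exact FF_mono hX hP p hm
  · exact le_rfl

/-- A nonnegative half strip function: the increments of the partition functions increase to its number. -/
theorem FF_incr_tendsto [Finite α] (hbt : b ≠ t) (hf : A (full b t)) (he : A Pat.empty)
    (hP : PosOp X) (hX : Good b t X) (PX : Pres A A X) (hR : Reach A b t X) (hC : CoReach A b t X)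
    (hF : ∀ p, A p → p ≠ Pat.empty → 0 ≤ F p) (h : Half b t A X β F) :
    Tendsto (fun m => FF b t X (m + 1) Pat.empty - FF b t X m Pat.empty) atTop (𝓝 β) := by
  have hle := FF_incr_le hbt hf he hP hX PX hF h
  have hmono : Monotone (fun m => FF b t X (m + 1) Pat.empty - FF b t X m Pat.empty) := by
    intro m m' hm
    simp only
    rw [FF_incr_eq he hX PX, FF_incr_eq he hX PX]
    exact hP.mono hX.lin (HH_mono hP hX hm) _
  have hbdd : BddAbove (Set.range (fun m => FF b t X (m + 1) Pat.empty - FF b t X m Pat.empty)) :=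
    ⟨β, by rintro _ ⟨m, rfl⟩; exact hle m⟩
  have hlim := tendsto_atTop_ciSup hmono hbdd
  have hle' : ∀ m, FF b t X (m + 1) Pat.empty - FF b t X m Pat.empty ≤
      ⨆ m, (FF b t X (m + 1) Pat.empty - FF b t X m Pat.empty) := fun m => le_ciSup hbdd m
  have h1 := half_lim hbt hf he hP hX PX hle' hlim hR
  have h2 := inj_lim hbt hf he hP hX PX hle' hlim hR hC
  have h3 := (Half.unique hbt he hX PX h2 h h1).1
  rw [h3]
  exact hlim

end operators

/-- **M5, general form.** The total weight of all words is the number of the half strip function. -/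
theorem tsum_eq_half {α : Type*} [DecidableEq α] [Finite α] {b t : α} {A : Pat α → Prop}
    {X : (Pat α → ℝ) → (Pat α → ℝ)} {β : ℝ} {F : Pat α → ℝ} {W : Type*} (wt : W → ℝ≥0∞)
    {lo hi : W → ℤ} (h0 : ∀ t, lo t ≤ 0 ∧ 0 ≤ hi t)
    (hbt : b ≠ t) (hf : A (HS.full b t)) (he : A Pat.empty) (hP : HS.PosOp X) (hX : HS.Good b t X)
    (PX : HS.Pres A A X) (hR : HS.Reach A b t X) (hC : HS.CoReach A b t X)
    (hZ : ∀ m, ENNReal.ofReal (HS.FF b t X m Pat.empty) = ZZ wt lo hi m)
    (hF : ∀ p, A p → p ≠ Pat.empty → 0 ≤ F p) (h : HS.Half b t A X β F) :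
    ∑' w, wt w = ENNReal.ofReal β :=
  tsum_eq_of_incr wt h0 (fun m => HS.FF_nonneg hP m _) hZ
    (FF_incr_tendsto hbt hf he hP hX PX hR hC hF h)

end Pool.Agent.UNI
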