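import Pool.Agent.UNI.Win0
import Pool.Agent.UNI.Gen
import Pool.Agent.UNI.BFAllS
import Pool.Agent.EXS.U7
import Pool.Agent.EXL.Ident

/-!
# UNIV, M4: all rows of the window

`Rch N`: output of M3 (`Reach`, `CoReach` for the columns with `N` rows of the window).
-/

set_option autoImplicit false

namespace Pool.Agent.UNI

open Filter Topology Pool.Agent.EXL EXS EXS.Univ

/-- the output of M3 for `N` rows. -/
def Rch (N : ℕ) : Prop := ∀ x : Fin N → ℝ, (∀ k, |x k| ≤ Real.pi / 16) →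
  HS.Reach (AN N) Site.fl Site.tp (colX x) ∧ HS.CoReach (AN N) Site.fl Site.tp (colX x)

/-- M7 for the strip with `N` rows. -/
theorem bfs (N : ℕ) : BFS N := by
  intro y hy z hz F e b B H hF hb
  have hax : ∀ k : Fin 6, (Sum.inr k : LbN N) ∈ axN N := fun k => ⟨k, rfl⟩
  have hne : ∀ k l : Fin 6, k ≠ l → (Sum.inr k : LbN N) ≠ Sum.inr l := fun k l h h' =>
    h (Sum.inr_injective h')
  have ha : Aux4 (axN N) (rowsN N) (Sum.inr 0) (Sum.inr 1) (Sum.inr 2) (Sum.inr 3) :=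
    { mi := hax 0
      mj := hax 1
      mi' := hax 2
      mj' := hax 3
      ij := hne 0 1 (by decide)
      ii := hne 0 2 (by decide)
      ij' := hne 0 3 (by decide)
      ji' := hne 1 2 (by decide)
      jj' := hne 1 3 (by decide)
      ij2 := hne 2 3 (by decide)
      ri := row_notMem N _ (hax 0)
      rj := row_notMem N _ (hax 1)
      ri' := row_notMem N _ (hax 2)
      rj' := row_notMem N _ (hax 3) }
  exact Fm.bf_all_s hy (Ins.laws (LN N)) (row := Sum.inl) Sum.inl_injective rfl hz ha H hF hb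

/-- the increments at the honeycomb point. -/
theorem DD_hex {N : ℕ} (hN : 1 ≤ N) (m : ℕ) : DD Site.fl Site.tp (colH N) m ≤ HexObs.bT N := by
  unfold DD
  rw [FF_eq, FF_eq, Zm_eq_Zw hN, Zm_eq_Zw hN]
  exact (Zw_step_le hN m).2

theorem row_ok {t : ℝ} (h : |t| ≤ Real.pi / 16) :
    Real.pi / 8 ≤ 3 * Real.pi / 16 - t ∧ 3 * Real.pi / 16 - t ≤ Real.pi / 4 := by
  have := abs_le.1 h
  constructor <;> linarith

theorem posOp_colX {N : ℕ} {x : Fin N → ℝ} (hx : ∀ k, |x k| ≤ Real.pi / 16) :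
    HS.PosOp (colX x) :=
  posOp_colW fun i => wR_nn (row_ok (hx i)).1 (row_ok (hx i)).2

theorem good_colX {N : ℕ} (x : Fin N → ℝ) : HS.Good Site.fl Site.tp (colX x) := good_colW _

theorem pres_colX {N : ℕ} (x : Fin N → ℝ) : HS.Pres (AN N) (AN N) (colX x) := pres_colW _

/-- the window. -/
abbrev Wi (N : ℕ) : Set (Fin N → ℝ) :=
  Set.Icc (fun _ => -(Real.pi / 16)) (fun _ => Real.pi / 16)

theorem mem_Wi {N : ℕ} {x : Fin N → ℝ} : x ∈ Wi N ↔ ∀ k, |x k| ≤ Real.pi / 16 := by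
  rw [Set.mem_Icc, Pi.le_def, Pi.le_def]
  constructor
  · intro h k
    exact abs_le.2 ⟨h.1 k, h.2 k⟩
  · intro h
    exact ⟨fun k => (abs_le.1 (h k)).1, fun k => (abs_le.1 (h k)).2⟩

theorem cont_colX {N : ℕ} (z0 : Wi N) (F : Pat (Site N) → ℝ) (p : Pat (Site N)) :
    ContinuousAt (fun z : Wi N => colX z.1 F p) z0 := by
  have hp := Real.pi_pos
  have h0 := mem_Wi.1 z0.2
  unfold colX
  refine cont_colW (w := fun (z : Wi N) i => wR (3 * Real.pi / 16 - z.1 i)) (fun i => ?_)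
    (F := fun _ => F) (fun _ => continuousAt_const) p
  refine cont_wR (u := fun z : Wi N => 3 * Real.pi / 16 - z.1 i) ?_ ?_
  · exact (continuous_const.sub ((continuous_apply i).comp continuous_subtype_val)).continuousAt
  · have h1 := row_ok (h0 i)
    exact (DR_pos (by linarith) (by linarith)).ne'

/-- **the window theorem**: a bound for all half strip numbers is a bound for all increments. -/
theorem window {N : ℕ} (hN : 1 ≤ N) (hR : Rch N) {M : ℝ}
    (hM : ∀ x : Fin N → ℝ, (∀ k, |x k| ≤ Real.pi / 16) → ∀ (β : ℝ) (F : Pat (Site N) → ℝ),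
      HS.Half Site.fl Site.tp (AN N) (colX x) β F →
      HS.Inj Site.fl Site.tp (AN N) (colX x) → β ≤ M)
    {x : Fin N → ℝ} (hx : ∀ k, |x k| ≤ Real.pi / 16) (m : ℕ) :
    DD Site.fl Site.tp (colX x) m ≤ M := by
  have hp := Real.pi_pos
  have : PreconnectedSpace (Wi N) :=
    Subtype.preconnectedSpace (convex_Icc _ _).isPreconnected
  have h1 : (fun _ : Fin N => Real.pi / 16) ∈ Wi N := by
    rw [mem_Wi]
    intro k
    rw [abs_of_pos (by positivity)]
  have h2 : ∀ m, DD Site.fl Site.tp (colX (⟨_, h1⟩ : Wi N).1) m ≤ HexObs.bT N := by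
    intro m
    show DD Site.fl Site.tp (colX fun _ : Fin N => Real.pi / 16) m ≤ _
    rw [colX_hex]
    exact DD_hex hN m
  exact bounded_all (Z := Wi N) (X := fun z => colX z.1) (A := AN N) (by simp) (AN_full N)
    (AN_empty N) (fun z => posOp_colX (mem_Wi.1 z.2)) (fun z => good_colX z.1)
    (fun z => pres_colX z.1) cont_colX (fun z => (hR z.1 (mem_Wi.1 z.2)).1)
    (fun z => (hR z.1 (mem_Wi.1 z.2)).2)
    (fun z _ hh hi => hM z.1 (mem_Wi.1 z.2) _ _ hh hi) h2 ⟨x, mem_Wi.2 hx⟩ m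

/-- the heights. -/
theorem hgt_ge {N : ℕ} {x : Fin N → ℝ} (hx : ∀ k, |x k| ≤ Real.pi / 16) : (N : ℝ) / 2 ≤ hgt x := by
  unfold hgt
  have h1 : ∀ k ∈ (Finset.univ : Finset (Fin N)), (1 / 2 : ℝ) ≤ Real.cos (8 * x k / 3) := by
    intro k _
    have h2 := (ta_le_cos (abs_nonneg (x k)) (hx k)).1
    have h3 : Real.cos (8 * |x k| / 3) = Real.cos (8 * x k / 3) := by
      rcases abs_cases (x k) with ⟨h, _⟩ | ⟨h, _⟩
      · rw [h]
      · rw [h, show 8 * -x k / 3 = -(8 * x k / 3) by ring, Real.cos_neg]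
    rw [h3] at h2
    exact ta_gt_half.le.trans h2
  calc (N : ℝ) / 2 = ∑ _k : Fin N, (1 / 2 : ℝ) := by
        rw [Finset.sum_const, Finset.card_univ, Fintype.card_fin, nsmul_eq_mul]
        ring
    _ ≤ _ := Finset.sum_le_sum h1

theorem hgt_le {N : ℕ} (x : Fin N → ℝ) : hgt x ≤ N := by
  unfold hgt
  calc _ ≤ ∑ _k : Fin N, (1 : ℝ) := Finset.sum_le_sum fun k _ => Real.cos_le_one _
    _ = N := by simp

/-- all half strip numbers of many rows are bounded. -/
theorem num_le : ∃ (M : ℝ) (N0 : ℕ), 1 ≤ N0 ∧ ∀ N : ℕ, N0 ≤ N → ∀ x : Fin N → ℝ,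
    (∀ k, |x k| ≤ Real.pi / 16) → ∀ (β : ℝ) (F : Pat (Site N) → ℝ),
      HS.Half Site.fl Site.tp (AN N) (colX x) β F →
      HS.Inj Site.fl Site.tp (AN N) (colX x) → β ≤ M := by
  obtain ⟨b, hb0, hb⟩ := nodes_univ
  obtain ⟨R, hR⟩ := hb 1 one_pos
  obtain ⟨N0, hN0⟩ := exists_nat_ge (2 * max R 1)
  have hN1 : (2 : ℝ) ≤ N0 := by
    have := le_max_right R 1
    linarith
  refine ⟨b + 2, N0, by exact_mod_cast (by linarith : (1 : ℝ) ≤ N0), ?_⟩
  intro N hN x hx β F hh hi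
  obtain ⟨y, s0, s, hSD, -, h2⟩ := gen_lim_of (bfs N) hx hh hi one_pos
  have hNN : (N0 : ℝ) ≤ N := by exact_mod_cast hN
  have hy : ∀ k, |y k| ≤ Real.pi / 16 := fun k => by
    rw [abs_of_pos (hSD.pos k)]
    exact (hSD.lt k).le
  have h3 := hgt_ge hy
  have h4 : max R 1 ≤ hgt y := by linarith
  have h5 := hR N y s0 s hSD ((le_max_left _ _).trans h4)
  have h6 : 1 ≤ hgt y ^ (1 / 4 : ℝ) :=
    Real.one_le_rpow ((le_max_right R 1).trans h4) (by norm_num)
  have h7 := (abs_le.1 h5).2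
  have h8 := abs_nonneg (SS y s0 s cst)
  have h9 : |SS y s0 s cst| ≤ b + 1 := by nlinarith
  have h10 := (abs_le.1 h2).2
  have h11 := le_abs_self β
  linarith

end Pool.Agent.UNI
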