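import Pool.Agent.EXL.GreenHS

/-!
# UNIV, M4(a): the continuity method (abstract part)

A family `X z` of good positive operators depending continuously on the parameter `z` of a connected space.
At one point the increments of the iterates are bounded, and the number of every half strip function is at
most `M`.  Then the half strip function exists, it is the limit of the iterates, and `1 - X` is injective,
at all points.
-/

set_option autoImplicit false

namespace Pool.Agent.UNI

open Filter Topology Pool.Agent.EXL Pool.Agent.EXL.HS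

variable {α : Type*} [DecidableEq α] {b t : α} {A : Pat α → Prop}

/-- the increments of the iterates at the empty state. -/
noncomputable def DD (b t : α) (X : (Pat α → ℝ) → (Pat α → ℝ)) (m : ℕ) : ℝ :=
  FF b t X (m + 1) Pat.empty - FF b t X m Pat.empty

section one

variable {X : (Pat α → ℝ) → (Pat α → ℝ)}

theorem emp_le (hP : PosOp X) (hX : Good b t X) {F : Pat α → ℝ} (hF : ∀ p, 0 ≤ F p) :
    F Pat.empty ≤ X F Pat.empty := by
  have h := hP.mono hX.lin (F := fun p => F Pat.empty * (dE : Pat α → ℝ) p) (G := F) (fun p => by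
    by_cases hp : p = Pat.empty
    · rw [hp, dE_empty, mul_one]
    · rw [dE_ne hp, mul_zero]
      exact hF p) Pat.empty
  rw [PosOp.smul hX.lin, hX.dE] at h
  simp only at h
  rwa [dE_empty, mul_one] at h

theorem DD_mono (hP : PosOp X) (hX : Good b t X) : Monotone (DD b t X) := by
  refine monotone_nat_of_le_succ fun m => ?_
  have h := emp_le hP hX (F := fun p => FF b t X (m + 1) p - FF b t X m p)
    (fun p => sub_nonneg.2 (FF_step hX hP m p))
  rw [hX.lin.sub] at h
  simp only at h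
  have e1 := congrFun (FF_succ (b := b) (t := t) (X := X) (m + 1)) Pat.empty
  have e2 := congrFun (FF_succ (b := b) (t := t) (X := X) m) Pat.empty
  unfold DD
  rw [e1]
  rw [← e2] at h
  exact h

theorem DD_nonneg (hP : PosOp X) (hX : Good b t X) (m : ℕ) : 0 ≤ DD b t X m :=
  sub_nonneg.2 (FF_step hX hP m _)

/-- the limit of the increments. -/
noncomputable def BB (b t : α) (X : (Pat α → ℝ) → (Pat α → ℝ)) : ℝ := ⨆ m, DD b t X m

theorem DD_bdd {K : ℝ} (hK : ∀ m, DD b t X m ≤ K) : BddAbove (Set.range (DD b t X)) :=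
  ⟨K, by rintro _ ⟨m, rfl⟩; exact hK m⟩

theorem DD_le_BB {K : ℝ} (hK : ∀ m, DD b t X m ≤ K) (m : ℕ) : DD b t X m ≤ BB b t X :=
  le_ciSup (DD_bdd hK) m

theorem BB_le {K : ℝ} (hK : ∀ m, DD b t X m ≤ K) : BB b t X ≤ K := ciSup_le hK

theorem DD_tendsto (hP : PosOp X) (hX : Good b t X) {K : ℝ} (hK : ∀ m, DD b t X m ≤ K) :
    Tendsto (DD b t X) atTop (𝓝 (BB b t X)) :=
  tendsto_atTop_ciSup (DD_mono hP hX) (DD_bdd hK)

/-- the half strip function as soon as the increments are bounded. -/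
theorem half_BB [Finite α] (hbt : b ≠ t) (hf : A (full b t)) (he : A Pat.empty) (hP : PosOp X)
    (hX : Good b t X) (PX : Pres A A X) (hR : Reach A b t X) {K : ℝ} (hK : ∀ m, DD b t X m ≤ K) :
    Half b t A X (BB b t X) (Flim b t A X) :=
  half_lim hbt hf he hP hX PX (DD_le_BB hK) (DD_tendsto hP hX hK) hR

theorem inj_BB [Finite α] (hbt : b ≠ t) (hf : A (full b t)) (he : A Pat.empty) (hP : PosOp X)
    (hX : Good b t X) (PX : Pres A A X) (hR : Reach A b t X) (hC : CoReach A b t X) {K : ℝ}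
    (hK : ∀ m, DD b t X m ≤ K) : Inj b t A X :=
  inj_lim hbt hf he hP hX PX (DD_le_BB hK) (DD_tendsto hP hX hK) hR hC

theorem FF_le_Flim [Finite α] (hP : PosOp X) (hX : Good b t X) (hR : Reach A b t X) {K : ℝ}
    (hK : ∀ m, DD b t X m ≤ K) (m : ℕ) {p : Pat α} (hp : A p) (hne : p ≠ Pat.empty) :
    FF b t X m p ≤ Flim b t A X p := by
  obtain ⟨K', hK'⟩ := FF_bdd hP hX (DD_le_BB hK) hR hp hne
  unfold Flim
  rw [if_pos ⟨hp, hne⟩]
  exact le_ciSup (f := fun m => FF b t X m p) ⟨K', by rintro _ ⟨m, rfl⟩; exact hK' m⟩ m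

theorem Flim_pos [Finite α] (hP : PosOp X) (hX : Good b t X) (hR : Reach A b t X)
    (hC : CoReach A b t X) {K : ℝ} (hK : ∀ m, DD b t X m ≤ K) {p : Pat α} (hl : Live b t p)
    (hp : A p) : 0 < Flim b t A X p := by
  obtain ⟨c, hc⟩ := hC p hl hp
  exact lt_of_lt_of_le hc (FF_le_Flim hP hX hR hK c hp hl.2)

theorem Flim_nonneg [Finite α] (hP : PosOp X) (hX : Good b t X) (hR : Reach A b t X) {K : ℝ}
    (hK : ∀ m, DD b t X m ≤ K) (p : Pat α) : 0 ≤ Flim b t A X p := by
  by_cases h : A p ∧ p ≠ Pat.empty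
  · exact (FF_nonneg hP 0 p).trans (FF_le_Flim hP hX hR hK 0 h.1 h.2)
  · unfold Flim
    rw [if_neg h]

/-- a nonnegative half strip function bounds the increments. -/
theorem DD_le_of_half (he : A Pat.empty) (hP : PosOp X) (hX : Good b t X)
    (PX : Pres A A X) {β : ℝ} {F : Pat α → ℝ} (h : Half b t A X β F) (hF : ∀ p, 0 ≤ F p)
    (hF0 : F Pat.empty = 0) (m : ℕ) : DD b t X m ≤ β := by
  have key : ∀ m p, HH b t A X m p ≤ F p := by
    intro m
    induction m with
    | zero =>
      intro p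
      unfold HH
      split_ifs with hp
      · by_cases hpf : p = full b t
        · rw [hpf, FF_full hX, h.fullv]
        · have h1 : FF b t X 0 p = 0 := ind_ne hpf
          rw [h1]
          exact hF p
      · exact hF p
    | succ m ih =>
      intro p
      unfold HH
      split_ifs with hp
      · rw [FF_succ, X_FF hX PX m hp.1, dE_ne hp.2, mul_zero, add_zero]
        exact (hP.mono hX.lin ih p).trans (h.eq p hp.1 hp.2).le
      · exact hF p
  unfold DD
  rw [FF_succ, X_FF hX PX m he, dE_empty, mul_one, add_sub_cancel_right]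
  refine (hP.mono hX.lin (key m) Pat.empty).trans ?_
  rw [h.emp, hF0, zero_add]

end one

section family

variable {Z : Type*} [TopologicalSpace Z] {X : Z → (Pat α → ℝ) → (Pat α → ℝ)}

omit [DecidableEq α] in
theorem cont_apply [Finite α] (hL : ∀ z, Lin (X z)) {z0 : Z}
    (hcont : ∀ (F : Pat α → ℝ) (p : Pat α), ContinuousAt (fun z => X z F p) z0)
    {G : Z → Pat α → ℝ} (hG : ∀ p, ContinuousAt (fun z => G z p) z0) (p : Pat α) :
    ContinuousAt (fun z => X z (G z) p) z0 := by
  classical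
  have : Fintype (Pat α) := Fintype.ofFinite _
  have e : (fun z => X z (G z) p) = fun z => ∑ q, G z q * X z (ind q) p := by
    funext z
    exact (hL z).apply_eq_sum _ _
  rw [e]
  exact tendsto_finsetSum _ fun q _ => (hG q).mul (hcont _ _)

theorem cont_FF [Finite α] (hL : ∀ z, Lin (X z)) {z0 : Z}
    (hcont : ∀ (F : Pat α → ℝ) (p : Pat α), ContinuousAt (fun z => X z F p) z0) (m : ℕ) (p : Pat α) :
    ContinuousAt (fun z => FF b t (X z) m p) z0 := by
  induction m generalizing p with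
  | zero => exact continuousAt_const
  | succ m ih =>
    have e : (fun z => FF b t (X z) (m + 1) p) = fun z => X z (FF b t (X z) m) p := by
      funext z
      rw [FF_succ]
    rw [e]
    exact cont_apply hL hcont ih p

theorem cont_DD [Finite α] (hL : ∀ z, Lin (X z))
    (hcont : ∀ (z0 : Z) (F : Pat α → ℝ) (p : Pat α), ContinuousAt (fun z => X z F p) z0) (m : ℕ) :
    Continuous fun z => DD b t (X z) m :=
  continuous_iff_continuousAt.2 fun z0 =>
    (cont_FF hL (hcont z0) (m + 1) _).sub (cont_FF hL (hcont z0) m _)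

/-- openness. -/
theorem open_step [Finite α] (hbt : b ≠ t) (hf : A (full b t)) (he : A Pat.empty)
    (hP : ∀ z, PosOp (X z)) (hX : ∀ z, Good b t (X z)) (PX : ∀ z, Pres A A (X z))
    (hcont : ∀ (z0 : Z) (F : Pat α → ℝ) (p : Pat α), ContinuousAt (fun z => X z F p) z0)
    {z0 : Z} (hR : Reach A b t (X z0)) (hC : CoReach A b t (X z0)) {K : ℝ}
    (hK : ∀ m, DD b t (X z0) m ≤ K) :
    ∀ᶠ z in 𝓝 z0, ∃ K', ∀ m, DD b t (X z) m ≤ K' := by
  classical
  have hhalf := half_BB hbt hf he (hP z0) (hX z0) (PX z0) hR hK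
  have hinj := inj_BB hbt hf he (hP z0) (hX z0) (PX z0) hR hC hK
  obtain ⟨F, B, hev, hFc, -, hF0, hFoff⟩ := exists_half hbt hf hX (hcont z0) hinj
  have hself : Half b t A (X z0) (B z0) (F z0) := hev.self_of_nhds.1
  have heq := (Half.unique hbt he (hX z0) (PX z0) hinj hself hhalf).2
  have hpos : ∀ᶠ z in 𝓝 z0, ∀ p, Live b t p → A p → 0 < F z p := by
    rw [eventually_all]
    intro p
    by_cases h : Live b t p ∧ A p
    · have h1 : 0 < F z0 p := by
        rw [heq p h.2 h.1.2]
        exact Flim_pos (hP z0) (hX z0) hR hC hK h.1 h.2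
      filter_upwards [(hFc p).eventually (lt_mem_nhds h1)] with z hz _ _
      exact hz
    · exact Eventually.of_forall fun z h1 h2 => absurd ⟨h1, h2⟩ h
  filter_upwards [hev, hpos] with z h1 h2
  refine ⟨B z, DD_le_of_half he (hP z) (hX z) (PX z) h1.1 (fun p => ?_) (hF0 z)⟩
  by_cases hA : A p
  · by_cases hp0 : p = Pat.empty
    · rw [hp0, hF0 z]
    · by_cases hpb : p b = t
      · rcases full_or_dead hpb with rfl | hd
        · rw [h1.1.fullv]
          exact zero_le_one
        · rw [h1.1.dead p hA hd]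
      · exact (h2 p ⟨hpb, hp0⟩ hA).le
  · rw [hFoff z p hA]

/-- **the continuity method**. -/
theorem bounded_all [Finite α] [PreconnectedSpace Z] (hbt : b ≠ t) (hf : A (full b t))
    (he : A Pat.empty) (hP : ∀ z, PosOp (X z)) (hX : ∀ z, Good b t (X z)) (PX : ∀ z, Pres A A (X z))
    (hcont : ∀ (z0 : Z) (F : Pat α → ℝ) (p : Pat α), ContinuousAt (fun z => X z F p) z0)
    (hR : ∀ z, Reach A b t (X z)) (hC : ∀ z, CoReach A b t (X z)) {M : ℝ}
    (hM : ∀ z, (∃ K, ∀ m, DD b t (X z) m ≤ K) → Half b t A (X z) (BB b t (X z)) (Flim b t A (X z)) →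
      Inj b t A (X z) → BB b t (X z) ≤ M)
    {z1 : Z} {K1 : ℝ} (h1 : ∀ m, DD b t (X z1) m ≤ K1) (z : Z) (m : ℕ) : DD b t (X z) m ≤ M := by
  have hiff : ∀ z, (∃ K, ∀ m, DD b t (X z) m ≤ K) ↔ ∀ m, DD b t (X z) m ≤ M := by
    intro z
    constructor
    · rintro ⟨K, hK⟩ m
      exact (DD_le_BB hK m).trans (hM z ⟨K, hK⟩
        (half_BB hbt hf he (hP z) (hX z) (PX z) (hR z) hK)
        (inj_BB hbt hf he (hP z) (hX z) (PX z) (hR z) (hC z) hK))
    · intro h
      exact ⟨M, h⟩
  have hclosed : IsClosed {z | ∃ K, ∀ m, DD b t (X z) m ≤ K} := by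
    have e : {z | ∃ K, ∀ m, DD b t (X z) m ≤ K} = ⋂ m, {z | DD b t (X z) m ≤ M} := by
      ext z
      rw [Set.mem_iInter]
      exact hiff z
    rw [e]
    exact isClosed_iInter fun m => isClosed_le (cont_DD (fun z => (hX z).lin) hcont m) continuous_const
  have hopen : IsOpen {z | ∃ K, ∀ m, DD b t (X z) m ≤ K} := by
    rw [isOpen_iff_mem_nhds]
    rintro z0 ⟨K, hK⟩
    exact open_step hbt hf he hP hX PX hcont (hR z0) (hC z0) hK
  have huniv := IsClopen.eq_univ ⟨hclosed, hopen⟩ ⟨z1, K1, h1⟩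
  have hz : z ∈ {z | ∃ K, ∀ m, DD b t (X z) m ≤ K} := by
    rw [huniv]
    exact Set.mem_univ z
  exact (hiff z).1 hz m

end family

end Pool.Agent.UNI
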