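import Pool.Agent.UNI.Tot4

/-!
# UNIV: the powers of the column operator with row dependent weights = the network of the grid
-/

set_option autoImplicit false

namespace Pool.Agent.UNI

open Pool.Agent.EXL Pool.Agent.EXL.Net HexObs HexObs.LP Pat

/-- The m-th power of the column operator (row `i` has the weights `w i`) is the network of the grid with
`m` columns and `N` rows. -/
theorem colW_net4 {K : Type*} [CommRing K] (w : ℤ → Wt K) {N : ℕ} (hN : 1 ≤ N) (m : ℕ) :
    ((colW (fun i : Fin N => w ((i : ℕ) : ℤ)))^[m] (ind (fullS N))) Pat.empty =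
      Net4 (fun v => ofWt (w v.2)) (grid N m) (feet4 m) (tops4 N m) (dlt K) Pat.empty := by
  rcases Nat.eq_zero_or_pos m with hm | hm
  · subst hm
    have h1 : grid N 0 = ∅ := by
      simp [grid]
    have h2 : feet4 0 = ∅ := by simp [feet4]
    have h3 : tops4 N 0 = ∅ := by simp [tops4]
    have h4 : edg4 ∅ = ∅ := by
      rw [Finset.eq_empty_iff_forall_notMem]
      intro e he
      obtain ⟨v, h1, -⟩ := mem_edg4.1 he
      simp at h1
    have h6 : (Net4 (fun v => ofWt (w v.2)) (grid N 0) (feet4 0) (tops4 N 0) : Op Lab K) = 1 := by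
      unfold Net4
      rw [h2, h3]
      have e1 : CEL (fun v => ofWt (w v.2)) (grid N 0) = 1 := by
        rw [h1]
        exact Finset.noncommProd_empty _ _
      have e2 : ∀ b, EN K b ∅ = 1 := fun b => Finset.noncommProd_empty _ _
      have e3 : (CO K (edg4 (grid N 0)) edg4_ed : Op Lab K) = 1 := by
        unfold CO
        rw [Finset.noncommProd_congr (by rw [h1, h4]) (fun _ _ => rfl)]
        exact Finset.noncommProd_empty _ _
      rw [e1, e2, e2, e3]
      simp
    rw [h6]
    show ind (fullS N) Pat.empty = dlt K Pat.empty
    unfold ind dlt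
    rw [if_neg, if_neg]
    · intro h
      have := congrArg (fun p => p.f be) h
      simp [full, cup, Pat.empty] at this
    · intro h
      have := congrArg (fun p => p.f Site.fl) h
      simp [fullS, cup, Pat.empty] at this
  · rw [Net4_eq_tot w hN hm, tot_empty4]

end Pool.Agent.UNI
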