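import Pool.Agent.UNI.Width
import Pool.Agent.UNI.Model
import Pool.Agent.EXL.HexCol
import Pool.Agent.UNI.ZNet4
import Pool.Agent.UNI.WtR
import Pool.Agent.UNI.Win0

/-!
# UNIV, module M5: the critical weight of all crossings is the number of the half strip function

`Bcr N w`: total weight of the crossings of the strip with `N` rows and (nonnegative) weights `w`, entered through
the bottom side of the face `(0, 0)`.  If the partition functions of the grids are the iterates of the column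
operator (M1 + M2) and a nonnegative half strip function with number `β` exists, then `Bcr N w = β`.
-/

set_option autoImplicit false

namespace Pool.Agent.UNI

open Pool.Agent.EXL HexObs HexObs.LP Filter Topology
open scoped ENNReal

/-- the total weight of the crossings of the strip with `N` rows and weights `w`. -/
noncomputable def Bcr (N : ℕ) (w : ℤ → Wt ℝ) : ℝ≥0∞ :=
  ∑' t : List (Fin 4), ENNReal.ofReal (if Crs N t then wgt w (0, -1) 1 t else 0)

/-! ### the columns of a walk -/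

theorem le_foldr_min {z : ℤ} : ∀ l : List ℤ, z ≤ l.foldr min 0 ↔ z ≤ 0 ∧ ∀ x ∈ l, z ≤ x
  | [] => by simp
  | a :: l => by
    rw [List.foldr_cons, le_min_iff, le_foldr_min l]
    simp only [List.mem_cons, forall_eq_or_imp]
    tauto

theorem foldr_max_lt {z : ℤ} : ∀ l : List ℤ, l.foldr max 0 < z ↔ 0 < z ∧ ∀ x ∈ l, x < z
  | [] => by simp
  | a :: l => by
    rw [List.foldr_cons, max_lt_iff, foldr_max_lt l]
    simp only [List.mem_cons, forall_eq_or_imp]
    tauto

/-- the leftmost column. -/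
def loC (t : List (Fin 4)) : ℤ := ((pas (0, -1) 1 t).map (fun x => x.1.1)).foldr min 0

/-- the rightmost column. -/
def hiC (t : List (Fin 4)) : ℤ := ((pas (0, -1) 1 t).map (fun x => x.1.1)).foldr max 0

theorem le_loC {t : List (Fin 4)} {z : ℤ} :
    z ≤ loC t ↔ z ≤ 0 ∧ ∀ x ∈ pas (0, -1) 1 t, z ≤ x.1.1 := by
  unfold loC
  rw [le_foldr_min]
  simp only [List.mem_map, forall_exists_index, and_imp, forall_apply_eq_imp_iff₂]

theorem hiC_lt {t : List (Fin 4)} {z : ℤ} :
    hiC t < z ↔ 0 < z ∧ ∀ x ∈ pas (0, -1) 1 t, x.1.1 < z := by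
  unfold hiC
  rw [foldr_max_lt]
  simp only [List.mem_map, forall_exists_index, and_imp, forall_apply_eq_imp_iff₂]

theorem lo_hi (t : List (Fin 4)) : loC t ≤ 0 ∧ 0 ≤ hiC t := by
  constructor
  · exact (le_loC.1 (le_refl (loC t))).1
  · by_contra h
    push Not at h
    have := (hiC_lt.1 h).1
    omega

theorem fit_iff {N j m : ℕ} (hj : j < m) {t : List (Fin 4)} :
    Fit N j m t ↔ Crs N t ∧ (0 ≤ (j : ℤ) + loC t ∧ (j : ℤ) + hiC t < m) := by
  have e1 : 0 ≤ (j : ℤ) + loC t ↔ -(j : ℤ) ≤ loC t := by constructor <;> intro h <;> omega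
  have e2 : (j : ℤ) + hiC t < m ↔ hiC t < m - j := by constructor <;> intro h <;> omega
  rw [e1, e2, le_loC, hiC_lt]
  unfold Fit
  constructor
  · rintro ⟨h1, h2⟩
    refine ⟨h1, ⟨by omega, fun x hx => ?_⟩, by omega, fun x hx => ?_⟩
    · have := h2 x hx
      omega
    · have := h2 x hx
      omega
  · rintro ⟨h1, ⟨-, h2⟩, -, h3⟩
    refine ⟨h1, fun x hx => ?_⟩
    have h4 := h2 x hx
    have h5 := h3 x hx
    constructor <;> omega

/-! ### nonnegative weights -/

theorem one_nn {w : Wt ℝ} (hw : w.Nn) (a b : Fin 4) : 0 ≤ one w a b := by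
  unfold one
  split_ifs
  · exact le_rfl
  · exact hw.v
  · exact hw.u1
  · exact hw.u2

theorem two_nn {w : Wt ℝ} (hw : w.Nn) (a b c d : Fin 4) : 0 ≤ two w a b c d := by
  unfold two
  split_ifs
  · exact hw.w1
  · exact hw.w2
  · exact le_rfl
  · exact le_rfl

theorem loc_nn {w : Wt ℝ} (hw : w.Nn) : ∀ l : List (Fin 4 × Fin 4), 0 ≤ loc w l
  | [] => zero_le_one
  | [_] => one_nn hw _ _
  | [_, _] => two_nn hw _ _ _ _
  | _ :: _ :: _ :: _ => le_rfl

theorem wgt_nn {w : ℤ → Wt ℝ} (hw : ∀ i, (w i).Nn) (v : Pt) (d : Fin 4) (t : List (Fin 4)) :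
    0 ≤ wgt w v d t :=
  Finset.prod_nonneg (fun u _ => loc_nn (hw u.2) _)

/-! ### the partition functions of the grids -/

section

variable {N : ℕ} {w : ℤ → Wt ℝ}

theorem ZZ_fit (m : ℕ) :
    ZZ (fun t => ENNReal.ofReal (if Crs N t then wgt w (0, -1) 1 t else 0)) loC hiC m =
      ∑ j ∈ Finset.range m, ∑' t, ENNReal.ofReal (if Fit N j m t then wgt w (0, -1) 1 t else 0) := by
  unfold ZZ
  apply Finset.sum_congr rfl
  intro j hj
  apply tsum_congr
  intro t
  have h := fit_iff (N := N) (Finset.mem_range.1 hj) (t := t)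
  by_cases h1 : 0 ≤ (j : ℤ) + loC t ∧ (j : ℤ) + hiC t < m
  · rw [if_pos h1]
    show ENNReal.ofReal (if Crs N t then wgt w (0, -1) 1 t else 0) = _
    by_cases h2 : Crs N t
    · rw [if_pos h2, if_pos (h.2 ⟨h2, h1⟩)]
    · rw [if_neg h2, if_neg (fun h3 => h2 (h.1 h3).1)]
  · rw [if_neg h1, if_neg (fun h3 => h1 (h.1 h3).2), ENNReal.ofReal_zero]

theorem exists_Ws (s : Finset (List (Fin 4))) : ∃ L, s ⊆ Ws L := by
  classical
  induction s using Finset.induction_on with
  | empty => exact ⟨0, by simp⟩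
  | insert a s _ ih =>
    obtain ⟨L, hL⟩ := ih
    refine ⟨max L a.length, fun t ht => ?_⟩
    rw [mem_Ws]
    rcases Finset.mem_insert.1 ht with rfl | ht
    · exact le_max_right _ _
    · exact (mem_Ws.1 (hL ht)).trans (le_max_left _ _)

/-- sums over all words that are reached on the words of bounded length. -/
theorem tsum_Ws {f : List (Fin 4) → ℝ≥0∞} {c : ℝ≥0∞} {L0 : ℕ}
    (h : ∀ L, L0 ≤ L → ∑ t ∈ Ws L, f t = c) : ∑' t, f t = c := by
  apply le_antisymm
  · rw [ENNReal.tsum_eq_iSup_sum]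
    apply iSup_le
    intro s
    obtain ⟨L, hL⟩ := exists_Ws s
    rw [← h (max L0 L) (le_max_left _ _)]
    apply Finset.sum_le_sum_of_subset
    intro t ht
    rw [mem_Ws]
    exact (mem_Ws.1 (hL ht)).trans (le_max_right _ _)
  · rw [← h L0 le_rfl]
    exact ENNReal.sum_le_tsum _

theorem net4_ZZ (hw : ∀ i, (w i).Nn) (hN : 1 ≤ N) (m : ℕ) :
    ENNReal.ofReal (Net4 (fun v => ofWt (w v.2)) (grid N m) (feet4 m) (tops4 N m) (Net.dlt ℝ)
      Pat.empty) =
      ZZ (fun t => ENNReal.ofReal (if Crs N t then wgt w (0, -1) 1 t else 0)) loC hiC m := by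
  rw [ZZ_fit, ← Summable.tsum_finsetSum (fun _ _ => ENNReal.summable)]
  symm
  apply tsum_Ws (L0 := 2 * (m * N))
  intro L hL
  rw [net4_words w hN hL, Finset.sum_comm, ENNReal.ofReal_sum_of_nonneg]
  · apply Finset.sum_congr rfl
    intro t _
    rw [ENNReal.ofReal_sum_of_nonneg]
    intro j _
    split_ifs
    · exact wgt_nn hw _ _ _
    · exact le_rfl
  · intro t _
    apply Finset.sum_nonneg
    intro j _
    split_ifs
    · exact wgt_nn hw _ _ _
    · exact le_rfl

/-- **M5.** The total weight of the crossings is the number of the nonnegative half strip function. -/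
theorem Bcr_eq_half (hN : 1 ≤ N) (hw : ∀ i, (w i).Nn) {A : Pat (Site N) → Prop}
    {X : (Pat (Site N) → ℝ) → (Pat (Site N) → ℝ)}
    (hf : A (HS.full Site.fl Site.tp)) (he : A Pat.empty) (hP : HS.PosOp X)
    (hX : HS.Good Site.fl Site.tp X) (PX : HS.Pres A A X) (hR : HS.Reach A Site.fl Site.tp X)
    (hC : HS.CoReach A Site.fl Site.tp X)
    (hnet : ∀ m, (X^[m] (ind (fullS N))) Pat.empty =
      Net4 (fun v => ofWt (w v.2)) (grid N m) (feet4 m) (tops4 N m) (Net.dlt ℝ) Pat.empty)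
    {β : ℝ} {F : Pat (Site N) → ℝ} (hF : ∀ p, A p → p ≠ Pat.empty → 0 ≤ F p)
    (h : HS.Half Site.fl Site.tp A X β F) : Bcr N w = ENNReal.ofReal β := by
  unfold Bcr
  refine tsum_eq_half (lo := loC) (hi := hiC) _ lo_hi (by simp) hf he hP hX PX hR hC ?_ hF h
  intro m
  have e : HS.FF Site.fl Site.tp X m Pat.empty = (X^[m] (ind (fullS N))) Pat.empty := by
    unfold HS.FF
    have e1 : (ind (fullS N) : Pat (Site N) → ℝ) = HS.ind (HS.full Site.fl Site.tp) := by
      funext p
      classical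
      show (ind (HS.full Site.fl Site.tp) : Pat (Site N) → ℝ) p = _
      by_cases hp : p = HS.full Site.fl Site.tp
      · rw [hp, HS.ind_self]
        unfold ind
        rw [if_pos rfl]
      · rw [HS.ind_ne hp]
        unfold ind
        rw [if_neg hp]
    rw [e1]
  rw [e, hnet, net4_ZZ hw hN]

/-- **M5**, the column operator of the weights `w`. -/
theorem Bcr_eq_colW (hN : 1 ≤ N) (hw : ∀ i, (w i).Nn)
    (hR : HS.Reach (AN N) Site.fl Site.tp (colW (fun i : Fin N => w ((i : ℕ) : ℤ))))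
    (hC : HS.CoReach (AN N) Site.fl Site.tp (colW (fun i : Fin N => w ((i : ℕ) : ℤ))))
    {β : ℝ} {F : Pat (Site N) → ℝ} (hF : ∀ p, AN N p → p ≠ Pat.empty → 0 ≤ F p)
    (h : HS.Half Site.fl Site.tp (AN N) (colW (fun i : Fin N => w ((i : ℕ) : ℤ))) β F) :
    Bcr N w = ENNReal.ofReal β :=
  Bcr_eq_half hN hw (AN_full N) (AN_empty N) (posOp_colW (fun _ => hw _)) (good_colW _)
    (pres_colW _) hR hC (fun m => colW_net4 w hN m) hF h

theorem FF_colW (hw : ∀ i, (w i).Nn) (hN : 1 ≤ N) (m : ℕ) :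
    ENNReal.ofReal (HS.FF Site.fl Site.tp (colW (fun i : Fin N => w ((i : ℕ) : ℤ))) m Pat.empty) =
      ZZ (fun t => ENNReal.ofReal (if Crs N t then wgt w (0, -1) 1 t else 0)) loC hiC m := by
  have e1 : (ind (fullS N) : Pat (Site N) → ℝ) = HS.ind (HS.full Site.fl Site.tp) := by
    funext p
    classical
    show (ind (HS.full Site.fl Site.tp) : Pat (Site N) → ℝ) p = _
    by_cases hp : p = HS.full Site.fl Site.tp
    · rw [hp, HS.ind_self]
      unfold ind
      rw [if_pos rfl]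
    · rw [HS.ind_ne hp]
      unfold ind
      rw [if_neg hp]
  unfold HS.FF
  rw [← e1, colW_net4 w hN m, net4_ZZ hw hN]

/-- The total weight of the crossings is the limit of the increments of the iterates of the column. -/
theorem Bcr_eq_of_tendsto (hN : 1 ≤ N) (hw : ∀ i, (w i).Nn) {β : ℝ}
    (h : Tendsto (DD Site.fl Site.tp (colW (fun i : Fin N => w ((i : ℕ) : ℤ)))) atTop (𝓝 β)) :
    Bcr N w = ENNReal.ofReal β := by
  unfold Bcr
  exact tsum_eq_of_incr _ lo_hi (fun m => HS.FF_nonneg (posOp_colW (fun _ => hw _)) m _)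
    (FF_colW hw hN) h

/-- The total weight of the crossings when the increments are bounded. -/
theorem Bcr_eq_BB (hN : 1 ≤ N) (hw : ∀ i, (w i).Nn) {K : ℝ}
    (hK : ∀ m, DD Site.fl Site.tp (colW (fun i : Fin N => w ((i : ℕ) : ℤ))) m ≤ K) :
    Bcr N w = ENNReal.ofReal (BB Site.fl Site.tp (colW (fun i : Fin N => w ((i : ℕ) : ℤ)))) :=
  Bcr_eq_of_tendsto hN hw (DD_tendsto (posOp_colW (fun _ => hw _)) (good_colW _) hK)

end

end Pool.Agent.UNI
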